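import Pool.Agent.Lib.MP_a2b075_al.PG

set_option autoImplicit false
open scoped Pointwise
open SemidirectProduct

namespace Pool.Agent.KegelFF

variable {F : ∀ (G : Type) [Group G], Prop}

/-- the field generated by a `q`-th root of unity over the prime field. -/
theorem exists_K (p q : ℕ) [Fact p.Prime] [Fact q.Prime] (hpq : p ≠ q) :
    ∃ (K : Type) (_ : Field K) (_ : Algebra (ZMod p) K) (_ : Finite K) (ζ : Kˣ), orderOf ζ = q ∧
      ∀ U : AddSubgroup K, (∀ u ∈ U, (ζ : K) * u ∈ U) → (∃ u ∈ U, u ≠ 0) → ∀ x, x ∈ U := by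
  have hp : p.Prime := Fact.out
  have hq : q.Prime := Fact.out
  have hne : NeZero ((q : ℕ) : ZMod p) := ⟨by
    intro h
    rw [ZMod.natCast_eq_zero_iff] at h
    exact hpq ((Nat.prime_dvd_prime_iff_eq hp hq).mp h)⟩
  have : NeZero q := ⟨hq.ne_zero⟩
  let K := CyclotomicField q (ZMod p)
  have hcyc : IsCyclotomicExtension {q} (ZMod p) K := inferInstance
  have hfd : FiniteDimensional (ZMod p) K := IsCyclotomicExtension.finiteDimensional {q} (ZMod p) K
  have hfin : Finite K := Module.finite_of_finite (ZMod p)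
  let z : K := IsCyclotomicExtension.zeta q (ZMod p) K
  have hz : IsPrimitiveRoot z q := IsCyclotomicExtension.zeta_spec q (ZMod p) K
  have hz0 : z ≠ 0 := hz.ne_zero hq.ne_zero
  have hadj : Algebra.adjoin (ZMod p) ({z} : Set K) = ⊤ :=
    IsCyclotomicExtension.adjoin_primitive_root_eq_top hz
  refine ⟨K, inferInstance, inferInstance, hfin, Units.mk0 z hz0, ?_, ?_⟩
  · rw [← orderOf_units, Units.val_mk0]
    exact hz.eq_orderOf.symm
  · intro U hU ⟨u, huU, hu0⟩ x
    have hmul : ∀ a ∈ Algebra.adjoin (ZMod p) ({z} : Set K), ∀ v ∈ U, a * v ∈ U := by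
      intro a ha
      induction ha using Algebra.adjoin_induction with
      | mem y hy =>
        intro v hv
        rw [Set.mem_singleton_iff] at hy
        rw [hy]
        exact hU v hv
      | algebraMap r =>
        intro v hv
        obtain ⟨n, rfl⟩ := ZMod.natCast_zmod_surjective r
        rw [map_natCast, ← nsmul_eq_mul]
        exact U.nsmul_mem hv n
      | add a b _ _ iha ihb =>
        intro v hv
        rw [add_mul]
        exact U.add_mem (iha v hv) (ihb v hv)
      | mul a b _ _ iha ihb =>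
        intro v hv
        rw [mul_assoc]
        exact iha _ (ihb v hv)
    have hx : x * u⁻¹ ∈ Algebra.adjoin (ZMod p) ({z} : Set K) := by rw [hadj]; trivial
    have := hmul _ hx u huU
    rwa [mul_assoc, inv_mul_cancel₀ hu0, mul_one] at this

theorem exists_lam_mod (p : ℕ) [Fact p.Prime] (E : Type) [AddCommGroup E] [Module (ZMod p) E]
    (v : E) (hv : v ≠ 0) : ∃ l : E →+ ZMod p, l v ≠ 0 := by
  obtain ⟨f, hf⟩ : ∃ f : E →ₗ[ZMod p] ZMod p, f v ≠ 0 := by
    by_contra h
    push Not at h
    exact hv ((Module.forall_dual_apply_eq_zero_iff (ZMod p) v).mp h)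
  exact ⟨f.toAddMonoidHom, hf⟩

theorem exists_lam_add (p : ℕ) [Fact p.Prime] (E : Type) [AddCommGroup E]
    (hE : ∀ x : E, p • x = 0) (v : E) (hv : v ≠ 0) : ∃ l : E →+ ZMod p, l v ≠ 0 := by
  have : Module (ZMod p) E := AddCommGroup.zmodModule hE
  exact exists_lam_mod p E v hv

/-- functionals separate points of elementary abelian groups. -/
theorem exists_lam (p : ℕ) [Fact p.Prime] (K : Type) [Field K] [Algebra (ZMod p) K] (V : Type)
    [CommGroup V] (hV : ∀ v : V, v ^ p = 1) (v : V) (hv : v ≠ 1) :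
    ∃ l : V →* Multiplicative K, l v ≠ 1 := by
  obtain ⟨f, hf⟩ := exists_lam_add p (Additive V) (fun x => by
    have := hV x.toMul
    rw [← toMul_nsmul] at this
    exact Additive.toMul.injective (by simpa using this)) (Additive.ofMul v)
    (fun h => hv (by simpa using h))
  refine ⟨{ toFun := fun w => Multiplicative.ofAdd (algebraMap (ZMod p) K (f (Additive.ofMul w)))
            map_one' := by simp
            map_mul' := fun a b => by simp [ofMul_mul] }, ?_⟩
  intro h
  have h3 : algebraMap (ZMod p) K (f (Additive.ofMul v)) = 0 := by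
    have := congrArg Multiplicative.toAdd h
    simpa using this
  rw [map_eq_zero_iff _ (algebraMap (ZMod p) K).injective] at h3
  exact hf h3

/-- multiplication action of units. -/
def mulAct (K : Type) [Field K] : Kˣ →* MulAut (Multiplicative K) where
  toFun u :=
    { toFun := fun x => Multiplicative.ofAdd ((u : K) * x.toAdd)
      invFun := fun x => Multiplicative.ofAdd (((u⁻¹ : Kˣ) : K) * x.toAdd)
      left_inv := fun x => by
        simp only [toAdd_ofAdd]
        rw [← mul_assoc, ← Units.val_mul, inv_mul_cancel, Units.val_one, one_mul, ofAdd_toAdd]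
      right_inv := fun x => by
        simp only [toAdd_ofAdd]
        rw [← mul_assoc, ← Units.val_mul, mul_inv_cancel, Units.val_one, one_mul, ofAdd_toAdd]
      map_mul' := fun x y => by
        rw [toAdd_mul, mul_add, ofAdd_add] }
  map_one' := by ext x; simp
  map_mul' u v := by
    ext x
    simp only [MulEquiv.coe_mk, Equiv.coe_fn_mk, MulAut.mul_apply, toAdd_ofAdd, Units.val_mul]
    rw [mul_assoc]

@[simp] theorem mulAct_apply (K : Type) [Field K] (u : Kˣ) (x : Multiplicative K) :
    mulAct K u x = Multiplicative.ofAdd ((u : K) * x.toAdd) := rfl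

section comps

variable {K : Type} [Field K] {V Y : Type} [CommGroup V] [Group Y] [Fintype Y]
  (φ : Y →* MulAut V) (χ : Y →* Kˣ) (l : V →* Multiplicative K)

/-- isotypic components of a functional. -/
def comps (j : ℕ) : V →* Multiplicative K where
  toFun v := Multiplicative.ofAdd (∑ y : Y, ((((χ y)⁻¹) ^ j : Kˣ) : K) * (l (φ y v)).toAdd)
  map_one' := by simp
  map_mul' a b := by
    rw [← ofAdd_add, ← Finset.sum_add_distrib]
    congr 1
    refine Finset.sum_congr rfl fun y _ => ?_
    rw [map_mul, map_mul, toAdd_mul, mul_add]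

theorem comps_toAdd (j : ℕ) (v : V) :
    (comps φ χ l j v).toAdd = ∑ y : Y, ((((χ y)⁻¹) ^ j : Kˣ) : K) * (l (φ y v)).toAdd := rfl

theorem comps_equiv (j : ℕ) (y0 : Y) (v : V) :
    comps φ χ l j (φ y0 v) = mulAct K ((χ y0) ^ j) (comps φ χ l j v) := by
  apply Multiplicative.toAdd.injective
  rw [mulAct_apply, toAdd_ofAdd, comps_toAdd, comps_toAdd, Finset.mul_sum]
  refine Fintype.sum_equiv (Equiv.mulRight y0) _ _ (fun y => ?_)
  rw [Equiv.coe_mulRight, map_mul φ, MulAut.mul_apply, ← mul_assoc, ← Units.val_mul, map_mul χ,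
    mul_inv, mul_pow]
  congr 2
  rw [inv_pow (χ y0), mul_comm ((χ y)⁻¹ ^ j), ← mul_assoc, mul_inv_cancel, one_mul]

theorem comps_sum (q : ℕ) (hχq : ∀ y, (χ y) ^ q = 1) (hχ : Function.Injective χ)
    (v : V) :
    ∑ j ∈ Finset.range q, (comps φ χ l j v).toAdd = (q : K) * (l v).toAdd := by
  simp only [comps_toAdd]
  rw [Finset.sum_comm]
  rw [Finset.sum_eq_single (1 : Y)]
  · simp
  · intro y _ hy
    rw [← Finset.sum_mul]
    have h1 : (((χ y)⁻¹ : Kˣ) : K) ≠ 1 := by
      intro h
      have : (χ y)⁻¹ = 1 := Units.ext (by simpa using h)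
      rw [inv_eq_one] at this
      exact hy (hχ (by rw [this, map_one]))
    have h2 : ∑ i ∈ Finset.range q, ((((χ y)⁻¹) ^ i : Kˣ) : K) = 0 := by
      have h3 := geom_sum_mul (((χ y)⁻¹ : Kˣ) : K) q
      have h4 : ((((χ y)⁻¹ : Kˣ) : K)) ^ q = 1 := by
        rw [← Units.val_pow_eq_pow_val, inv_pow, hχq, inv_one, Units.val_one]
      rw [h4, sub_self] at h3
      have h5 := (mul_eq_zero.mp h3).resolve_right (sub_ne_zero.mpr h1)
      simpa using h5
    rw [h2, zero_mul]
  · intro h; exact absurd (Finset.mem_univ _) h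

end comps

end Pool.Agent.KegelFF
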