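import Pool.Agent.Lib.MP_a2b075_al.Base

set_option autoImplicit false
open scoped Pointwise
open SemidirectProduct

namespace Pool.Agent.KegelFF

variable {F : ∀ (G : Type) [Group G], Prop}

/-- the model group -/
abbrev ZK (K : Type) [Field K] (ζ : Kˣ) : Type :=
  Multiplicative K ⋊[(mulAct K).comp (Subgroup.zpowers ζ).subtype] (Subgroup.zpowers ζ)

theorem exists_surj (q : ℕ) [Fact q.Prime] {K : Type} [Field K] [Finite K] (ζ : Kˣ)
    (hζ : orderOf ζ = q)
    (hU : ∀ U : AddSubgroup K, (∀ u ∈ U, (ζ : K) * u ∈ U) → (∃ u ∈ U, u ≠ 0) → ∀ x, x ∈ U)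
    {V Y : Type} [CommGroup V] [Group Y] [Fintype Y] (hY : Nat.card Y = q)
    (φ : Y →* MulAut V) (χ : Y ≃* Subgroup.zpowers ζ) (l : V →* Multiplicative K) (j : ℕ)
    (hj0 : 0 < j) (hjq : j < q) (v : V)
    (hv : comps φ ((Subgroup.zpowers ζ).subtype.comp χ.toMonoidHom) l j v ≠ 1) :
    ∃ f : V ⋊[φ] Y →* ZK K ζ, Function.Surjective f ∧
      f (inl v) ≠ 1 := by
  have hqp : q.Prime := Fact.out
  have hcz : Nat.card (Subgroup.zpowers ζ) = q := by rw [Nat.card_zpowers, hζ]
  let χ' : Y →* Kˣ := (Subgroup.zpowers ζ).subtype.comp χ.toMonoidHom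
  let ψ : Y →* Subgroup.zpowers ζ :=
    { toFun := fun y => (χ y) ^ j
      map_one' := by simp
      map_mul' := fun a b => by rw [map_mul, mul_pow] }
  have hψi : Function.Injective ψ := by
    rw [injective_iff_map_eq_one]
    intro y hy
    have hy' : (χ y) ^ j = 1 := hy
    have h1 : orderOf (χ y) ∣ j := orderOf_dvd_of_pow_eq_one hy'
    have h2 : orderOf (χ y) ∣ q := by rw [← hcz]; exact orderOf_dvd_natCard _
    rcases (Nat.dvd_prime hqp).mp h2 with h | h
    · rw [orderOf_eq_one_iff] at h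
      exact χ.injective (by rw [h, map_one])
    · rw [h] at h1
      exact absurd (Nat.le_of_dvd hj0 h1) (by omega)
  have hψs : Function.Surjective ψ := by
    have : Finite Y := inferInstance
    have hcard : Nat.card Y = Nat.card (Subgroup.zpowers ζ) := by rw [hY, hcz]
    exact (Nat.bijective_iff_injective_and_card ψ).mpr ⟨hψi, hcard⟩ |>.2
  have hcomp : ∀ y0 v, comps φ χ' l j (φ y0 v) = mulAct K (ψ y0 : Kˣ) (comps φ χ' l j v) := by
    intro y0 v
    exact comps_equiv φ χ' l j y0 v
  let U : AddSubgroup K :=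
    { carrier := {x | ∃ v, (comps φ χ' l j v).toAdd = x}
      zero_mem' := ⟨1, by simp⟩
      add_mem' := by
        rintro a b ⟨v, rfl⟩ ⟨w, rfl⟩
        exact ⟨v * w, by rw [map_mul, toAdd_mul]⟩
      neg_mem' := by
        rintro a ⟨v, rfl⟩
        exact ⟨v⁻¹, by rw [map_inv, toAdd_inv]⟩ }
  have hUall : ∀ x, x ∈ U := by
    refine hU U ?_ ?_
    · rintro u ⟨w, rfl⟩
      obtain ⟨y0, hy0⟩ := hψs ⟨ζ, Subgroup.mem_zpowers ζ⟩
      refine ⟨φ y0 w, ?_⟩
      rw [hcomp, hy0, mulAct_apply, toAdd_ofAdd]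
    · refine ⟨_, ⟨v, rfl⟩, ?_⟩
      intro h
      exact hv (Multiplicative.toAdd.injective h)
  refine ⟨SemidirectProduct.map (comps φ χ' l j) ψ (fun g => by ext w; exact congrArg _ (hcomp g w)),
    ?_, ?_⟩
  · rintro ⟨x, c⟩
    obtain ⟨w, hw⟩ := hUall x.toAdd
    obtain ⟨y, hy⟩ := hψs c
    exact ⟨⟨w, y⟩, by ext; · exact congrArg _ hw
                      · exact congrArg _ (congrArg _ hy)⟩
  · intro h
    have := congrArg SemidirectProduct.left h
    simp only [map_left, left_inl, one_left] at this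
    exact hv this

/-- All extensions `V ⋊ C_q` with `V` elementary abelian from one non nilpotent one. -/
theorem KF.base (hF : KF F) {p q : ℕ} [Fact p.Prime] [Fact q.Prime] (hpq : p ≠ q)
    {V1 Y1 : Type} [CommGroup V1] [Finite V1] [Group Y1] [Finite Y1] (hV1 : ∀ v : V1, v ^ p = 1)
    (hY1 : Nat.card Y1 = q) (φ1 : Y1 →* MulAut V1) (hnt : ∃ y v, φ1 y v ≠ v)
    (h1 : F (V1 ⋊[φ1] Y1)) (hp : ∀ (Q : Type) [Group Q] [Finite Q], IsPGroup p Q → F Q)
    (hq : ∀ (Q : Type) [Group Q] [Finite Q], IsPGroup q Q → F Q) :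
    ∀ (V : Type) [CommGroup V] [Finite V], (∀ v : V, v ^ p = 1) →
      ∀ (Y : Type) [Group Y] [Finite Y], Nat.card Y = q → ∀ φ : Y →* MulAut V,
      F (V ⋊[φ] Y) := by
  classical
  have hqp : q.Prime := Fact.out
  have hpp : p.Prime := Fact.out
  obtain ⟨K, _, _, _, ζ, hζ, hU⟩ := exists_K p q hpq
  have hcz : Nat.card (Subgroup.zpowers ζ) = q := by rw [Nat.card_zpowers, hζ]
  have hchar : CharP K p := charP_of_injective_algebraMap (algebraMap (ZMod p) K).injective p
  have hqK : (q : K) ≠ 0 := by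
    intro h
    rw [CharP.cast_eq_zero_iff K p] at h
    exact hpq ((Nat.prime_dvd_prime_iff_eq hpp hqp).mp h)
  have hζq : ∀ z : Subgroup.zpowers ζ, z ^ q = 1 := by
    intro z
    rw [← hcz]
    exact pow_card_eq_one'
  -- F (ZK K ζ)
  have hZ : F (ZK K ζ) := by
    obtain ⟨y0, v0, hyv⟩ := hnt
    have : Fintype Y1 := Fintype.ofFinite Y1
    let χ : Y1 ≃* Subgroup.zpowers ζ := mulEquivOfPrimeCardEq hY1 hcz
    let χ' : Y1 →* Kˣ := (Subgroup.zpowers ζ).subtype.comp χ.toMonoidHom
    have hχi : Function.Injective χ' := fun a b hab => χ.injective (Subtype.ext hab)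
    have hχq : ∀ y, (χ' y) ^ q = 1 := fun y => by
      have := congrArg Subtype.val (hζq (χ y))
      exact this
    obtain ⟨l, hl⟩ := exists_lam p K V1 hV1 (φ1 y0 v0 * v0⁻¹) (by
      intro h
      exact hyv (mul_inv_eq_one.mp h))
    by_contra hnot
    have hzero : ∀ j, 0 < j → j < q → ∀ v, comps φ1 χ' l j v = 1 := by
      intro j hj0 hjq v
      by_contra hv
      obtain ⟨f, hf, -⟩ := exists_surj q ζ hζ hU hY1 φ1 χ l j hj0 hjq v hv
      exact hnot (hF.img f hf h1)
    have hsum : ∀ v, (q : K) * (l v).toAdd = (comps φ1 χ' l 0 v).toAdd := by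
      intro v
      rw [← comps_sum φ1 χ' l q hχq hχi v]
      rw [Finset.sum_eq_single 0]
      · intro j hj hj0
        rw [hzero j (Nat.pos_of_ne_zero hj0) (Finset.mem_range.mp hj) v, toAdd_one]
      · intro h
        exact absurd (Finset.mem_range.mpr hqp.pos) h
    have heq : comps φ1 χ' l 0 (φ1 y0 v0) = comps φ1 χ' l 0 v0 := by
      rw [comps_equiv]
      apply Multiplicative.toAdd.injective
      rw [mulAct_apply, toAdd_ofAdd, pow_zero, Units.val_one, one_mul]
    have h2 : (q : K) * (l (φ1 y0 v0)).toAdd = (q : K) * (l v0).toAdd := by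
      rw [hsum, hsum, heq]
    have h3 := mul_left_cancel₀ hqK h2
    apply hl
    rw [map_mul, map_inv, mul_inv_eq_one]
    exact Multiplicative.toAdd.injective h3
  intro V _ _ hV Y _ _ hY φ
  have : Fintype Y := Fintype.ofFinite Y
  let χ : Y ≃* Subgroup.zpowers ζ := mulEquivOfPrimeCardEq hY hcz
  let χ' : Y →* Kˣ := (Subgroup.zpowers ζ).subtype.comp χ.toMonoidHom
  have hχi : Function.Injective χ' := fun a b hab => χ.injective (Subtype.ext hab)
  have hχq : ∀ y, (χ' y) ^ q = 1 := fun y => by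
    have := congrArg Subtype.val (hζq (χ y))
    exact this
  refine hF.resid (hF.unit h1) ?_
  intro w hw
  by_cases hwr : w.right = 1
  · have hwl : w.left ≠ 1 := by
      intro h
      exact hw (by ext; exact h; exact hwr)
    have hwi : w = inl w.left := by ext; rfl; exact hwr
    obtain ⟨l, hl⟩ := exists_lam p K V hV w.left hwl
    have hex : ∃ j, j < q ∧ comps φ χ' l j w.left ≠ 1 := by
      by_contra h
      push Not at h
      have h2 := comps_sum φ χ' l q hχq hχi w.left
      rw [Finset.sum_eq_zero (fun j hj => by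
        rw [h j (Finset.mem_range.mp hj), toAdd_one])] at h2
      have h3 := (mul_eq_zero.mp h2.symm).resolve_left hqK
      exact hl (Multiplicative.toAdd.injective h3)
    obtain ⟨j, hjq, hj⟩ := hex
    rcases Nat.eq_zero_or_pos j with h0 | h0
    · subst h0
      let f : V ⋊[φ] Y →* Multiplicative K :=
        { toFun := fun x => comps φ χ' l 0 x.left
          map_one' := by simp
          map_mul' := fun a b => by
            rw [mul_left, map_mul, comps_equiv]
            congr 1
            apply Multiplicative.toAdd.injective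
            rw [mulAct_apply, toAdd_ofAdd, pow_zero, Units.val_one, one_mul] }
      refine ⟨Multiplicative K, inferInstance, inferInstance, f, ?_, ?_⟩
      · refine hp _ ?_
        intro x
        refine ⟨1, ?_⟩
        apply Subtype.ext
        apply Multiplicative.toAdd.injective
        rw [pow_one]
        simp
      · exact hj
    · obtain ⟨f, hf, hfv⟩ := exists_surj q ζ hζ hU hY φ χ l j h0 hjq w.left hj
      refine ⟨ZK K ζ, inferInstance, inferInstance, f, hF.range_of_surj f hf hZ, ?_⟩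
      rw [hwi]
      exact hfv
  · refine ⟨Y, inferInstance, inferInstance, rightHom, hF.range_of_surj _ rightHom_surjective ?_, ?_⟩
    · refine hq Y (IsPGroup.of_card (n := 1) (by rw [hY, pow_one]))
    · exact hwr

end Pool.Agent.KegelFF
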