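import Mathlib

set_option autoImplicit false
open scoped Pointwise

namespace Pool.Agent.KegelFF

/-- The data of the problem: an isomorphism closed class of finite soluble groups which is a
formation and a Fitting class and has Kegel's property. -/
structure KF (F : ∀ (G : Type) [Group G], Prop) : Prop where
  iso : ∀ (G H : Type) [Group G] [Group H] [Finite G] [Finite H], (G ≃* H) → F G → F H
  sol : ∀ (G : Type) [Group G] [Finite G], F G → IsSolvable G
  quo : ∀ (G : Type) [Group G] [Finite G] (N : Subgroup G) [N.Normal], F G → F (G ⧸ N)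
  res : ∀ (G : Type) [Group G] [Finite G] (N M : Subgroup G) [N.Normal] [M.Normal],
      F (G ⧸ N) → F (G ⧸ M) → F (G ⧸ (N ⊓ M))
  nrm : ∀ (G : Type) [Group G] [Finite G] (N : Subgroup G), N.Normal → F G → F ↥N
  prd : ∀ (G : Type) [Group G] [Finite G] (N M : Subgroup G), N.Normal → M.Normal →
      N ⊔ M = ⊤ → F ↥N → F ↥M → F G
  keg : ∀ (G : Type) [Group G] [Finite G] (A B C : Subgroup G),
      (A : Set G) * (B : Set G) = Set.univ → (B : Set G) * (C : Set G) = Set.univ →
      (C : Set G) * (A : Set G) = Set.univ → F ↥A → F ↥B → F ↥C → F G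

variable {F : ∀ (G : Type) [Group G], Prop}

namespace KF

/-- images -/
theorem img (hF : KF F) {G H : Type} [Group G] [Group H] [Finite G] [Finite H] (f : G →* H)
    (hf : Function.Surjective f) (h : F G) : F H :=
  hF.iso _ _ (QuotientGroup.quotientKerEquivOfSurjective f hf) (hF.quo G f.ker h)

theorem range_of (hF : KF F) {G H : Type} [Group G] [Group H] [Finite G] [Finite H] (f : G →* H)
    (h : F G) : F f.range :=
  hF.img f.rangeRestrict f.rangeRestrict_surjective h

theorem of_inj (hF : KF F) {G H : Type} [Group G] [Group H] [Finite G] [Finite H] (f : G →* H)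
    (hi : Function.Injective f) (h : F f.range) : F G :=
  hF.iso _ _ (MonoidHom.ofInjective hi).symm h

/-- the trivial group -/
theorem unit (hF : KF F) {G : Type} [Group G] [Finite G] (h : F G) : F Unit :=
  hF.img (1 : G →* Unit) (fun _ => ⟨1, rfl⟩) h

theorem triv (hF : KF F) {G : Type} [Group G] [Finite G] (h : F Unit) [Subsingleton G] : F G :=
  hF.img (1 : Unit →* G) (fun x => ⟨1, Subsingleton.elim _ _⟩) h

theorem triv' (hF : KF F) {G : Type} [Group G] [Finite G] (h : F Unit) (hG : Nat.card G = 1) :
    F G := by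
  have := (Nat.card_eq_one_iff_unique.mp hG).1
  exact hF.triv h

/-- residual closure, intersection of kernels -/
theorem resid (hF : KF F) {G : Type} [Group G] [Finite G] (h0 : F Unit)
    (h : ∀ x : G, x ≠ 1 → ∃ (H : Type) (_ : Group H) (_ : Finite H) (f : G →* H),
      F f.range ∧ f x ≠ 1) : F G := by
  classical
  -- minimal normal subgroup with quotient in F
  have key : ∀ n : ℕ, ∀ N : Subgroup G, ∀ _ : N.Normal, Nat.card N ≤ n → F (G ⧸ N) → F G := by
    intro n
    induction n with
    | zero =>
      intro N _ hc _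
      have := Nat.card_pos (α := N)
      omega
    | succ n ih =>
      intro N hN hc hFN
      by_cases hb : N = ⊥
      · subst hb
        exact hF.iso _ _ QuotientGroup.quotientBot hFN
      · obtain ⟨⟨x, hxN⟩, hx0⟩ := Subgroup.ne_bot_iff_exists_ne_one.mp hb
        have hx1 : x ≠ 1 := fun h => hx0 (Subtype.ext h)
        obtain ⟨H, hH1, hH2, f, hf, hfx⟩ := h x hx1
        have hK : F (G ⧸ f.ker) := hF.iso _ _ (QuotientGroup.quotientKerEquivRange f).symm hf
        have hNK := hF.res G N f.ker hFN hK
        refine ih (N ⊓ f.ker) inferInstance ?_ hNK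
        have hlt : N ⊓ f.ker < N := by
          refine lt_of_le_of_ne inf_le_left ?_
          intro he
          have : x ∈ N ⊓ f.ker := by rw [he]; exact hxN
          exact hfx (MonoidHom.mem_ker.mp this.2)
        have : Nat.card (N ⊓ f.ker : Subgroup G) < Nat.card N := by
          have h1 : Nat.card (N ⊓ f.ker : Subgroup G) = Set.ncard ((N ⊓ f.ker : Subgroup G) : Set G) := rfl
          have h2 : Nat.card N = Set.ncard (N : Set G) := rfl
          rw [h1, h2]
          exact Set.ncard_lt_ncard hlt (Set.toFinite _)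
        omega
  refine key _ ⊤ inferInstance le_rfl ?_
  have : Subsingleton (G ⧸ (⊤ : Subgroup G)) := QuotientGroup.subsingleton_quotient_top
  exact hF.triv h0

/-- subdirect products of two groups -/
theorem sub2 (hF : KF F) {G H K : Type} [Group G] [Group H] [Group K] [Finite G] [Finite H]
    [Finite K] (f : G →* H) (g : G →* K) (hf : F f.range) (hg : F g.range)
    (hk : ∀ x, f x = 1 → g x = 1 → x = 1) : F G := by
  refine hF.resid (hF.unit hf) ?_
  intro x hx
  by_cases h1 : f x = 1
  · exact ⟨K, inferInstance, inferInstance, g, hg, fun h2 => hx (hk x h1 h2)⟩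
  · exact ⟨H, inferInstance, inferInstance, f, hf, h1⟩

theorem prod (hF : KF F) {G H : Type} [Group G] [Group H] [Finite G] [Finite H] (hG : F G)
    (hH : F H) : F (G × H) := by
  refine hF.sub2 (MonoidHom.fst G H) (MonoidHom.snd G H) ?_ ?_ ?_
  · refine hF.iso _ _ ?_ (hF.quo G ⊥ hG)
    refine QuotientGroup.quotientBot.trans ?_
    have : (MonoidHom.fst G H).range = ⊤ := MonoidHom.range_eq_top.mpr (fun x => ⟨(x, 1), rfl⟩)
    rw [this]
    exact Subgroup.topEquiv.symm
  · refine hF.iso _ _ ?_ (hF.quo H ⊥ hH)
    refine QuotientGroup.quotientBot.trans ?_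
    have : (MonoidHom.snd G H).range = ⊤ := MonoidHom.range_eq_top.mpr (fun x => ⟨(1, x), rfl⟩)
    rw [this]
    exact Subgroup.topEquiv.symm
  · rintro ⟨a, b⟩ h1 h2
    simp at h1 h2
    simp [h1, h2]

/-- surjective version of `range`. -/
theorem range_of_surj (hF : KF F) {G H : Type} [Group G] [Group H] [Finite G] [Finite H]
    (f : G →* H) (hf : Function.Surjective f) (h : F H) : F f.range := by
  have : f.range = ⊤ := MonoidHom.range_eq_top.mpr hf
  rw [this]
  exact hF.iso _ _ Subgroup.topEquiv.symm h

end KF

end Pool.Agent.KegelFF
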