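import Pool.Agent.Lib.MP_a2b075_al.Frat

set_option autoImplicit false
open scoped Pointwise
open SemidirectProduct

namespace Pool.Agent.KegelFF

variable {F : ∀ (G : Type) [Group G], Prop}

theorem Arrow.dvd {p q : ℕ} [Fact p.Prime] [Fact q.Prime] (h : Arrow F p q) :
    ∃ (G : Type) (_ : Group G) (_ : Finite G), F G ∧ p ∣ Nat.card G ∧ q ∣ Nat.card G := by
  obtain ⟨V, Y, _, _, _, _, φ, hV, hY, ⟨y, v, hyv⟩, hF⟩ := h
  refine ⟨V ⋊[φ] Y, inferInstance, inferInstance, hF, ?_, ?_⟩
  · rw [SemidirectProduct.card]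
    have hv : v ≠ 1 := by
      rintro rfl
      exact hyv (map_one _)
    have : orderOf v = p := orderOf_eq_prime (hV v) hv
    rw [← this]
    exact (orderOf_dvd_natCard v).mul_right _
  · rw [SemidirectProduct.card, hY]
    exact dvd_mul_left _ _

theorem KF.arrow_p (hF : KF F) {p q : ℕ} [Fact p.Prime] [Fact q.Prime] (h : Arrow F p q) :
    ∀ (Q : Type) [Group Q] [Finite Q], IsPGroup p Q → F Q := by
  obtain ⟨G, _, _, hG, h1, -⟩ := h.dvd
  intro Q _ _ hQ
  exact hF.pgroup hG h1 hQ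

theorem KF.arrow_q (hF : KF F) {p q : ℕ} [Fact p.Prime] [Fact q.Prime] (h : Arrow F p q) :
    ∀ (Q : Type) [Group Q] [Finite Q], IsPGroup q Q → F Q := by
  obtain ⟨G, _, _, hG, -, h1⟩ := h.dvd
  intro Q _ _ hQ
  exact hF.pgroup hG h1 hQ

theorem isPGroup_of_exp {p : ℕ} {V : Type} [Group V] (hV : ∀ v : V, v ^ p = 1) : IsPGroup p V :=
  fun v => ⟨1, by rw [pow_one]; exact hV v⟩

/-- one non nilpotent extension gives all split extensions by `q`-groups. -/
theorem KF.arrow_all (hF : KF F) {p q : ℕ} [Fact p.Prime] [Fact q.Prime] (hpq : p ≠ q)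
    (h : Arrow F p q) : ∀ (V : Type) [CommGroup V] [Finite V], (∀ v : V, v ^ p = 1) →
      ∀ (Q : Type) [Group Q] [Finite Q], IsPGroup q Q → ∀ φ : Q →* MulAut V, F (V ⋊[φ] Q) := by
  have hp := hF.arrow_p h
  have hq := hF.arrow_q h
  obtain ⟨V1, Y1, _, _, _, _, φ1, hV1, hY1, hnt, hF1⟩ := h
  have hb := hF.base hpq hV1 hY1 φ1 hnt hF1 hp hq
  intro V _ _ hV Q _ _ hQ φ
  exact hF.qi' (q := q) p (fun V _ _ hV => hp V (isPGroup_of_exp hV)) hb V hV Q hQ φ

/-- one non nilpotent extension gives all `p`-closed `{p,q}`-groups. -/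
theorem KF.arrow_closed (hF : KF F) {p q : ℕ} [Fact p.Prime] [Fact q.Prime] (hpq : p ≠ q)
    (h : Arrow F p q) : ∀ (n : ℕ) (G : Type) [Group G] [Finite G], Nat.card G ≤ n → PQ p q G →
      QC p G → F G := by
  have hp := hF.arrow_p h
  have hq := hF.arrow_q h
  have hall := hF.arrow_all hpq h
  intro n
  induction n with
  | zero =>
    intro W _ _ hc
    have := Nat.card_pos (α := W)
    omega
  | succ n ih =>
    intro G _ _ hc hPQ hQC
    obtain ⟨N, hN, hNp, hNi⟩ := hQC
    by_cases hb : N = ⊥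
    · subst hb
      rw [Subgroup.index_bot] at hNi
      exact hq G (isPGroup_of_PQ hPQ.symm hNi)
    · obtain ⟨D, hD, hDb, -, hDc, hDe⟩ := exists_elem N hNp hb
      refine hF.ext p D hDc hDe ?_
      have h1 : 1 < Nat.card D := (Subgroup.one_lt_card_iff_ne_bot D).mpr hDb
      have h2 : Nat.card (G ⧸ D) * Nat.card D = Nat.card G :=
        (Subgroup.card_eq_card_quotient_mul_card_subgroup D).symm
      have h3 : 0 < Nat.card (G ⧸ D) := Nat.card_pos
      have h4 : Nat.card (G ⧸ D) < Nat.card G := by nlinarith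
      have h5 : QC p (G ⧸ D) := QC.img (QuotientGroup.mk' D) (QuotientGroup.mk'_surjective D)
        ⟨N, hN, hNp, hNi⟩
      exact hF.lemZ hpq hp hall (ih (G ⧸ D) (by omega) (hPQ.quo D) h5) (hPQ.quo D)

/-- elementary abelian normal subgroups of soluble groups. -/
theorem exists_elem_solv {G : Type} [Group G] [Finite G] [Nontrivial G]
    (hs : Group.IsSolvable G) :
    ∃ (r : ℕ) (D : Subgroup G), r.Prime ∧ r ∣ Nat.card G ∧ D.Normal ∧ D ≠ ⊥ ∧
      (∀ x ∈ D, ∀ y ∈ D, x * y = y * x) ∧ ∀ x ∈ D, x ^ r = 1 := by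
  classical
  obtain ⟨m, hm⟩ := hs.solvable
  have hex : ∃ n, derivedSeries G n = ⊥ := ⟨m, hm⟩
  have hf := Nat.find_spec hex
  have hn0 : Nat.find hex ≠ 0 := by
    intro h
    rw [h, derivedSeries_zero] at hf
    exact top_ne_bot hf
  obtain ⟨k, hk⟩ := Nat.exists_eq_succ_of_ne_zero hn0
  have hkb : derivedSeries G k ≠ ⊥ := Nat.find_min hex (by omega)
  set D0 := derivedSeries G k with hD0
  have hcomm : ∀ x ∈ D0, ∀ y ∈ D0, x * y = y * x := by
    intro x hx y hy
    rw [hk, derivedSeries_succ, Subgroup.commutator_eq_bot_iff_le_centralizer] at hf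
    exact (Subgroup.mem_centralizer_iff.mp (hf hx) y hy).symm
  have hcn : D0.Normal := by rw [hD0]; infer_instance
  have hc1 : Nat.card D0 ≠ 1 := by
    have := (Subgroup.one_lt_card_iff_ne_bot D0).mpr hkb
    omega
  obtain ⟨r, hr, hrd⟩ := Nat.exists_prime_and_dvd hc1
  have : Fact r.Prime := ⟨hr⟩
  let D : Subgroup G :=
    { carrier := {x | x ∈ D0 ∧ x ^ r = 1}
      one_mem' := ⟨D0.one_mem, one_pow _⟩
      mul_mem' := by
        rintro a b ⟨ha, hap⟩ ⟨hb, hbp⟩
        refine ⟨D0.mul_mem ha hb, ?_⟩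
        have : Commute a b := hcomm a ha b hb
        rw [this.mul_pow, hap, hbp, one_mul]
      inv_mem' := by
        rintro a ⟨ha, hap⟩
        exact ⟨D0.inv_mem ha, by rw [inv_pow, hap, inv_one]⟩ }
  refine ⟨r, D, hr, hrd.trans (Subgroup.card_subgroup_dvd_card D0), ⟨?_⟩, ?_,
    fun x hx y hy => hcomm x hx.1 y hy.1, fun x hx => hx.2⟩
  · rintro x ⟨hx, hxp⟩ g
    exact ⟨hcn.conj_mem x hx g, by rw [conj_pow, hxp]; simp⟩
  · obtain ⟨z, hz⟩ := exists_prime_orderOf_dvd_card' r hrd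
    intro hD
    have hmem : (z : G) ∈ D := ⟨z.2, by
      have := pow_orderOf_eq_one z
      rw [hz] at this
      simpa using congrArg Subtype.val this⟩
    rw [hD, Subgroup.mem_bot] at hmem
    have : z = 1 := Subtype.ext hmem
    rw [this, orderOf_one] at hz
    exact hr.one_lt.ne hz

/-- both arrows: all soluble `{p,q}`-groups. -/
theorem KF.both (hF : KF F) {p q : ℕ} [Fact p.Prime] [Fact q.Prime] (hpq : p ≠ q)
    (h : Arrow F p q) (h' : Arrow F q p) : ∀ (n : ℕ) (G : Type) [Group G] [Finite G],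
      Nat.card G ≤ n → PQ p q G → Group.IsSolvable G → F G := by
  have hp := hF.arrow_p h
  have hq := hF.arrow_q h
  have hall := hF.arrow_all hpq h
  have hall' := hF.arrow_all hpq.symm h'
  have hU : F Unit := by
    obtain ⟨G, _, _, hG, -, -⟩ := h.dvd
    exact hF.unit hG
  intro n
  induction n with
  | zero =>
    intro W _ _ hc
    have := Nat.card_pos (α := W)
    omega
  | succ n ih =>
    intro G _ _ hc hPQ hs
    by_cases hnt : Nontrivial G
    swap
    · rw [not_nontrivial_iff_subsingleton] at hnt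
      exact hF.triv hU
    obtain ⟨r, D, hr, hrd, hD, hDb, hDc, hDe⟩ := exists_elem_solv hs
    have h1 : 1 < Nat.card D := (Subgroup.one_lt_card_iff_ne_bot D).mpr hDb
    have h2 : Nat.card (G ⧸ D) * Nat.card D = Nat.card G :=
      (Subgroup.card_eq_card_quotient_mul_card_subgroup D).symm
    have h3 : 0 < Nat.card (G ⧸ D) := Nat.card_pos
    have h4 : Nat.card (G ⧸ D) < Nat.card G := by nlinarith
    have h5 : Group.IsSolvable (G ⧸ D) := inferInstance
    have h6 : F (G ⧸ D) := ih (G ⧸ D) (by omega) (hPQ.quo D) h5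
    rcases hPQ r hr hrd with h7 | h7
    · subst h7
      exact hF.ext r D hDc hDe (hF.lemZ hpq hp hall h6 (hPQ.quo D))
    · subst h7
      exact hF.ext r D hDc hDe (hF.lemZ hpq.symm hq hall' h6 (hPQ.quo D).symm)

theorem KF.of_nilp (hF : KF F) {p q : ℕ} [Fact p.Prime] [Fact q.Prime] (hpq : p ≠ q)
    (hp : ∀ (Q : Type) [Group Q] [Finite Q], IsPGroup p Q → F Q)
    (hq : ∀ (Q : Type) [Group Q] [Finite Q], IsPGroup q Q → F Q)
    {G : Type} [Group G] [Finite G] (hPQ : PQ p q G) (h : Group.IsNilpotent G) : F G := by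
  have hpp : p.Prime := Fact.out
  have hqp : q.Prime := Fact.out
  let P : Sylow p G := default
  let Q : Sylow q G := default
  have hcomp : (P : Subgroup G).IsComplement' (Q : Subgroup G) := by
    refine Subgroup.isComplement'_of_coprime ?_ ?_
    · rw [P.card_eq_multiplicity, Q.card_eq_multiplicity]
      exact (card_eq_of_PQ hpp hqp hpq Nat.card_pos.ne' hPQ).symm
    · rw [P.card_eq_multiplicity, Q.card_eq_multiplicity]
      exact Nat.Coprime.pow _ _ ((Nat.coprime_primes hpp hqp).mpr hpq)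
  exact hF.prd G P Q inferInstance inferInstance hcomp.sup_eq_top (hp _ P.isPGroup')
    (hq _ Q.isPGroup')

theorem PQ.card_one {p q : ℕ} {G : Type} [Group G] [Finite G]
    (h : PQ p q G) (h1 : ¬ p ∣ Nat.card G) (h2 : ¬ q ∣ Nat.card G) : Nat.card G = 1 := by
  by_contra h0
  obtain ⟨r, hr, hrd⟩ := Nat.exists_prime_and_dvd h0
  rcases h r hr hrd with h3 | h3
  · exact h1 (h3 ▸ hrd)
  · exact h2 (h3 ▸ hrd)

theorem not_dvd_of_isPGroup {p q : ℕ} (hp : p.Prime) (hq : q.Prime) (hpq : p ≠ q) {G : Type}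
    [Group G] [Finite G] (h : IsPGroup p G) : ¬ q ∣ Nat.card G := by
  have : Fact p.Prime := ⟨hp⟩
  obtain ⟨n, hn⟩ := IsPGroup.iff_card.mp h
  rw [hn]
  intro hd
  exact hpq ((Nat.prime_dvd_prime_iff_eq hq hp).mp (hq.dvd_of_dvd_pow hd)).symm

/-- The eight possible classes of `{p,q}`-groups in `F`. -/
inductive Kind (F : ∀ (G : Type) [Group G], Prop) (p q : ℕ) : Prop
  | soluble (h : ∀ (G : Type) [Group G] [Finite G], PQ p q G → (F G ↔ Group.IsSolvable G))
  | pclosed (h : ∀ (G : Type) [Group G] [Finite G], PQ p q G → (F G ↔ QC p G))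
  | qclosed (h : ∀ (G : Type) [Group G] [Finite G], PQ p q G → (F G ↔ QC q G))
  | nilpotent (h : ∀ (G : Type) [Group G] [Finite G], PQ p q G → (F G ↔ Group.IsNilpotent G))
  | pgroups (h : ∀ (G : Type) [Group G] [Finite G], PQ p q G → (F G ↔ IsPGroup p G))
  | qgroups (h : ∀ (G : Type) [Group G] [Finite G], PQ p q G → (F G ↔ IsPGroup q G))
  | trivial (h : ∀ (G : Type) [Group G] [Finite G], PQ p q G → (F G ↔ Nat.card G = 1))
  | empty (h : ∀ (G : Type) [Group G] [Finite G], PQ p q G → ¬ F G)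

theorem KF.kind (hF : KF F) {p q : ℕ} [Fact p.Prime] [Fact q.Prime] (hpq : p ≠ q) :
    Kind F p q := by
  have hpp : p.Prime := Fact.out
  have hqp : q.Prime := Fact.out
  by_cases hA : ∃ (G : Type) (_ : Group G) (_ : Finite G), F G ∧ PQ p q G ∧ ¬ QC q G
  · obtain ⟨G, _, _, hG, hGPQ, hGn⟩ := hA
    have ar := hF.stepB hpq _ G le_rfl hG hGPQ hGn
    by_cases hB : ∃ (G : Type) (_ : Group G) (_ : Finite G), F G ∧ PQ p q G ∧ ¬ QC p G
    · obtain ⟨H, _, _, hH, hHPQ, hHn⟩ := hB
      have ar' := hF.stepB hpq.symm _ H le_rfl hH hHPQ.symm hHn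
      exact Kind.soluble fun K _ _ hK => ⟨fun h => hF.sol K h,
        fun h => hF.both hpq ar ar' _ K le_rfl hK h⟩
    · refine Kind.pclosed fun K _ _ hK => ⟨fun h => ?_,
        fun h => hF.arrow_closed hpq ar _ K le_rfl hK h⟩
      by_contra hc
      exact hB ⟨K, inferInstance, inferInstance, h, hK, hc⟩
  · by_cases hB : ∃ (G : Type) (_ : Group G) (_ : Finite G), F G ∧ PQ p q G ∧ ¬ QC p G
    · obtain ⟨H, _, _, hH, hHPQ, hHn⟩ := hB
      have ar' := hF.stepB hpq.symm _ H le_rfl hH hHPQ.symm hHn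
      refine Kind.qclosed fun K _ _ hK => ⟨fun h => ?_,
        fun h => hF.arrow_closed hpq.symm ar' _ K le_rfl hK.symm h⟩
      by_contra hc
      exact hA ⟨K, inferInstance, inferInstance, h, hK, hc⟩
    · have hnil : ∀ (K : Type) [Group K] [Finite K], PQ p q K → F K → Group.IsNilpotent K := by
        intro K _ _ hK h
        refine nilp_of_QC hK ?_ ?_
        · by_contra hc
          exact hB ⟨K, inferInstance, inferInstance, h, hK, hc⟩
        · by_contra hc
          exact hA ⟨K, inferInstance, inferInstance, h, hK, hc⟩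
      by_cases hP : ∃ (G : Type) (_ : Group G) (_ : Finite G), F G ∧ PQ p q G ∧ p ∣ Nat.card G
      · obtain ⟨G, _, _, hG, -, hGd⟩ := hP
        by_cases hQ : ∃ (G : Type) (_ : Group G) (_ : Finite G), F G ∧ PQ p q G ∧
            q ∣ Nat.card G
        · obtain ⟨H, _, _, hH, -, hHd⟩ := hQ
          exact Kind.nilpotent fun K _ _ hK => ⟨fun h => hnil K hK h,
            fun h => hF.of_nilp hpq (fun Q _ _ hQ => hF.pgroup hG hGd hQ)
              (fun Q _ _ hQ => hF.pgroup hH hHd hQ) hK h⟩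
        · refine Kind.pgroups fun K _ _ hK => ⟨fun h => ?_, fun h => hF.pgroup hG hGd h⟩
          exact isPGroup_of_PQ hK (fun hd => hQ ⟨K, inferInstance, inferInstance, h, hK, hd⟩)
      · by_cases hQ : ∃ (G : Type) (_ : Group G) (_ : Finite G), F G ∧ PQ p q G ∧
            q ∣ Nat.card G
        · obtain ⟨H, _, _, hH, -, hHd⟩ := hQ
          refine Kind.qgroups fun K _ _ hK => ⟨fun h => ?_, fun h => hF.pgroup hH hHd h⟩
          exact isPGroup_of_PQ hK.symm (fun hd => hP ⟨K, inferInstance, inferInstance, h, hK, hd⟩)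
        · by_cases hU : F Unit
          · refine Kind.trivial fun K _ _ hK => ⟨fun h => ?_, fun h => hF.triv' hU h⟩
            exact hK.card_one (fun hd => hP ⟨K, inferInstance, inferInstance, h, hK, hd⟩)
              (fun hd => hQ ⟨K, inferInstance, inferInstance, h, hK, hd⟩)
          · exact Kind.empty fun K _ _ hK h => hU (hF.unit h)

/-- saturation for `{p,q}`-groups. -/
theorem KF.sat (hF : KF F) {p q : ℕ} [Fact p.Prime] [Fact q.Prime] (hpq : p ≠ q)
    {G : Type} [Group G] [Finite G] (hPQ : PQ p q G) (N : Subgroup G) [N.Normal]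
    (hN : N ≤ frattini G) (h : F (G ⧸ N)) : F G := by
  have hpp : p.Prime := Fact.out
  have hqp : q.Prime := Fact.out
  have hquo := hPQ.quo N
  rcases hF.kind hpq with hk | hk | hk | hk | hk | hk | hk | hk
  · exact (hk G hPQ).mpr (solv_of_frattini hN ((hk _ hquo).mp h))
  · exact (hk G hPQ).mpr (QC.of_frattini hN ((hk _ hquo).mp h))
  · exact (hk G hPQ).mpr (QC.of_frattini hN ((hk _ hquo).mp h))
  · have h1 := (hk _ hquo).mp h
    exact (hk G hPQ).mpr (nilp_of_QC hPQ (QC.of_frattini hN (QC_of_nilp p h1))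
      (QC.of_frattini hN (QC_of_nilp q h1)))
  · refine (hk G hPQ).mpr (isPGroup_of_PQ hPQ fun hd => ?_)
    exact not_dvd_of_isPGroup hpp hqp hpq ((hk _ hquo).mp h)
      (dvd_index_of_le_frattini hN hqp hd)
  · refine (hk G hPQ).mpr (isPGroup_of_PQ hPQ.symm fun hd => ?_)
    exact not_dvd_of_isPGroup hqp hpp hpq.symm ((hk _ hquo).mp h)
      (dvd_index_of_le_frattini hN hpp hd)
  · have h1 : N.index = 1 := (hk _ hquo).mp h
    refine (hk G hPQ).mpr (hPQ.card_one (fun hd => ?_) (fun hd => ?_))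
    · have := dvd_index_of_le_frattini hN hpp hd
      rw [h1] at this
      exact hpp.one_lt.ne' (Nat.dvd_one.mp this)
    · have := dvd_index_of_le_frattini hN hqp hd
      rw [h1] at this
      exact hqp.one_lt.ne' (Nat.dvd_one.mp this)
  · exact absurd h (hk _ hquo)

end Pool.Agent.KegelFF
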