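import Pool.Agent.Lib.MP_a2b075_al.Heis4

set_option autoImplicit false
open scoped Pointwise
open SemidirectProduct

namespace Pool.Agent.KegelFF

variable {F : ∀ (G : Type) [Group G], Prop}

/-- a faithful module of a group with a normal subgroup of index `q` -/
def Data (F : ∀ (G : Type) [Group G], Prop) (p q : ℕ) : Prop :=
  ∃ (V X : Type) (_ : CommGroup V) (_ : Finite V) (_ : Group X) (_ : Finite X)
    (φ : X →* MulAut V) (M : Subgroup X), Nontrivial V ∧ (∀ v : V, v ^ p = 1) ∧
      Function.Injective φ ∧ M.Normal ∧ M.index = q ∧ F (V ⋊[φ] X)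

/-- a minimal group in `F` outside `E q p` -/
theorem KF.data (hF : KF F) {p q : ℕ} [Fact p.Prime] [Fact q.Prime] (hpq : p ≠ q) :
    ∀ (n : ℕ) (G : Type) [Group G] [Finite G], Nat.card G ≤ n → F G → ¬ E q p G →
      Data F p q := by
  have hqp : q.Prime := Fact.out
  have hpp : p.Prime := Fact.out
  intro n
  induction n with
  | zero =>
    intro W _ _ hc
    have := Nat.card_pos (α := W)
    omega
  | succ n ih =>
    intro G _ _ hc hG hn
    by_contra hcon
    have hsub : ∀ M : Subgroup G, M.Normal → M ≠ ⊤ → E q p M := by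
      intro M hM hMt
      by_contra h
      have := card_lt_of_ne_top hMt
      exact hcon (ih M (by omega) (hF.nrm G M hM hG) h)
    have hquo : ∀ M : Subgroup G, ∀ _ : M.Normal, M ≠ ⊥ → E q p (G ⧸ M) := by
      intro M hM hMb
      by_contra h
      have h1 : 1 < Nat.card M := (Subgroup.one_lt_card_iff_ne_bot M).mpr hMb
      have h2 : Nat.card (G ⧸ M) * Nat.card M = Nat.card G :=
        (Subgroup.card_eq_card_quotient_mul_card_subgroup M).symm
      have h3 : 0 < Nat.card (G ⧸ M) := Nat.card_pos
      have h4 : Nat.card (G ⧸ M) < Nat.card G := by nlinarith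
      exact hcon (ih (G ⧸ M) (by omega) (hF.quo G M hG) h)
    have hnop : ∀ D : Subgroup G, ∀ _ : D.Normal, ¬ p ∣ Nat.card D → D = ⊥ := by
      intro D hD hDp
      by_contra hne
      exact hn ((hquo D hD hne).of_quo hpp D hDp)
    have hidx : ∀ M : Subgroup G, ∀ _ : M.Normal, ¬ q ∣ M.index → M = ⊤ := by
      intro M hM hMq
      by_contra hne
      exact hn (E.of_normal hpp hqp M (hsub M hM hne) hMq)
    have hnt : Nontrivial G := by
      by_contra h
      rw [not_nontrivial_iff_subsingleton] at h
      have h1 : Nat.card G = 1 := Nat.card_eq_one_iff_unique.mpr ⟨h, ⟨1⟩⟩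
      refine hn ⟨⊤, inferInstance, ?_, ?_⟩
      · rw [Subgroup.card_top, h1]
        exact fun h => hpp.one_lt.ne' (Nat.dvd_one.mp h)
      · rw [Subgroup.index_top]
        exact fun h => hqp.one_lt.ne' (Nat.dvd_one.mp h)
    have hs : Group.IsSolvable G := hF.sol G hG
    obtain ⟨M, hM, hMi⟩ := exists_normal_prime_index G
    have hMt : M ≠ ⊤ := by
      rintro rfl
      rw [Subgroup.index_top] at hMi
      exact hMi.one_lt.ne rfl
    have hr : M.index = q := by
      by_contra hne
      refine hMt (hidx M hM ?_)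
      intro hd
      exact hne ((Nat.prime_dvd_prime_iff_eq hqp hMi).mp hd).symm
    obtain ⟨r, D, hrp, hrd, hD, hDb, hDc, hDe⟩ := exists_elem_solv hs
    have hrf : Fact r.Prime := ⟨hrp⟩
    have hDr : IsPGroup r D := fun x => ⟨1, Subtype.ext (by simpa using hDe x x.2)⟩
    have hrp' : r = p := by
      by_contra hne
      exact hDb (hnop D hD (not_dvd_of_isPGroup hrp hpp hne hDr))
    subst hrp'
    obtain ⟨T, hT, hT1, hT2⟩ := hquo D hD hDb
    have hKt : T.comap (QuotientGroup.mk' D) = ⊤ := by
      refine hidx _ (hT.comap _) ?_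
      rw [Subgroup.index_comap_of_surjective _ (QuotientGroup.mk'_surjective D)]
      exact hT2
    have hTt : T = ⊤ := by
      have := Subgroup.map_comap_eq_self_of_surjective (QuotientGroup.mk'_surjective D) T
      rw [← this, hKt]
      exact Subgroup.map_top_of_surjective _ (QuotientGroup.mk'_surjective D)
    subst hTt
    have hDi : ¬ r ∣ D.index := by
      rw [Subgroup.card_top] at hT1
      exact hT1
    obtain ⟨m, hm⟩ := IsPGroup.iff_card.mp hDr
    have hcop : Nat.Coprime (Nat.card D) D.index := by
      rw [hm]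
      exact Nat.Coprime.pow_left _ ((Nat.Prime.coprime_iff_not_dvd hpp).mpr hDi)
    obtain ⟨C, hC⟩ := Subgroup.exists_right_complement'_of_coprime hcop
    have hCcard : Nat.card C = D.index := hC.symm.index_eq_card.symm
    -- `C` acts faithfully on `D`
    have hCD : C ⊓ Subgroup.centralizer (D : Set G) = ⊥ := by
      refine hnop _ ⟨?_⟩ ?_
      · rintro x ⟨hxC, hxD⟩ g
        have hg : g ∈ D ⊔ C := by rw [hC.sup_eq_top]; trivial
        obtain ⟨d, hd, c, hc, rfl⟩ := Subgroup.mem_sup_of_normal_left.mp hg
        have h1 : c * x * c⁻¹ ∈ C ⊓ Subgroup.centralizer (D : Set G) := by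
          refine ⟨C.mul_mem (C.mul_mem hc hxC) (C.inv_mem hc), ?_⟩
          exact (inferInstance : (Subgroup.centralizer (D : Set G)).Normal).conj_mem x hxD c
        have h2 : d * (c * x * c⁻¹) = (c * x * c⁻¹) * d :=
          Subgroup.mem_centralizer_iff.mp h1.2 d hd
        have h3 : d * c * x * (d * c)⁻¹ = c * x * c⁻¹ := by
          calc d * c * x * (d * c)⁻¹ = (d * (c * x * c⁻¹)) * d⁻¹ := by group
            _ = (c * x * c⁻¹) * d * d⁻¹ := by rw [h2]
            _ = c * x * c⁻¹ := by group
        rw [h3]
        exact h1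
      · intro hd
        refine hDi (hd.trans ?_)
        rw [← hCcard]
        exact Subgroup.card_dvd_of_le inf_le_left
    have e1 := SemidirectProduct.mulEquivSubgroup hC
    obtain ⟨V, _, ⟨e2⟩⟩ := exists_comm D (fun a b => Subtype.ext (hDc a a.2 b b.2))
    have hVf : Finite V := Finite.of_equiv _ e2.toEquiv
    have hVe : ∀ v : V, v ^ r = 1 := by
      intro v
      obtain ⟨m, rfl⟩ := e2.surjective v
      rw [← map_pow]
      have : m ^ r = 1 := Subtype.ext (by simpa using hDe m m.2)
      rw [this, map_one]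
    have e3 := SemidirectProduct.congr' (φ₁ := (D.normalizerMonoidHom).comp
      (Subgroup.inclusion (D.normalizer_eq_top ▸ le_top))) e2 (MulEquiv.refl C)
    have e4 := e1.symm.trans e3
    have hDnt : Nontrivial V := by
      have h1 : Nontrivial D := (Subgroup.nontrivial_iff_ne_bot D).mpr hDb
      exact e2.symm.toEquiv.nontrivial
    refine hcon ⟨V, C, inferInstance, hVf, inferInstance, inferInstance,
      _, M.subgroupOf C, hDnt, hVe, ?_, inferInstance, ?_, hF.iso _ _ e4 hG⟩
    · rw [injective_iff_map_eq_one]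
      intro c hc
      have h1 : (c : G) ∈ C ⊓ Subgroup.centralizer (D : Set G) := by
        refine ⟨c.2, ?_⟩
        change (c : G) ∈ Subgroup.centralizer (D : Set G)
        rw [Subgroup.mem_centralizer_iff]
        intro d hd
        have h2 := DFunLike.congr_fun hc (e2 ⟨d, hd⟩)
        have h3 : e2 (⟨(c : G) * d * (c : G)⁻¹, hD.conj_mem d hd c⟩ : D) = e2 ⟨d, hd⟩ := by
          have h5 : (1 : MulAut V) (e2 ⟨d, hd⟩) = e2 ⟨d, hd⟩ := rfl
          rw [h5] at h2
          rw [← h2]
          change _ = e2 ((D.normalizerMonoidHom _ : MulAut D) (e2.symm (e2 ⟨d, hd⟩)))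
          rw [MulEquiv.symm_apply_apply]
          rfl
        have h4 : (c : G) * d * (c : G)⁻¹ = d := congrArg Subtype.val (e2.injective h3)
        calc d * (c : G) = (c : G) * d * (c : G)⁻¹ * c := by rw [h4]
          _ = (c : G) * d := by group
      rw [hCD, Subgroup.mem_bot] at h1
      exact Subtype.ext h1
    · have hDM : D ≤ M := by
        refine le_of_not_dvd_index hDr ?_
        rw [hr]
        intro hd
        exact hpq ((Nat.prime_dvd_prime_iff_eq hpp hqp).mp hd)
      have h1 : M.relIndex C * (C ⊔ M).index = M.relIndex C := by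
        have : C ⊔ M = ⊤ := by
          rw [eq_top_iff, ← hC.sup_eq_top, sup_comm]
          exact sup_le_sup_left hDM C
        rw [this, Subgroup.index_top, mul_one]
      have h2 : M.relIndex (C ⊔ M) = M.relIndex C := Subgroup.relIndex_sup_right C M
      have h3 : C ⊔ M = ⊤ := by
        rw [eq_top_iff, ← hC.sup_eq_top, sup_comm]
        exact sup_le_sup_left hDM C
      rw [h3, Subgroup.relIndex_top_right, hr] at h2
      exact h2.symm

end Pool.Agent.KegelFF
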