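import Pool.Agent.Lib.MP_a2b075_al.Conv

set_option autoImplicit false
open scoped Pointwise
open SemidirectProduct

namespace Pool.Agent.KegelFF

variable {F : ∀ (G : Type) [Group G], Prop}

/-- saturation of the class -/
def Sat (F : ∀ (G : Type) [Group G], Prop) : Prop :=
  ∀ (G : Type) [Group G] [Finite G] (N : Subgroup G) [N.Normal],
    N ≤ frattini G → F (G ⧸ N) → F G

theorem KF.arrow_of_not_E (hF : KF F) (hsat : Sat F) {p q : ℕ} [Fact p.Prime] [Fact q.Prime]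
    (hpq : p ≠ q) {G : Type} [Group G] [Finite G] (hG : F G) (hn : ¬ E q p G) : Arrow F p q := by
  obtain ⟨V, X, _, _, _, _, φ, M, hV, hVe, hφ, hM, hMi, hVX⟩ := hF.data hpq _ G le_rfl hG hn
  exact arrow_of_top hF (inW_top hF hsat hVe φ hφ hVX) M hMi

/-- the split extensions of an arrow are not closed -/
theorem arrow_not_QC {p q : ℕ} [Fact p.Prime] [Fact q.Prime] (hpq : p ≠ q) {V Y : Type}
    [CommGroup V] [Finite V] [Group Y] [Finite Y] (φ : Y →* MulAut V) (hV : ∀ v : V, v ^ p = 1)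
    (hY : Nat.card Y = q) (hnt : ∃ y v, φ y v ≠ v) : ¬ QC q (V ⋊[φ] Y) := by
  have hqp : q.Prime := Fact.out
  have hpp : p.Prime := Fact.out
  rintro ⟨N, hN, hNq, hNi⟩
  obtain ⟨y, v, hyv⟩ := hnt
  have hy : (inr y : V ⋊[φ] Y) ∈ N := by
    refine (mem_iff_pow hNq hNi _).mpr ⟨1, ?_⟩
    rw [pow_one, ← map_pow, ← hY, pow_card_eq_one', map_one]
  -- the commutator lies in both
  have h1 : (inl v : V ⋊[φ] Y) * inr y * (inl v)⁻¹ * (inr y)⁻¹ ∈ N :=
    N.mul_mem (hN.conj_mem _ hy _) (N.inv_mem hy)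
  have h2 : (inl v : V ⋊[φ] Y) * inr y * (inl v)⁻¹ * (inr y)⁻¹ = inl (v * (φ y v)⁻¹) := by
    refine SemidirectProduct.ext ?_ ?_
    · simp
    · simp
  rw [h2] at h1
  obtain ⟨k, hk⟩ := (mem_iff_pow hNq hNi _).mp h1
  have h3 : (v * (φ y v)⁻¹) ^ (q ^ k) = 1 := by
    rw [← map_pow] at hk
    exact inl_injective (by rw [hk, map_one])
  have h4 : orderOf (v * (φ y v)⁻¹) = 1 :=
    Nat.eq_one_of_dvd_coprimes
      (Nat.Coprime.pow_left k ((Nat.coprime_primes hqp hpp).mpr hpq.symm))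
      (orderOf_dvd_of_pow_eq_one h3) (orderOf_dvd_of_pow_eq_one (hV _))
  rw [orderOf_eq_one_iff] at h4
  exact hyv (mul_inv_eq_one.mp h4).symm

theorem Arrow.exists_not_QC {p q : ℕ} [Fact p.Prime] [Fact q.Prime] (hpq : p ≠ q)
    (h : Arrow F p q) : ∃ (K : Type) (_ : Group K) (_ : Finite K), F K ∧ PQ p q K ∧ ¬ QC q K := by
  have hqp : q.Prime := Fact.out
  have hpp : p.Prime := Fact.out
  obtain ⟨V, Y, _, _, _, _, φ, hV, hY, hnt, hFf⟩ := h
  refine ⟨V ⋊[φ] Y, inferInstance, inferInstance, hFf, ?_, arrow_not_QC hpq φ hV hY hnt⟩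
  intro r hr hd
  rw [SemidirectProduct.card] at hd
  rcases hr.dvd_mul.mp hd with h1 | h1
  · obtain ⟨n, hn⟩ := IsPGroup.iff_card.mp (isPGroup_of_exp hV)
    rw [hn] at h1
    exact Or.inl ((Nat.prime_dvd_prime_iff_eq hr hpp).mp (hr.dvd_of_dvd_pow h1))
  · rw [hY] at h1
    exact Or.inr ((Nat.prime_dvd_prime_iff_eq hr hqp).mp h1)

/-- in a saturated class the Hall `{p,q}`-subgroups of members are members. -/
theorem KF.hall_closed (hF : KF F) (hsat : Sat F) {p q : ℕ} [Fact p.Prime] [Fact q.Prime]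
    (hpq : p ≠ q) {G : Type} [Group G] [Finite G] (hG : F G) (H : Subgroup G)
    (hPQ : PQ p q H) : F H := by
  have hpp : p.Prime := Fact.out
  have hqp : q.Prime := Fact.out
  have hs : Group.IsSolvable G := hF.sol G hG
  have hsH : Group.IsSolvable H := inferInstance
  have hEqp : (∀ (K : Type) [Group K] [Finite K], PQ p q K → F K → QC q K) → E q p G := by
    intro h
    by_contra hn
    obtain ⟨K, _, _, hK, hKPQ, hKn⟩ := (hF.arrow_of_not_E hsat hpq hG hn).exists_not_QC hpq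
    exact hKn (h K hKPQ hK)
  have hEpq : (∀ (K : Type) [Group K] [Finite K], PQ p q K → F K → QC p K) → E p q G := by
    intro h
    by_contra hn
    obtain ⟨K, _, _, hK, hKPQ, hKn⟩ :=
      (hF.arrow_of_not_E hsat hpq.symm hG hn).exists_not_QC hpq.symm
    exact hKn (h K hKPQ.symm hK)
  have hcyc : ∀ r : ℕ, r.Prime → (r = p ∨ r = q) → r ∣ Nat.card G →
      ∃ (K : Type) (_ : Group K) (_ : Finite K), F K ∧ PQ p q K ∧ Nat.card K = r := by
    intro r hr hrpq hrd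
    have : Fact r.Prime := ⟨hr⟩
    have hc : Nat.card (Multiplicative (ZMod r)) = r := Nat.card_zmod r
    refine ⟨Multiplicative (ZMod r), inferInstance, inferInstance,
      hF.pgroup hG hrd (IsPGroup.of_card (n := 1) (by rw [pow_one]; exact hc)), ?_, hc⟩
    intro s hs' hsd
    rw [hc] at hsd
    rw [(Nat.prime_dvd_prime_iff_eq hs' hr).mp hsd]
    exact hrpq
  rcases hF.kind hpq with hk | hk | hk | hk | hk | hk | hk | hk
  · exact (hk H hPQ).mpr hsH
  · exact (hk H hPQ).mpr (QC_of_E (hEpq fun K _ _ h1 h2 => (hk K h1).mp h2) H hPQ)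
  · exact (hk H hPQ).mpr (QC_of_E (hEqp fun K _ _ h1 h2 => (hk K h1).mp h2) H hPQ.symm)
  · refine (hk H hPQ).mpr (nilp_of_QC hPQ ?_ ?_)
    · exact QC_of_E (hEpq fun K _ _ h1 h2 => QC_of_nilp p ((hk K h1).mp h2)) H hPQ
    · exact QC_of_E (hEqp fun K _ _ h1 h2 => QC_of_nilp q ((hk K h1).mp h2)) H hPQ.symm
  · refine (hk H hPQ).mpr (isPGroup_of_PQ hPQ fun hd => ?_)
    obtain ⟨K, _, _, hK, hKPQ, hKc⟩ := hcyc q hqp (Or.inr rfl)
      (hd.trans (Subgroup.card_subgroup_dvd_card H))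
    exact not_dvd_of_isPGroup hpp hqp hpq ((hk K hKPQ).mp hK) (by rw [hKc])
  · refine (hk H hPQ).mpr (isPGroup_of_PQ hPQ.symm fun hd => ?_)
    obtain ⟨K, _, _, hK, hKPQ, hKc⟩ := hcyc p hpp (Or.inl rfl)
      (hd.trans (Subgroup.card_subgroup_dvd_card H))
    exact not_dvd_of_isPGroup hqp hpp hpq.symm ((hk K hKPQ).mp hK) (by rw [hKc])
  · refine (hk H hPQ).mpr (hPQ.card_one (fun hd => ?_) (fun hd => ?_))
    · obtain ⟨K, _, _, hK, hKPQ, hKc⟩ := hcyc p hpp (Or.inl rfl)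
        (hd.trans (Subgroup.card_subgroup_dvd_card H))
      have h1 : Nat.card K = 1 := (hk K hKPQ).mp hK
      rw [h1] at hKc
      exact hpp.one_lt.ne hKc
    · obtain ⟨K, _, _, hK, hKPQ, hKc⟩ := hcyc q hqp (Or.inr rfl)
        (hd.trans (Subgroup.card_subgroup_dvd_card H))
      have h1 : Nat.card K = 1 := (hk K hKPQ).mp hK
      rw [h1] at hKc
      exact hqp.one_lt.ne hKc
  · refine absurd (hF.unit hG) (hk Unit ?_)
    intro r hr hd
    have h1 : Nat.card Unit = 1 := by simp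
    rw [h1] at hd
    exact absurd (Nat.dvd_one.mp hd) hr.one_lt.ne'

end Pool.Agent.KegelFF
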