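import Pool.Agent.Lib.MP_a2b075_al.Conv2

set_option autoImplicit false
open scoped Pointwise

namespace Pool.Agent.KegelFF

variable {F : ∀ (G : Type) [Group G], Prop}

/-- every finite group has three prime divisors or is a `{p,q}`-group. -/
theorem three_or_PQ (G : Type) [Group G] [Finite G] :
    (∃ a b c : ℕ, a.Prime ∧ b.Prime ∧ c.Prime ∧ a ≠ b ∧ a ≠ c ∧ b ≠ c ∧
      a ∣ Nat.card G ∧ b ∣ Nat.card G ∧ c ∣ Nat.card G) ∨
    ∃ p q : ℕ, p.Prime ∧ q.Prime ∧ p ≠ q ∧ PQ p q G := by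
  by_cases h3 : ∃ a b c : ℕ, a.Prime ∧ b.Prime ∧ c.Prime ∧ a ≠ b ∧ a ≠ c ∧ b ≠ c ∧
      a ∣ Nat.card G ∧ b ∣ Nat.card G ∧ c ∣ Nat.card G
  · exact Or.inl h3
  right
  by_cases h1 : ∃ a : ℕ, a.Prime ∧ a ∣ Nat.card G
  · obtain ⟨a, ha, had⟩ := h1
    by_cases h2 : ∃ b : ℕ, b.Prime ∧ b ∣ Nat.card G ∧ a ≠ b
    · obtain ⟨b, hb, hbd, hab⟩ := h2
      refine ⟨a, b, ha, hb, hab, ?_⟩
      intro r hr hrd
      by_contra hne
      push Not at hne
      exact h3 ⟨a, b, r, ha, hb, hr, hab, hne.1.symm, hne.2.symm, had, hbd, hrd⟩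
    · push Not at h2
      obtain ⟨b, hb1, hb⟩ := Nat.exists_infinite_primes (a + 1)
      refine ⟨a, b, ha, hb, by omega, ?_⟩
      intro r hr hrd
      exact Or.inl (h2 r hr hrd).symm
  · push Not at h1
    refine ⟨2, 3, Nat.prime_two, Nat.prime_three, by norm_num, ?_⟩
    intro r hr hrd
    exact absurd hrd (h1 r hr)

/-- A saturated class is closed under subgroups. -/
theorem KF.subgroup_closed (hF : KF F) (hsat : Sat F) {G : Type} [Group G] [Finite G] (hG : F G)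
    (H : Subgroup G) : F H := by
  have hs : Group.IsSolvable G := hF.sol G hG
  have hsH : Group.IsSolvable H := inferInstance
  rcases three_or_PQ H with h3 | ⟨p, q, hp, hq, hpq, hPQ⟩
  · refine hF.of_hall _ H le_rfl hsH h3 ?_
    intro p q hp hq hpq _ _ K hK _ _
    have : Fact p.Prime := ⟨hp⟩
    have : Fact q.Prime := ⟨hq⟩
    have e : K ≃* K.map H.subtype := K.equivMapOfInjective _ H.subtype_injective
    refine hF.iso _ _ e.symm (hF.hall_closed hsat hpq hG (K.map H.subtype) ?_)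
    intro v hv hvd
    rw [← Nat.card_congr e.toEquiv] at hvd
    exact hK v hv hvd
  · have : Fact p.Prime := ⟨hp⟩
    have : Fact q.Prime := ⟨hq⟩
    exact hF.hall_closed hsat hpq hG H hPQ

end Pool.Agent.KegelFF
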