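import Pool.Agent.Lib.MP_a2b075_al.Class

set_option autoImplicit false
open scoped Pointwise

namespace Pool.Agent.KegelFF

/-- elements of order prime to the index of a normal subgroup lie in it. -/
theorem mem_of_pow_coprime {G : Type} [Group G] [Finite G] {K : Subgroup G} [K.Normal] {x : G}
    {n : ℕ} (hx : x ^ n = 1) (hn : Nat.Coprime n K.index) : x ∈ K := by
  have h1 : (QuotientGroup.mk' K x) ^ n = 1 := by rw [← map_pow, hx, map_one]
  have h2 : orderOf (QuotientGroup.mk' K x) ∣ n := orderOf_dvd_of_pow_eq_one h1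
  have h3 : orderOf (QuotientGroup.mk' K x) ∣ K.index := orderOf_dvd_natCard _
  have h5 : orderOf (QuotientGroup.mk' K x) = 1 := Nat.eq_one_of_dvd_coprimes hn h2 h3
  rw [orderOf_eq_one_iff] at h5
  rwa [← MonoidHom.mem_ker, QuotientGroup.ker_mk'] at h5

/-- conjugacy part of Schur-Zassenhaus with abelian normal subgroup. -/
theorem conj_compl {G : Type} [Group G] [Finite G] {D : Subgroup G} [hD : D.Normal]
    (hDc : ∀ x ∈ D, ∀ y ∈ D, x * y = y * x) {C C' : Subgroup G} (hdis : D ⊓ C' = ⊥)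
    (hcov : ∀ c ∈ C, ∃ d ∈ D, d * c ∈ C') (hcop : Nat.Coprime (Nat.card D) (Nat.card C)) :
    ∃ t ∈ D, ∀ c ∈ C, t * c * t⁻¹ ∈ C' := by
  classical
  obtain ⟨V, _, ⟨e⟩⟩ := exists_comm D (fun a b => Subtype.ext (hDc a a.2 b b.2))
  have : Finite V := Finite.of_equiv _ e.toEquiv
  have hcop' : Nat.Coprime (Nat.card V) (Nat.card C) := by
    rw [← Nat.card_congr e.toEquiv]; exact hcop
  choose! δ hδ hδ' using hcov
  -- uniqueness
  have huniq : ∀ c, ∀ a ∈ D, ∀ b ∈ D, a * c ∈ C' → b * c ∈ C' → a = b := by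
    intro c a ha b hb h1 h2
    have h3 : a * b⁻¹ ∈ C' := by
      have := C'.mul_mem h1 (C'.inv_mem h2)
      have h4 : a * c * (b * c)⁻¹ = a * b⁻¹ := by group
      rwa [h4] at this
    have h5 : a * b⁻¹ ∈ D ⊓ C' := ⟨D.mul_mem ha (D.inv_mem hb), h3⟩
    rw [hdis, Subgroup.mem_bot] at h5
    exact mul_inv_eq_one.mp h5
  have hcoc : ∀ c ∈ C, ∀ c2 ∈ C, δ (c * c2) = δ c * (c * δ c2 * c⁻¹) := by
    intro c hc c2 hc2
    refine huniq (c * c2) _ (hδ _ (C.mul_mem hc hc2)) _
      (D.mul_mem (hδ c hc) (hD.conj_mem _ (hδ c2 hc2) c)) (hδ' _ (C.mul_mem hc hc2)) ?_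
    have h1 := C'.mul_mem (hδ' c hc) (hδ' c2 hc2)
    have h2 : δ c * c * (δ c2 * c2) = δ c * (c * δ c2 * c⁻¹) * (c * c2) := by group
    rwa [h2] at h1
  let _ : Fintype C := Fintype.ofFinite C
  let f : C → V := fun c => e ⟨δ c, hδ c c.2⟩
  let ψ : G → (V →* V) := fun g =>
    e.toMonoidHom.comp ((MulAut.conjNormal g : MulAut D).toMonoidHom.comp e.symm.toMonoidHom)
  have hψ : ∀ (g : G) (d : D), ψ g (e d) = e ⟨g * (d : G) * g⁻¹, hD.conj_mem _ d.2 g⟩ := by
    intro g d
    change e (MulAut.conjNormal g (e.symm (e d))) = _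
    rw [MulEquiv.symm_apply_apply]
    rfl
  have hf : ∀ c c2 : C, f (c * c2) = f c * ψ c (f c2) := by
    intro c c2
    change e _ = e _ * ψ c (e _)
    rw [hψ, ← map_mul]
    congr 1
    exact Subtype.ext (hcoc c c.2 c2 c2.2)
  let s : V := ∏ c : C, f c
  have hs : ∀ c : C, s = f c ^ (Nat.card C) * ψ c s := by
    intro c
    have h1 : s = ∏ c2 : C, f (c * c2) :=
      (Fintype.prod_equiv (Equiv.mulLeft c) (fun c2 => f (c * c2)) f (fun _ => rfl)).symm
    calc s = ∏ c2 : C, f (c * c2) := h1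
      _ = ∏ c2 : C, (f c * ψ c (f c2)) := by simp only [hf]
      _ = f c ^ (Nat.card C) * ψ c s := by
        rw [Finset.prod_mul_distrib, Finset.prod_const, Finset.card_univ, map_prod,
          Nat.card_eq_fintype_card]
  obtain ⟨t, ht⟩ := (powCoprime hcop').surjective s
  have ht' : t ^ (Nat.card C) = s := ht
  obtain ⟨d, rfl⟩ := e.surjective t
  refine ⟨d, d.2, fun c hc => ?_⟩
  have h1 := hs ⟨c, hc⟩
  rw [← ht', map_pow, ← mul_pow] at h1
  have h2 : e d = f ⟨c, hc⟩ * ψ c (e d) := (powCoprime hcop').injective h1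
  rw [hψ] at h2
  change e d = e ⟨δ c, _⟩ * e _ at h2
  rw [← map_mul] at h2
  have h3 := e.injective h2
  have h4 : (d : G) = δ c * (c * (d : G) * c⁻¹) := congrArg Subtype.val h3
  have h5 : (d : G) * c * (d : G)⁻¹ = δ c * c := by
    calc (d : G) * c * (d : G)⁻¹ = δ c * (c * (d : G) * c⁻¹) * c * (d : G)⁻¹ := by rw [← h4]
      _ = δ c * c := by group
  rw [h5]
  exact hδ' c hc

/-- `G` is an extension of a group of order prime to `q` by a group of order prime to `p`. -/
def E (p q : ℕ) (G : Type) [Group G] : Prop :=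
  ∃ K : Subgroup G, K.Normal ∧ ¬ q ∣ Nat.card K ∧ ¬ p ∣ K.index

theorem E.of_equiv {p q : ℕ} {G H : Type} [Group G] [Group H] (e : G ≃* H) (h : E p q G) :
    E p q H := by
  obtain ⟨N, hN, hp, hi⟩ := h
  refine ⟨N.map e.toMonoidHom, hN.map _ e.surjective, ?_, ?_⟩
  · have : Nat.card (N.map e.toMonoidHom) = Nat.card N :=
      (Nat.card_congr (N.equivMapOfInjective e.toMonoidHom e.injective).toEquiv).symm
    rwa [this]
  · have : (N.map e.toMonoidHom).index = N.index := Subgroup.index_map_equiv N e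
    rwa [this]

theorem card_comap_mk {G : Type} [Group G] [Finite G] (D : Subgroup G) [D.Normal]
    (K : Subgroup (G ⧸ D)) :
    Nat.card (K.comap (QuotientGroup.mk' D)) = Nat.card K * Nat.card D := by
  have h1 : Nat.card (K.comap (QuotientGroup.mk' D)) * (K.comap (QuotientGroup.mk' D)).index
      = Nat.card G := Subgroup.card_mul_index _
  rw [Subgroup.index_comap_of_surjective _ (QuotientGroup.mk'_surjective D)] at h1
  have h2 : Nat.card K * K.index = Nat.card (G ⧸ D) := Subgroup.card_mul_index _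
  have h3 : Nat.card G = Nat.card (G ⧸ D) * Nat.card D :=
    Subgroup.card_eq_card_quotient_mul_card_subgroup D
  have h4 : 0 < K.index := Nat.pos_of_ne_zero K.index_ne_zero_of_finite
  rw [h3, ← h2] at h1
  have h5 : Nat.card (K.comap (QuotientGroup.mk' D)) * K.index =
      (Nat.card K * Nat.card D) * K.index := by rw [h1]; ring
  exact Nat.eq_of_mul_eq_mul_right h4 h5

theorem E.of_quo {p q : ℕ} (hq : q.Prime) {G : Type} [Group G] [Finite G] (D : Subgroup G)
    [D.Normal] (hDq : ¬ q ∣ Nat.card D) (h : E p q (G ⧸ D)) : E p q G := by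
  obtain ⟨K, hK, h1, h2⟩ := h
  refine ⟨K.comap (QuotientGroup.mk' D), hK.comap _, ?_, ?_⟩
  · rw [card_comap_mk]
    intro hd
    rcases hq.dvd_mul.mp hd with h3 | h3
    · exact h1 h3
    · exact hDq h3
  · rw [Subgroup.index_comap_of_surjective _ (QuotientGroup.mk'_surjective D)]
    exact h2

end Pool.Agent.KegelFF
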