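import Pool.Agent.Lib.MP_a2b075_al.EPart

set_option autoImplicit false
open scoped Pointwise

namespace Pool.Agent.KegelFF

theorem relIndex_mul_sup_index {G : Type} [Group G] [Finite G] (D H : Subgroup G) [D.Normal] :
    H.relIndex D * (H ⊔ D).index = H.index := by
  have h1 : (H ⊓ D).relIndex D * D.index = (H ⊓ D).index := Subgroup.relIndex_mul_index inf_le_right
  have h2 : (H ⊓ D).relIndex H * H.index = (H ⊓ D).index := Subgroup.relIndex_mul_index inf_le_left
  have h3 : D.relIndex (H ⊔ D) * (H ⊔ D).index = D.index := Subgroup.relIndex_mul_index le_sup_right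
  rw [Subgroup.inf_relIndex_right] at h1
  rw [Subgroup.inf_relIndex_left] at h2
  rw [Subgroup.relIndex_sup_right] at h3
  have h4 : 0 < D.relIndex H := Nat.pos_of_ne_zero Subgroup.index_ne_zero_of_finite
  rw [← h2, ← h3] at h1
  have h5 : D.relIndex H * (H.relIndex D * (H ⊔ D).index) = D.relIndex H * H.index := by
    rw [← h1]; ring
  exact Nat.eq_of_mul_eq_mul_left h4 h5

/-- a normal `q`-subgroup lies in every subgroup of index prime to `q`. -/
theorem le_of_not_dvd_index {q : ℕ} [Fact q.Prime] {G : Type} [Group G] [Finite G]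
    {D H : Subgroup G} [hD : D.Normal] (hDq : IsPGroup q D) (hH : ¬ q ∣ H.index) : D ≤ H := by
  have hq : q.Prime := Fact.out
  have h1 : H.relIndex D ∣ Nat.card D := Subgroup.relIndex_dvd_card H D
  have h2 : H.relIndex D ∣ H.index := Dvd.intro _ (relIndex_mul_sup_index D H)
  obtain ⟨n, hn⟩ := IsPGroup.iff_card.mp hDq
  rw [hn] at h1
  have h3 : Nat.Coprime (q ^ n) H.index :=
    Nat.Coprime.pow_left _ ((Nat.Prime.coprime_iff_not_dvd hq).mpr hH)
  have h4 : H.relIndex D = 1 := Nat.eq_one_of_dvd_coprimes h3 h1 h2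
  exact Subgroup.relIndex_eq_one.mp h4

/-- one step down the Frattini subgroup. -/
theorem E_step {p q : ℕ} [Fact p.Prime] [Fact q.Prime] (hpq : p ≠ q) {G : Type} [Group G]
    [Finite G] {D : Subgroup G} [hD : D.Normal] (hDc : ∀ x ∈ D, ∀ y ∈ D, x * y = y * x)
    (hDq : IsPGroup q D) (hDf : D ≤ frattini G) (h : E p q (G ⧸ D)) : E p q G := by
  have hp : p.Prime := Fact.out
  have hq : q.Prime := Fact.out
  obtain ⟨K, hK, h1, h2⟩ := h
  have hK0n : (K.comap (QuotientGroup.mk' D)).Normal := hK.comap _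
  have hK0c := card_comap_mk D K
  have hK0i : (K.comap (QuotientGroup.mk' D)).index = K.index :=
    Subgroup.index_comap_of_surjective _ (QuotientGroup.mk'_surjective D)
  set K0 := K.comap (QuotientGroup.mk' D) with hK0
  have hDK : D ≤ K0 := by
    intro x hx
    rw [hK0, Subgroup.mem_comap]
    have : QuotientGroup.mk' D x = 1 := by
      rw [← MonoidHom.mem_ker, QuotientGroup.ker_mk']; exact hx
    rw [this]
    exact K.one_mem
  obtain ⟨n, hn⟩ := IsPGroup.iff_card.mp hDq
  have hcopK : Nat.Coprime (Nat.card D) (Nat.card K) := by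
    rw [hn]
    exact Nat.Coprime.pow_left _ ((Nat.Prime.coprime_iff_not_dvd hq).mpr h1)
  have hcardDs : Nat.card (D.subgroupOf K0) = Nat.card D :=
    Nat.card_congr (Subgroup.subgroupOfEquivOfLe hDK).toEquiv
  have hindDs : (D.subgroupOf K0).index = Nat.card K := by
    have h3 : Nat.card (D.subgroupOf K0) * (D.subgroupOf K0).index = Nat.card K0 :=
      Subgroup.card_mul_index _
    rw [hcardDs, hK0c, mul_comm (Nat.card K)] at h3
    exact Nat.eq_of_mul_eq_mul_left Nat.card_pos h3
  obtain ⟨C0, hC0⟩ := Subgroup.exists_right_complement'_of_coprime (N := D.subgroupOf K0)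
    (by rw [hcardDs, hindDs]; exact hcopK)
  have hC0card : Nat.card C0 = Nat.card K := by
    rw [← hindDs]
    exact hC0.symm.index_eq_card.symm
  set C : Subgroup G := C0.map K0.subtype with hC
  have hCcard : Nat.card C = Nat.card K := by
    rw [← hC0card]
    exact (Nat.card_congr (C0.equivMapOfInjective K0.subtype K0.subtype_injective).toEquiv).symm
  have hCK : C ≤ K0 := by
    rw [hC]
    exact Subgroup.map_subtype_le C0
  have hDC : D ⊓ C = ⊥ := by
    rw [← Subgroup.card_eq_one]
    refine Nat.eq_one_of_dvd_coprimes hcopK (Subgroup.card_dvd_of_le inf_le_left) ?_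
    rw [← hCcard]
    exact Subgroup.card_dvd_of_le inf_le_right
  have hcov : ∀ x ∈ K0, ∃ d ∈ D, d * x ∈ C := by
    intro x hx
    have h3 : (⟨x, hx⟩ : K0) ∈ D.subgroupOf K0 ⊔ C0 := by
      rw [hC0.sup_eq_top]; trivial
    obtain ⟨y, hy, z, hz, hyz⟩ := Subgroup.mem_sup_of_normal_left.mp h3
    refine ⟨(y : G)⁻¹, D.inv_mem (Subgroup.mem_subgroupOf.mp hy), z, hz, ?_⟩
    have h4 : (y : G) * (z : G) = x := congrArg Subtype.val hyz
    rw [← h4]
    simp
  -- the normaliser of C
  have htop : Subgroup.normalizer (C : Set G) = ⊤ := by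
    apply frattini_nongenerating
    rw [eq_top_iff]
    intro g _
    -- the conjugate of `C` by `g`
    set Cg : Subgroup G := C.map (MulAut.conj g).toMonoidHom with hCg
    have hCgcard : Nat.card Cg = Nat.card C :=
      (Nat.card_congr (C.equivMapOfInjective _ (MulAut.conj g).injective).toEquiv).symm
    obtain ⟨t, htD, ht⟩ := conj_compl (G := G) hDc (C := Cg) (C' := C) hDC (by
      rintro _ ⟨c, hc, rfl⟩
      refine hcov _ ?_
      exact hK0n.conj_mem c (hCK hc) g) (by rw [hCgcard, hCcard]; exact hcopK)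
    have htg : t * g ∈ Subgroup.normalizer (C : Set G) := by
      rw [Subgroup.mem_normalizer_iff_map_conj_eq]
      refine Subgroup.eq_of_le_of_card_ge ?_ ?_
      · rintro _ ⟨c, hc, rfl⟩
        have h6 := ht (g * c * g⁻¹) ⟨c, hc, rfl⟩
        have h7 : t * (g * c * g⁻¹) * t⁻¹ = t * g * c * (t * g)⁻¹ := by group
        rw [h7] at h6
        exact h6
      · exact (Nat.card_congr (C.equivMapOfInjective _
          (MulAut.conj (t * g)).injective).toEquiv).le
    have h5 : g = t⁻¹ * (t * g) := by group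
    rw [h5]
    exact Subgroup.mul_mem _ (Subgroup.mem_sup_right (hDf (D.inv_mem htD)))
      (Subgroup.mem_sup_left htg)
  have hCn : C.Normal := Subgroup.normalizer_eq_top_iff.mp htop
  refine ⟨C, hCn, ?_, ?_⟩
  · rw [hCcard]; exact h1
  · intro hd
    rw [hC, Subgroup.index_map_subtype, hK0i] at hd
    rcases hp.dvd_mul.mp hd with h6 | h6
    · rw [hC0.index_eq_card, hcardDs, hn] at h6
      exact hpq ((Nat.prime_dvd_prime_iff_eq hp hq).mp (hp.dvd_of_dvd_pow h6))
    · exact h2 h6

end Pool.Agent.KegelFF
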