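import Pool.Agent.Lib.MP_a2b075_al.EPart2

set_option autoImplicit false
open scoped Pointwise

namespace Pool.Agent.KegelFF

/-- a nontrivial normal nilpotent subgroup contains a nontrivial normal elementary abelian one. -/
theorem exists_elem_nilp {G : Type} [Group G] [Finite G] (N : Subgroup G) [hN : N.Normal]
    (hNn : Group.IsNilpotent N) (hNb : N ≠ ⊥) :
    ∃ (r : ℕ) (D : Subgroup G), r.Prime ∧ IsPGroup r D ∧ D.Normal ∧ D ≠ ⊥ ∧ D ≤ N ∧
      (∀ x ∈ D, ∀ y ∈ D, x * y = y * x) := by
  have h1 : Nat.card N ≠ 1 := by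
    have := (Subgroup.one_lt_card_iff_ne_bot N).mpr hNb
    omega
  obtain ⟨r, hr, hrd⟩ := Nat.exists_prime_and_dvd h1
  have : Fact r.Prime := ⟨hr⟩
  obtain ⟨O, hO, hOp, hOi⟩ := QC_of_nilp r hNn
  have hO' : (O.map N.subtype).Normal := by
    refine ⟨?_⟩
    rintro _ ⟨n, hn, rfl⟩ g
    obtain ⟨k, hk⟩ := (mem_iff_pow hOp hOi n).mp hn
    have hgE : g * (n : G) * g⁻¹ ∈ N := hN.conj_mem _ n.2 g
    refine ⟨⟨g * (n : G) * g⁻¹, hgE⟩, ?_, rfl⟩
    refine (mem_iff_pow hOp hOi _).mpr ⟨k, Subtype.ext ?_⟩
    have hk' : (n : G) ^ (r ^ k) = 1 := by simpa using congrArg Subtype.val hk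
    simp [conj_pow, hk']
  have hOb : O.map N.subtype ≠ ⊥ := by
    intro h
    rw [Subgroup.map_eq_bot_iff_of_injective _ (Subgroup.subtype_injective N)] at h
    subst h
    rw [Subgroup.index_bot] at hOi
    exact hOi hrd
  obtain ⟨D, hD, hDb, hDM, hDc, hDe⟩ := exists_elem _ (hOp.map _) hOb
  refine ⟨r, D, hr, ?_, hD, hDb, hDM.trans (Subgroup.map_subtype_le O), hDc⟩
  intro x
  exact ⟨1, Subtype.ext (by simpa using hDe x x.2)⟩

/-- the class `E p q` is saturated. -/
theorem E_frattini {p q : ℕ} [Fact p.Prime] [Fact q.Prime] (hpq : p ≠ q) :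
    ∀ (n : ℕ) (G : Type) [Group G] [Finite G], Nat.card G ≤ n → ∀ (N : Subgroup G) [N.Normal],
      N ≤ frattini G → E p q (G ⧸ N) → E p q G := by
  have hq : q.Prime := Fact.out
  intro n
  induction n with
  | zero =>
    intro W _ _ hc
    have := Nat.card_pos (α := W)
    omega
  | succ n ih =>
    intro G _ _ hc N _ hN h
    by_cases hb : N = ⊥
    · subst hb
      exact h.of_equiv QuotientGroup.quotientBot
    obtain ⟨r, D, hr, hDr, hD, hDb, hDN, hDc⟩ := exists_elem_nilp N (nilp_of_le_frattini hN) hb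
    have hrf : Fact r.Prime := ⟨hr⟩
    have h1 : 1 < Nat.card D := (Subgroup.one_lt_card_iff_ne_bot D).mpr hDb
    have h2 : Nat.card (G ⧸ D) * Nat.card D = Nat.card G :=
      (Subgroup.card_eq_card_quotient_mul_card_subgroup D).symm
    have h3 : 0 < Nat.card (G ⧸ D) := Nat.card_pos
    have h4 : Nat.card (G ⧸ D) < Nat.card G := by nlinarith
    have hNm : (N.map (QuotientGroup.mk' D)).Normal :=
      Subgroup.Normal.map inferInstance _ (QuotientGroup.mk'_surjective D)
    have h5 : N.map (QuotientGroup.mk' D) ≤ frattini (G ⧸ D) := by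
      rw [Subgroup.map_le_iff_le_comap]
      exact hN.trans (frattini_le_comap_frattini_of_surjective (QuotientGroup.mk'_surjective D))
    have h6 : E p q ((G ⧸ D) ⧸ N.map (QuotientGroup.mk' D)) :=
      h.of_equiv (QuotientGroup.quotientQuotientEquivQuotient D N hDN).symm
    have h7 : E p q (G ⧸ D) := ih (G ⧸ D) (by omega) _ h5 h6
    by_cases hrq : r = q
    · subst hrq
      exact E_step hpq hDc hDr (hDN.trans hN) h7
    · exact h7.of_quo hq D (not_dvd_of_isPGroup hr hq hrq hDr)

/-- the Hall subgroups of a group in `E p q`. -/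
theorem QC_of_E {p q : ℕ} [Fact p.Prime] [Fact q.Prime] {G : Type} [Group G] [Finite G]
    (h : E p q G) (H : Subgroup G) (hPQ : PQ p q H) : QC p H := by
  have hp : p.Prime := Fact.out
  obtain ⟨K, hK, h1, h2⟩ := h
  refine ⟨K.subgroupOf H, inferInstance, ?_, ?_⟩
  · refine isPGroup_of_PQ (hPQ.sub _) ?_
    intro hd
    refine h1 (hd.trans ?_)
    have h3 : Nat.card (K.subgroupOf H) = Nat.card ((K.subgroupOf H).map H.subtype) :=
      Nat.card_congr ((K.subgroupOf H).equivMapOfInjective _ H.subtype_injective).toEquiv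
    rw [h3, Subgroup.subgroupOf_map_subtype]
    exact Subgroup.card_dvd_of_le inf_le_left
  · intro hd
    exact h2 (hd.trans (Subgroup.relIndex_dvd_index_of_normal K H))

/-- a soluble group whose Hall `{p,q}`-subgroups are `p`-closed lies in `E p q`. -/
theorem E_of_hall {p q : ℕ} [Fact p.Prime] [Fact q.Prime] (hpq : p ≠ q) :
    ∀ (n : ℕ) (G : Type) [Group G] [Finite G], Nat.card G ≤ n → Group.IsSolvable G →
      ∀ H : Subgroup G, ¬ p ∣ H.index → ¬ q ∣ H.index → QC p H → E p q G := by
  have hp : p.Prime := Fact.out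
  have hq : q.Prime := Fact.out
  intro n
  induction n with
  | zero =>
    intro W _ _ hc
    have := Nat.card_pos (α := W)
    omega
  | succ n ih =>
    intro G _ _ hc hs H hHp hHq hQC
    by_cases hnt : Nontrivial G
    swap
    · rw [not_nontrivial_iff_subsingleton] at hnt
      have h1 : Nat.card G = 1 := Nat.card_eq_one_iff_unique.mpr ⟨hnt, ⟨1⟩⟩
      refine ⟨⊤, inferInstance, ?_, ?_⟩
      · rw [Subgroup.card_top, h1]
        exact fun h => hq.one_lt.ne' (Nat.dvd_one.mp h)
      · rw [Subgroup.index_top]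
        exact fun h => hp.one_lt.ne' (Nat.dvd_one.mp h)
    -- passing to quotients
    have hquo : ∀ D : Subgroup G, ∀ _ : D.Normal, D ≠ ⊥ → E p q (G ⧸ D) := by
      intro D hD hDb
      have h1 : 1 < Nat.card D := (Subgroup.one_lt_card_iff_ne_bot D).mpr hDb
      have h2 : Nat.card (G ⧸ D) * Nat.card D = Nat.card G :=
        (Subgroup.card_eq_card_quotient_mul_card_subgroup D).symm
      have h3 : 0 < Nat.card (G ⧸ D) := Nat.card_pos
      have h4 : Nat.card (G ⧸ D) < Nat.card G := by nlinarith
      have hi : (H.map (QuotientGroup.mk' D)).index ∣ H.index :=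
        H.index_map_dvd (QuotientGroup.mk'_surjective D)
      refine ih (G ⧸ D) (by omega) inferInstance (H.map (QuotientGroup.mk' D))
        (fun hd => hHp (hd.trans hi)) (fun hd => hHq (hd.trans hi)) ?_
      refine hQC.img ((QuotientGroup.mk' D).subgroupMap H) ?_
      exact MonoidHom.subgroupMap_surjective _ _
    by_cases hex : ∃ D : Subgroup G, D.Normal ∧ D ≠ ⊥ ∧ ¬ q ∣ Nat.card D
    · obtain ⟨D, hD, hDb, hDq⟩ := hex
      exact (hquo D hD hDb).of_quo hq D hDq
    push Not at hex
    obtain ⟨r, D, hr, hrd, hD, hDb, hDc, hDe⟩ := exists_elem_solv hs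
    have hrf : Fact r.Prime := ⟨hr⟩
    have hDr : IsPGroup r D := fun x => ⟨1, Subtype.ext (by simpa using hDe x x.2)⟩
    have hrq : r = q := by
      by_contra hne
      exact not_dvd_of_isPGroup hr hq hne hDr (hex D hD hDb)
    subst hrq
    obtain ⟨K, hK, hKq, hKp⟩ := hquo D hD hDb
    have hK0n : (K.comap (QuotientGroup.mk' D)).Normal := hK.comap _
    have hK0c := card_comap_mk D K
    have hK0i : (K.comap (QuotientGroup.mk' D)).index = K.index :=
      Subgroup.index_comap_of_surjective _ (QuotientGroup.mk'_surjective D)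
    set K0 := K.comap (QuotientGroup.mk' D) with hK0
    have hDK : D ≤ K0 := by
      intro x hx
      rw [hK0, Subgroup.mem_comap]
      have : QuotientGroup.mk' D x = 1 := by
        rw [← MonoidHom.mem_ker, QuotientGroup.ker_mk']; exact hx
      rw [this]
      exact K.one_mem
    -- the normal Sylow subgroup of `H`
    obtain ⟨P, hP, hPp, hPi⟩ := hQC
    have hDH : D ≤ H := le_of_not_dvd_index hDr hHq
    have hcomm : ∀ x : H, x ∈ P → ∀ d ∈ D, (x : G) * d = d * x := by
      intro x hx d hd
      have h1 : (⟨d, hDH hd⟩ : H) ∈ D.subgroupOf H := Subgroup.mem_subgroupOf.mpr hd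
      have h2 : Disjoint P (D.subgroupOf H) := by
        rw [disjoint_iff, ← Subgroup.card_eq_one]
        obtain ⟨a, ha⟩ := IsPGroup.iff_card.mp hPp
        have hDs : IsPGroup r (D.subgroupOf H) := by
          intro y
          exact ⟨1, Subtype.ext (Subtype.ext (by
            simpa using hDe _ (Subgroup.mem_subgroupOf.mp y.2)))⟩
        obtain ⟨b, hb⟩ := IsPGroup.iff_card.mp hDs
        have hc1 : Nat.Coprime (p ^ a) (r ^ b) :=
          Nat.Coprime.pow _ _ ((Nat.coprime_primes hp hr).mpr hpq)
        refine Nat.eq_one_of_dvd_coprimes hc1 ?_ ?_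
        · rw [← ha]; exact Subgroup.card_dvd_of_le inf_le_left
        · rw [← hb]; exact Subgroup.card_dvd_of_le inf_le_right
      have h3 := Subgroup.commute_of_normal_of_disjoint P (D.subgroupOf H) hP inferInstance h2
        x ⟨d, hDH hd⟩ hx h1
      exact congrArg Subtype.val h3
    -- the centraliser of `D` in `K0`
    have hZn : (K0 ⊓ Subgroup.centralizer (D : Set G)).Normal := inferInstance
    set Z := K0 ⊓ Subgroup.centralizer (D : Set G) with hZ
    have hDZ : D ≤ Z := by
      refine le_inf hDK ?_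
      intro x hx
      rw [Subgroup.mem_centralizer_iff]
      intro y hy
      exact hDc y hy x hx
    have hDcard : Nat.card (D.subgroupOf Z) = Nat.card D :=
      Nat.card_congr (Subgroup.subgroupOfEquivOfLe hDZ).toEquiv
    have hDi : ¬ r ∣ (D.subgroupOf Z).index := by
      intro hd
      refine hKq (hd.trans ?_)
      have h1 : Nat.card (D.subgroupOf Z) * (D.subgroupOf Z).index = Nat.card Z :=
        Subgroup.card_mul_index _
      have h2 : Nat.card Z ∣ Nat.card K0 := Subgroup.card_dvd_of_le inf_le_left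
      rw [← h1, hDcard, hK0c, mul_comm (Nat.card K)] at h2
      exact Nat.dvd_of_mul_dvd_mul_left Nat.card_pos h2
    obtain ⟨m, hm⟩ := IsPGroup.iff_card.mp hDr
    have hcop : Nat.Coprime (Nat.card (D.subgroupOf Z)) (D.subgroupOf Z).index := by
      rw [hDcard, hm]
      exact Nat.Coprime.pow_left _ ((Nat.Prime.coprime_iff_not_dvd hr).mpr hDi)
    obtain ⟨C, hC⟩ := Subgroup.exists_right_complement'_of_coprime hcop
    have hCcard : Nat.card C = (D.subgroupOf Z).index := hC.symm.index_eq_card.symm
    have hCi : C.index = Nat.card D := by rw [hC.index_eq_card, hDcard]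
    have hCn : C.Normal := by
      refine ⟨fun c hc z => ?_⟩
      have h1 : z ∈ D.subgroupOf Z ⊔ C := by rw [hC.sup_eq_top]; trivial
      obtain ⟨d, hd, c1, hc1, hz⟩ := Subgroup.mem_sup_of_normal_left.mp h1
      have hd' : (d : G) ∈ D := Subgroup.mem_subgroupOf.mp hd
      have h2 : ∀ y : Z, y * d = d * y := by
        intro y
        apply Subtype.ext
        exact (Subgroup.mem_centralizer_iff.mp y.2.2 d hd').symm
      have h3 : z * c * z⁻¹ = c1 * c * c1⁻¹ := by
        rw [← hz]
        calc d * c1 * c * (d * c1)⁻¹ = d * (c1 * c * c1⁻¹) * d⁻¹ := by group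
          _ = (c1 * c * c1⁻¹) * d * d⁻¹ := by rw [h2]
          _ = c1 * c * c1⁻¹ := by group
      rw [h3]
      exact C.mul_mem (C.mul_mem hc1 hc) (C.inv_mem hc1)
    have hCiff : ∀ z : Z, z ∈ C ↔ z ^ (Nat.card C) = 1 := by
      intro z
      constructor
      · intro hz
        have h1 : (⟨z, hz⟩ : C) ^ Nat.card C = 1 := pow_card_eq_one'
        exact congrArg Subtype.val h1
      · intro hz
        refine mem_of_pow_coprime hz ?_
        rw [hCcard, hCi, ← hDcard]
        exact hcop.symm
    have hCmn : (C.map Z.subtype).Normal := by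
      refine ⟨?_⟩
      rintro _ ⟨z, hz, rfl⟩ g
      have hk := (hCiff z).mp hz
      refine ⟨⟨g * (z : G) * g⁻¹, hZn.conj_mem _ z.2 g⟩, ?_, rfl⟩
      refine (hCiff _).mpr (Subtype.ext ?_)
      have hk' : (z : G) ^ (Nat.card C) = 1 := by simpa using congrArg Subtype.val hk
      simp [conj_pow, hk']
    have hCb : C = ⊥ := by
      by_contra hne
      have h1 : C.map Z.subtype ≠ ⊥ := by
        rw [Ne, Subgroup.map_eq_bot_iff_of_injective _ (Subgroup.subtype_injective Z)]
        exact hne
      have h2 := hex _ hCmn h1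
      have h3 : Nat.card (C.map Z.subtype) = Nat.card C :=
        (Nat.card_congr (C.equivMapOfInjective _ Z.subtype_injective).toEquiv).symm
      rw [h3, hCcard] at h2
      exact hDi h2
    have hZD : Z ≤ D := by
      have h1 := hC
      rw [hCb, Subgroup.isComplement'_bot_right] at h1
      exact Subgroup.subgroupOf_eq_top.mp h1
    -- `P` is trivial
    have hPb : P = ⊥ := by
      rw [eq_bot_iff]
      intro x hx
      obtain ⟨k, hk⟩ := hPp ⟨x, hx⟩
      have hk' : (x : G) ^ (p ^ k) = 1 := by
        simpa using congrArg Subtype.val (congrArg Subtype.val hk)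
      have hxK : (x : G) ∈ K0 := by
        refine mem_of_pow_coprime hk' ?_
        rw [hK0i]
        exact Nat.Coprime.pow_left _ ((Nat.Prime.coprime_iff_not_dvd hp).mpr hKp)
      have hxZ : (x : G) ∈ Z := by
        refine ⟨hxK, ?_⟩
        change (x : G) ∈ Subgroup.centralizer (D : Set G)
        rw [Subgroup.mem_centralizer_iff]
        intro d hd
        exact (hcomm x hx d hd).symm
      have hxD := hZD hxZ
      have hxr : (x : G) ^ r = 1 := hDe _ hxD
      have h1 : orderOf (x : G) = 1 :=
        Nat.eq_one_of_dvd_coprimes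
          (Nat.Coprime.pow_left k ((Nat.coprime_primes hp hr).mpr hpq))
          (orderOf_dvd_of_pow_eq_one hk') (orderOf_dvd_of_pow_eq_one hxr)
      rw [orderOf_eq_one_iff] at h1
      rw [Subgroup.mem_bot]
      exact Subtype.ext h1
    refine ⟨⊥, inferInstance, ?_, ?_⟩
    · rw [Subgroup.card_bot]
      exact fun h => hr.one_lt.ne' (Nat.dvd_one.mp h)
    · rw [Subgroup.index_bot]
      intro hd
      rw [← Subgroup.card_mul_index H] at hd
      rcases hp.dvd_mul.mp hd with h1 | h1
      · rw [hPb, Subgroup.index_bot] at hPi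
        exact hPi h1
      · exact hHp h1

end Pool.Agent.KegelFF
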