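import Pool.Agent.Lib.MP_a2b075_al.StepB

set_option autoImplicit false
open scoped Pointwise
open SemidirectProduct

namespace Pool.Agent.KegelFF

variable {F : ∀ (G : Type) [Group G], Prop}

section bbh

variable {V H : Type} [CommGroup V] [Group H] (φ : H →* MulAut V) (G' : Subgroup (V ⋊[φ] H))

/-- quotient of the left parts, over the same right part -/
def dmul (z : (V ⋊[φ] H) × (V ⋊[φ] H)) : V ⋊[φ] H := ⟨z.1.left * z.2.left⁻¹, z.1.right⟩

theorem dmul_mul (a b : (V ⋊[φ] H) × (V ⋊[φ] H)) (ha : a.1.right = a.2.right) :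
    dmul φ (a * b) = dmul φ a * dmul φ b := by
  refine SemidirectProduct.ext ?_ rfl
  simp only [dmul, Prod.fst_mul, Prod.snd_mul, mul_left, mul_inv_rev, map_mul, map_inv]
  rw [← ha]
  simp only [mul_assoc, mul_comm, mul_left_comm]

/-- the subdirect product used for supplements. -/
def dsub : Subgroup ((V ⋊[φ] H) × (V ⋊[φ] H)) where
  carrier := {z | z.1.right = z.2.right ∧ dmul φ z ∈ G'}
  one_mem' := ⟨rfl, by
    have : dmul φ (1 : (V ⋊[φ] H) × (V ⋊[φ] H)) = 1 := SemidirectProduct.ext (by simp [dmul]) rfl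
    rw [this]; exact G'.one_mem⟩
  mul_mem' := by
    rintro a b ⟨ha, ha'⟩ ⟨hb, hb'⟩
    refine ⟨?_, ?_⟩
    · simp only [Prod.fst_mul, Prod.snd_mul, mul_right, ha, hb]
    · rw [dmul_mul φ a b ha]
      exact G'.mul_mem ha' hb'
  inv_mem' := by
    rintro a ⟨ha, ha'⟩
    refine ⟨?_, ?_⟩
    · simp only [Prod.fst_inv, Prod.snd_inv, inv_right, ha]
    · have h1 : dmul φ a * dmul φ a⁻¹ = 1 := by
        rw [← dmul_mul φ a a⁻¹ ha, mul_inv_cancel]
        exact SemidirectProduct.ext (by simp [dmul]) rfl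
      have h2 : dmul φ a⁻¹ = (dmul φ a)⁻¹ := (inv_eq_of_mul_eq_one_right h1).symm
      rw [h2]
      exact G'.inv_mem ha'

/-- the map onto the supplement -/
def dhom : dsub φ G' →* G' where
  toFun z := ⟨dmul φ z.1, z.2.2⟩
  map_one' := Subtype.ext (SemidirectProduct.ext (by simp [dmul]) rfl)
  map_mul' a b := Subtype.ext (dmul_mul φ a.1 b.1 a.2.1)

end bbh

/-- supplements of an abelian normal subgroup with a complement. -/
theorem KF.bbh (hF : KF F) {V H : Type} [CommGroup V] [Finite V] [Group H] [Finite H]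
    (φ : H →* MulAut V) (hZ : F (V ⋊[φ] H)) (G' : Subgroup (V ⋊[φ] H))
    (hG' : ∀ h : H, ∃ v : V, (⟨v, h⟩ : V ⋊[φ] H) ∈ G') : F G' := by
  have hD : F (dsub φ G') := by
    refine hF.sub2 ((MonoidHom.fst _ _).comp (dsub φ G').subtype)
      ((MonoidHom.snd _ _).comp (dsub φ G').subtype) ?_ ?_ ?_
    · refine hF.range_of_surj _ ?_ hZ
      intro z
      obtain ⟨v, hv⟩ := hG' z.right
      refine ⟨⟨(z, ⟨v⁻¹ * z.left, z.right⟩), rfl, ?_⟩, rfl⟩
      have : dmul φ (z, ⟨v⁻¹ * z.left, z.right⟩) = ⟨v, z.right⟩ := by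
        refine SemidirectProduct.ext ?_ rfl
        simp [dmul]
      rw [this]; exact hv
    · refine hF.range_of_surj _ ?_ hZ
      intro z
      obtain ⟨v, hv⟩ := hG' z.right
      refine ⟨⟨(⟨v * z.left, z.right⟩, z), rfl, ?_⟩, rfl⟩
      have : dmul φ (⟨v * z.left, z.right⟩, z) = ⟨v, z.right⟩ := by
        refine SemidirectProduct.ext ?_ rfl
        simp [dmul]
      rw [this]; exact hv
    · rintro ⟨⟨a, b⟩, hab⟩ h1 h2
      have h1' : a = 1 := h1
      have h2' : b = 1 := h2
      subst h1' h2'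
      rfl
  refine hF.img (dhom φ G') ?_ hD
  rintro ⟨g, hg⟩
  refine ⟨⟨(g, ⟨1, g.right⟩), rfl, ?_⟩, ?_⟩
  · have : dmul φ (g, ⟨1, g.right⟩) = g := SemidirectProduct.ext (by simp [dmul]) rfl
    rw [this]; exact hg
  · exact Subtype.ext (SemidirectProduct.ext (by simp [dhom, dmul]) rfl)

/-- left translation on functions -/
def leftAct (H A : Type) [Group H] [CommGroup A] : H →* MulAut (H → A) where
  toFun h :=
    { toFun := fun f x => f (h⁻¹ * x)
      invFun := fun f x => f (h * x)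
      left_inv := fun f => by ext x; simp
      right_inv := fun f => by ext x; simp
      map_mul' := fun f g => rfl }
  map_one' := by ext f x; simp
  map_mul' s t := by
    ext f x
    simp only [MulEquiv.coe_mk, Equiv.coe_fn_mk, MulAut.mul_apply, mul_inv_rev, mul_assoc]

@[simp] theorem leftAct_apply (H A : Type) [Group H] [CommGroup A] (h : H) (f : H → A) (x : H) :
    leftAct H A h f x = f (h⁻¹ * x) := rfl

section KK

variable {G A : Type} [Group G] [CommGroup A] (N : Subgroup G) [N.Normal] (e : N ≃* A)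

theorem kk_mem (g : G) (x : G ⧸ N) :
    (x.out)⁻¹ * g * (((g : G ⧸ N)⁻¹ * x).out) ∈ N := by
  rw [← QuotientGroup.eq_one_iff, QuotientGroup.mk_mul, QuotientGroup.mk_mul,
    QuotientGroup.mk_inv, QuotientGroup.out_eq', QuotientGroup.out_eq']
  group

/-- the Kaloujnine-Krasner embedding -/
noncomputable def kkHom : G →* ((G ⧸ N) → A) ⋊[leftAct (G ⧸ N) A] (G ⧸ N) where
  toFun g := ⟨fun x => e ⟨(x.out)⁻¹ * g * (((g : G ⧸ N)⁻¹ * x).out), kk_mem N g x⟩, (g : G ⧸ N)⟩
  map_one' := by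
    refine SemidirectProduct.ext ?_ rfl
    ext x
    have : (⟨(x.out)⁻¹ * 1 * ((((1 : G) : G ⧸ N)⁻¹ * x).out), kk_mem N 1 x⟩ : N) = 1 := by
      apply Subtype.ext
      simp
    simp only [this, map_one]
    rfl
  map_mul' a b := by
    refine SemidirectProduct.ext ?_ rfl
    ext x
    rw [mul_left, Pi.mul_apply, leftAct_apply, ← map_mul]
    refine congrArg e (Subtype.ext ?_)
    simp only [Subgroup.coe_mul, QuotientGroup.mk_mul, mul_inv_rev, mul_assoc]
    rw [mul_inv_cancel_left]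

theorem kkHom_inj : Function.Injective (kkHom N e) := by
  rw [injective_iff_map_eq_one]
  intro g hg
  have h1 : (g : G ⧸ N) = 1 := congrArg SemidirectProduct.right hg
  have h2 := congrFun (congrArg SemidirectProduct.left hg) 1
  simp only [kkHom, MonoidHom.coe_mk, OneHom.coe_mk, one_left, Pi.one_apply] at h2
  rw [map_eq_one_iff _ e.injective] at h2
  have h3 := congrArg Subtype.val h2
  simp only [h1, inv_one, mul_one, Subgroup.coe_one] at h3
  have h4 : g = ((1 : G ⧸ N).out) * (((1 : G ⧸ N).out)⁻¹ * g * ((1 : G ⧸ N).out)) *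
      ((1 : G ⧸ N).out)⁻¹ := by group
  rw [h4, h3]
  group

end KK

/-- Extensions with elementary abelian kernel. -/
theorem KF.ext (hF : KF F) (p : ℕ) {G : Type} [Group G] [Finite G] (N : Subgroup G) [N.Normal]
    (hNc : ∀ x ∈ N, ∀ y ∈ N, x * y = y * x) (hNe : ∀ x ∈ N, x ^ p = 1)
    (hZ : ∀ (V : Type) [CommGroup V] [Finite V], (∀ v : V, v ^ p = 1) →
      ∀ φ : (G ⧸ N) →* MulAut V, F (V ⋊[φ] (G ⧸ N))) : F G := by
  obtain ⟨A, _, ⟨e⟩⟩ := exists_comm N (fun a b => Subtype.ext (hNc a a.2 b b.2))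
  have hAf : Finite A := Finite.of_equiv _ e.toEquiv
  have hAe : ∀ v : A, v ^ p = 1 := by
    intro v
    obtain ⟨m, rfl⟩ := e.surjective v
    rw [← map_pow]
    have : m ^ p = 1 := Subtype.ext (by simpa using hNe m m.2)
    rw [this, map_one]
  have h1 := hZ ((G ⧸ N) → A) (fun v => by ext x; exact hAe _) (leftAct (G ⧸ N) A)
  refine hF.of_inj (kkHom N e) (kkHom_inj N e) (hF.bbh _ h1 _ ?_)
  intro h
  obtain ⟨g, rfl⟩ := QuotientGroup.mk_surjective h
  exact ⟨_, g, rfl⟩

theorem card_eq_of_PQ {p q n : ℕ} (hp : p.Prime) (hq : q.Prime) (hpq : p ≠ q) (hn : n ≠ 0)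
    (h : ∀ r : ℕ, r.Prime → r ∣ n → r = p ∨ r = q) :
    n = p ^ n.factorization p * q ^ n.factorization q := by
  refine Nat.eq_of_factorization_eq hn
    (mul_ne_zero (pow_ne_zero _ hp.ne_zero) (pow_ne_zero _ hq.ne_zero)) ?_
  intro r
  rw [Nat.factorization_mul (pow_ne_zero _ hp.ne_zero) (pow_ne_zero _ hq.ne_zero),
    hp.factorization_pow, hq.factorization_pow]
  simp only [Finsupp.coe_add, Pi.add_apply, Finsupp.single_apply]
  by_cases h1 : p = r
  · subst h1
    simp [hpq.symm]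
  · by_cases h2 : q = r
    · subst h2
      simp [h1]
    · simp only [h1, h2, if_false, add_zero]
      by_contra h3
      have h4 : r ∈ n.primeFactors := by
        rw [← Nat.support_factorization, Finsupp.mem_support_iff]
        exact h3
      rcases h r (Nat.prime_of_mem_primeFactors h4) (Nat.dvd_of_mem_primeFactors h4) with h5 | h5
      · exact h1 h5.symm
      · exact h2 h5.symm

/-- Split extensions of elementary abelian `p`-groups by `{p,q}`-members of `F`. -/
theorem KF.lemZ (hF : KF F) {p q : ℕ} [Fact p.Prime] [Fact q.Prime] (hpq : p ≠ q)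
    (hp : ∀ (Q : Type) [Group Q] [Finite Q], IsPGroup p Q → F Q)
    (hq : ∀ (V : Type) [CommGroup V] [Finite V], (∀ v : V, v ^ p = 1) →
      ∀ (Q : Type) [Group Q] [Finite Q], IsPGroup q Q → ∀ φ : Q →* MulAut V, F (V ⋊[φ] Q))
    {H : Type} [Group H] [Finite H] (hH : F H) (hPQ : PQ p q H) :
    ∀ (V : Type) [CommGroup V] [Finite V], (∀ v : V, v ^ p = 1) →
      ∀ φ : H →* MulAut V, F (V ⋊[φ] H) := by
  intro V _ _ hV φ
  have hpp : p.Prime := Fact.out
  have hqp : q.Prime := Fact.out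
  let P : Sylow p H := default
  let Q : Sylow q H := default
  have hcomp : (P : Subgroup H).IsComplement' (Q : Subgroup H) := by
    refine Subgroup.isComplement'_of_coprime ?_ ?_
    · rw [P.card_eq_multiplicity, Q.card_eq_multiplicity]
      exact (card_eq_of_PQ hpp hqp hpq Nat.card_pos.ne' hPQ).symm
    · rw [P.card_eq_multiplicity, Q.card_eq_multiplicity]
      exact Nat.Coprime.pow _ _ ((Nat.coprime_primes hpp hqp).mpr hpq)
  refine hF.keg _ (inr : H →* V ⋊[φ] H).range ((P : Subgroup H).comap rightHom)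
    ((Q : Subgroup H).comap rightHom) ?_ ?_ ?_ (hF.range_of _ hH) ?_ ?_
  · rw [Set.eq_univ_iff_forall]
    intro z
    rw [Set.mem_mul]
    refine ⟨inr z.right, ⟨z.right, rfl⟩, (inr z.right)⁻¹ * z, ?_, by group⟩
    simp only [SetLike.mem_coe, Subgroup.mem_comap, map_mul, map_inv, rightHom_inr]
    simp
  · rw [Set.eq_univ_iff_forall]
    intro z
    rw [Set.mem_mul]
    obtain ⟨⟨a, b⟩, hab⟩ := hcomp.surjective z.right
    refine ⟨⟨z.left, a⟩, ?_, (⟨z.left, a⟩ : V ⋊[φ] H)⁻¹ * z, ?_, by group⟩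
    · simp
    · simp only [SetLike.mem_coe, Subgroup.mem_comap, map_mul, map_inv, rightHom_eq_right]
      have hab' : (a : H) * b = z.right := hab
      rw [← hab']
      simp
  · rw [Set.eq_univ_iff_forall]
    intro z
    rw [Set.mem_mul]
    refine ⟨inl z.left, ?_, inr z.right, ⟨z.right, rfl⟩, inl_left_mul_inr_right z⟩
    simp
  · refine hp _ ?_
    refine IsPGroup.comap_of_ker_isPGroup P.isPGroup' _ ?_
    intro x
    refine ⟨1, ?_⟩
    apply Subtype.ext
    have hx : (x.1).right = 1 := x.2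
    have hx' : x.1 = inl (x.1).left := SemidirectProduct.ext rfl hx
    change (x.1) ^ (p ^ 1) = 1
    rw [hx', pow_one, ← map_pow, hV, map_one]
  · refine (hF.comap_iff φ _).mp ?_
    exact hq V hV _ Q.isPGroup' _

end Pool.Agent.KegelFF
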