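import Pool.Agent.Lib.MP_a2b075_al.HallSat

set_option autoImplicit false
open scoped Pointwise

namespace Pool.Agent.KegelFF

variable {F : ∀ (G : Type) [Group G], Prop}

/-- Hall `r'`-subgroups of soluble groups. -/
theorem exists_hall {r : ℕ} (hr : r.Prime) : ∀ (n : ℕ) (G : Type) [Group G] [Finite G],
    Nat.card G ≤ n → Group.IsSolvable G →
      ∃ H : Subgroup G, ¬ r ∣ Nat.card H ∧ ∃ k, H.index = r ^ k := by
  have hrf : Fact r.Prime := ⟨hr⟩
  intro n
  induction n with
  | zero =>
    intro W _ _ hc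
    have := Nat.card_pos (α := W)
    omega
  | succ n ih =>
    intro G _ _ hc hs
    by_cases hnt : Nontrivial G
    swap
    · rw [not_nontrivial_iff_subsingleton] at hnt
      have h1 : Nat.card G = 1 := Nat.card_eq_one_iff_unique.mpr ⟨hnt, ⟨1⟩⟩
      refine ⟨⊤, ?_, 0, ?_⟩
      · rw [Subgroup.card_top, h1]
        exact fun h => hr.one_lt.ne' (Nat.dvd_one.mp h)
      · rw [Subgroup.index_top, pow_zero]
    obtain ⟨s, D, hsp, hsd, hD, hDb, hDc, hDe⟩ := exists_elem_solv hs
    have hsf : Fact s.Prime := ⟨hsp⟩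
    have hDs : IsPGroup s D := fun x => ⟨1, Subtype.ext (by simpa using hDe x x.2)⟩
    have h1 : 1 < Nat.card D := (Subgroup.one_lt_card_iff_ne_bot D).mpr hDb
    have h2 : Nat.card (G ⧸ D) * Nat.card D = Nat.card G :=
      (Subgroup.card_eq_card_quotient_mul_card_subgroup D).symm
    have h3 : 0 < Nat.card (G ⧸ D) := Nat.card_pos
    have h4 : Nat.card (G ⧸ D) < Nat.card G := by nlinarith
    obtain ⟨H1, hH1, k, hk⟩ := ih (G ⧸ D) (by omega) inferInstance
    have hc1 := card_comap_mk D H1
    have hi1 : (H1.comap (QuotientGroup.mk' D)).index = H1.index :=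
      Subgroup.index_comap_of_surjective _ (QuotientGroup.mk'_surjective D)
    set H0 := H1.comap (QuotientGroup.mk' D) with hH0
    by_cases hsr : s = r
    · subst hsr
      have hDH : D ≤ H0 := by
        intro x hx
        rw [hH0, Subgroup.mem_comap]
        have : QuotientGroup.mk' D x = 1 := by
          rw [← MonoidHom.mem_ker, QuotientGroup.ker_mk']; exact hx
        rw [this]
        exact H1.one_mem
      obtain ⟨m, hm⟩ := IsPGroup.iff_card.mp hDs
      have hcopK : Nat.Coprime (Nat.card D) (Nat.card H1) := by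
        rw [hm]
        exact Nat.Coprime.pow_left _ ((Nat.Prime.coprime_iff_not_dvd hr).mpr hH1)
      have hcardDs : Nat.card (D.subgroupOf H0) = Nat.card D :=
        Nat.card_congr (Subgroup.subgroupOfEquivOfLe hDH).toEquiv
      have hindDs : (D.subgroupOf H0).index = Nat.card H1 := by
        have h5 : Nat.card (D.subgroupOf H0) * (D.subgroupOf H0).index = Nat.card H0 :=
          Subgroup.card_mul_index _
        rw [hcardDs, hc1, mul_comm (Nat.card H1)] at h5
        exact Nat.eq_of_mul_eq_mul_left Nat.card_pos h5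
      obtain ⟨C0, hC0⟩ := Subgroup.exists_right_complement'_of_coprime (N := D.subgroupOf H0)
        (by rw [hcardDs, hindDs]; exact hcopK)
      have hC0card : Nat.card C0 = Nat.card H1 := by
        rw [← hindDs]
        exact hC0.symm.index_eq_card.symm
      refine ⟨C0.map H0.subtype, ?_, m + k, ?_⟩
      · have : Nat.card (C0.map H0.subtype) = Nat.card C0 :=
          (Nat.card_congr (C0.equivMapOfInjective H0.subtype H0.subtype_injective).toEquiv).symm
        rw [this, hC0card]
        exact hH1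
      · rw [Subgroup.index_map_subtype, hi1, hC0.index_eq_card, hcardDs, hm, hk, pow_add]
    · refine ⟨H0, ?_, k, by rw [hi1, hk]⟩
      rw [hc1]
      intro hd
      rcases hr.dvd_mul.mp hd with h5 | h5
      · exact hH1 h5
      · exact not_dvd_of_isPGroup hsp hr hsr hDs h5

theorem mul_eq_univ {G : Type} [Group G] [Finite G] (A B : Subgroup G)
    (h : Nat.Coprime A.index B.index) : (A : Set G) * (B : Set G) = Set.univ := by
  have h1 : B.relIndex A * A.index = (B ⊓ A).index := by
    have := Subgroup.relIndex_mul_index (H := B ⊓ A) (K := A) inf_le_right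
    rwa [Subgroup.inf_relIndex_right] at this
  have h2 : A.index ∣ (B ⊓ A).index := Subgroup.index_dvd_of_le inf_le_right
  have h3 : B.index ∣ (B ⊓ A).index := Subgroup.index_dvd_of_le inf_le_left
  have h4 : A.index * B.index ∣ (B ⊓ A).index := h.mul_dvd_of_dvd_of_dvd h2 h3
  have h5 : 0 < A.index := Nat.pos_of_ne_zero A.index_ne_zero_of_finite
  have h6 : 0 < (B ⊓ A).index := Nat.pos_of_ne_zero (B ⊓ A).index_ne_zero_of_finite
  have h7 : B.index ≤ B.relIndex A := by
    have h8 := Nat.le_of_dvd h6 h4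
    rw [← h1, mul_comm (B.relIndex A)] at h8
    exact Nat.le_of_mul_le_mul_left h8 h5
  have h8 : B.relIndex (⊤ : Subgroup G) = B.index := Subgroup.relIndex_top_right B
  let f := Subgroup.quotientSubgroupOfEmbeddingOfLE B (le_top : A ≤ ⊤)
  have hf : Function.Bijective f := by
    have hle : B.relIndex A ≤ B.relIndex (⊤ : Subgroup G) :=
      Nat.card_le_card_of_injective f f.injective
    rw [Nat.bijective_iff_injective_and_card]
    refine ⟨f.injective, ?_⟩
    change B.relIndex A = B.relIndex (⊤ : Subgroup G)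
    exact le_antisymm hle (h8 ▸ h7)
  rw [Set.eq_univ_iff_forall]
  intro g
  obtain ⟨x, hx⟩ := hf.surjective (QuotientGroup.mk ⟨g, Subgroup.mem_top g⟩)
  obtain ⟨a, rfl⟩ := QuotientGroup.mk_surjective x
  have h9 : (QuotientGroup.mk (Subgroup.inclusion (le_top : A ≤ ⊤) a) :
      (⊤ : Subgroup G) ⧸ B.subgroupOf ⊤) = QuotientGroup.mk ⟨g, Subgroup.mem_top g⟩ := hx
  rw [QuotientGroup.eq, Subgroup.mem_subgroupOf] at h9
  refine ⟨a, a.2, (a : G)⁻¹ * g, h9, by simp⟩

/-- a group with at least three prime divisors, all of whose Hall subgroups for two primes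
lie in `F`. -/
theorem KF.of_hall (hF : KF F) : ∀ (n : ℕ) (G : Type) [Group G] [Finite G], Nat.card G ≤ n →
    Group.IsSolvable G →
    (∃ a b c : ℕ, a.Prime ∧ b.Prime ∧ c.Prime ∧ a ≠ b ∧ a ≠ c ∧ b ≠ c ∧ a ∣ Nat.card G ∧
      b ∣ Nat.card G ∧ c ∣ Nat.card G) →
    (∀ p q : ℕ, p.Prime → q.Prime → p ≠ q → p ∣ Nat.card G → q ∣ Nat.card G →
      ∀ H : Subgroup G, PQ p q H → ¬ p ∣ H.index → ¬ q ∣ H.index → F H) → F G := by
  intro n
  induction n with
  | zero =>
    intro W _ _ hc
    have := Nat.card_pos (α := W)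
    omega
  | succ n ih =>
    intro G _ _ hc hs h3 hyp
    have side : ∀ r s t : ℕ, r.Prime → s.Prime → t.Prime → s ≠ t → r ≠ s → r ≠ t →
        r ∣ Nat.card G → s ∣ Nat.card G → t ∣ Nat.card G →
        ∃ H : Subgroup G, F H ∧ ∃ k, H.index = r ^ k := by
      intro r s t hr hs' ht hst hrs hrt hrd hsd htd
      obtain ⟨H, hH, k, hk⟩ := exists_hall hr _ G le_rfl hs
      refine ⟨H, ?_, k, hk⟩
      have hcard : Nat.card H * H.index = Nat.card G := Subgroup.card_mul_index H
      have hdvd : ∀ u : ℕ, u.Prime → u ≠ r → u ∣ Nat.card G → u ∣ Nat.card H := by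
        intro u hu hur hud
        rw [← hcard] at hud
        rcases hu.dvd_mul.mp hud with h4 | h4
        · exact h4
        · rw [hk] at h4
          exact absurd ((Nat.prime_dvd_prime_iff_eq hu hr).mp (hu.dvd_of_dvd_pow h4)) hur
      have hnd : ∀ u : ℕ, u.Prime → u ∣ Nat.card H → ¬ u ∣ H.index := by
        intro u hu hud hd
        rw [hk] at hd
        have := (Nat.prime_dvd_prime_iff_eq hu hr).mp (hu.dvd_of_dvd_pow hd)
        exact hH (this ▸ hud)
      have hlt : Nat.card H < Nat.card G := by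
        refine lt_of_le_of_ne (Nat.le_of_dvd Nat.card_pos (Subgroup.card_subgroup_dvd_card H)) ?_
        intro h4
        exact hH (h4 ▸ hrd)
      have hsH := hdvd s hs' hrs.symm hsd
      have htH := hdvd t ht hrt.symm htd
      have hsolH : Group.IsSolvable H := inferInstance
      by_cases hex : ∃ u : ℕ, u.Prime ∧ u ∣ Nat.card H ∧ u ≠ s ∧ u ≠ t
      · obtain ⟨u, hu, hud, hus, hut⟩ := hex
        refine ih H (by omega) hsolH ⟨u, s, t, hu, hs', ht, hus, hut, hst, hud, hsH, htH⟩ ?_
        intro p q hp hq hpq hpd hqd K hK hpK hqK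
        have hcG : Nat.card H ∣ Nat.card G := Subgroup.card_subgroup_dvd_card H
        have e : K ≃* K.map H.subtype := K.equivMapOfInjective _ H.subtype_injective
        have hcK : Nat.card (K.map H.subtype) = Nat.card K := (Nat.card_congr e.toEquiv).symm
        refine hF.iso _ _ e.symm (hyp p q hp hq hpq (hpd.trans hcG) (hqd.trans hcG)
          (K.map H.subtype) ?_ ?_ ?_)
        · intro v hv hvd
          rw [hcK] at hvd
          exact hK v hv hvd
        · rw [Subgroup.index_map_subtype]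
          intro hd
          rcases hp.dvd_mul.mp hd with h4 | h4
          · exact hpK h4
          · exact hnd p hp hpd h4
        · rw [Subgroup.index_map_subtype]
          intro hd
          rcases hq.dvd_mul.mp hd with h4 | h4
          · exact hqK h4
          · exact hnd q hq hqd h4
      · push Not at hex
        refine hyp s t hs' ht hst hsd htd H ?_ (hnd s hs' hsH) (hnd t ht htH)
        intro u hu hud
        by_cases hus : u = s
        · exact Or.inl hus
        · exact Or.inr (hex u hu hud hus)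
    obtain ⟨a, b, c, ha, hb, hc', hab, hac, hbc, had, hbd, hcd⟩ := h3
    obtain ⟨A, hA, k1, hk1⟩ := side a b c ha hb hc' hbc hab hac had hbd hcd
    obtain ⟨B, hB, k2, hk2⟩ := side b a c hb ha hc' hac hab.symm hbc hbd had hcd
    obtain ⟨C, hC, k3, hk3⟩ := side c a b hc' ha hb hab hac.symm hbc.symm hcd had hbd
    refine hF.keg G A B C (mul_eq_univ A B ?_) (mul_eq_univ B C ?_) (mul_eq_univ C A ?_) hA hB hC
    · rw [hk1, hk2]
      exact Nat.Coprime.pow _ _ ((Nat.coprime_primes ha hb).mpr hab)
    · rw [hk2, hk3]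
      exact Nat.Coprime.pow _ _ ((Nat.coprime_primes hb hc').mpr hbc)
    · rw [hk3, hk1]
      exact Nat.Coprime.pow _ _ ((Nat.coprime_primes hc' ha).mpr hac.symm)

/-- The main theorem. -/
theorem KF.main (hF : KF F) {G : Type} [Group G] [Finite G] (N : Subgroup G) [N.Normal]
    (hN : N ≤ frattini G) (h : F (G ⧸ N))
    (hyp : ∀ p q : ℕ, p.Prime → q.Prime → p ≠ q → p ∣ Nat.card (G ⧸ N) →
      q ∣ Nat.card (G ⧸ N) → ∀ H : Subgroup (G ⧸ N), PQ p q H → ¬ p ∣ H.index →
      ¬ q ∣ H.index → F H) : F G := by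
  have hs : Group.IsSolvable G := solv_of_frattini hN (hF.sol _ h)
  by_cases h3 : ∃ a b c : ℕ, a.Prime ∧ b.Prime ∧ c.Prime ∧ a ≠ b ∧ a ≠ c ∧ b ≠ c ∧
      a ∣ Nat.card G ∧ b ∣ Nat.card G ∧ c ∣ Nat.card G
  · refine hF.of_hall _ G le_rfl hs h3 ?_
    intro p q hp hq hpq hpd hqd H hH hpi hqi
    have : Fact p.Prime := ⟨hp⟩
    have : Fact q.Prime := ⟨hq⟩
    refine hF.hall_sat hpq hs N hN H hH hpi hqi ?_
    have hi : (H.map (QuotientGroup.mk' N)).index ∣ H.index :=
      H.index_map_dvd (QuotientGroup.mk'_surjective N)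
    exact hyp p q hp hq hpq (dvd_index_of_le_frattini hN hp hpd)
      (dvd_index_of_le_frattini hN hq hqd) _
      (fun r hr hd => hH r hr (hd.trans (Subgroup.card_map_dvd H _)))
      (fun hd => hpi (hd.trans hi)) (fun hd => hqi (hd.trans hi))
  · have hpair : ∃ p q : ℕ, p.Prime ∧ q.Prime ∧ p ≠ q ∧ PQ p q G := by
      by_cases h1 : ∃ a : ℕ, a.Prime ∧ a ∣ Nat.card G
      · obtain ⟨a, ha, had⟩ := h1
        by_cases h2 : ∃ b : ℕ, b.Prime ∧ b ∣ Nat.card G ∧ a ≠ b
        · obtain ⟨b, hb, hbd, hab⟩ := h2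
          refine ⟨a, b, ha, hb, hab, ?_⟩
          intro r hr hrd
          by_contra hne
          push Not at hne
          exact h3 ⟨a, b, r, ha, hb, hr, hab, hne.1.symm, hne.2.symm, had, hbd, hrd⟩
        · push Not at h2
          obtain ⟨b, hb1, hb⟩ := Nat.exists_infinite_primes (a + 1)
          refine ⟨a, b, ha, hb, by omega, ?_⟩
          intro r hr hrd
          exact Or.inl (h2 r hr hrd).symm
      · push Not at h1
        refine ⟨2, 3, Nat.prime_two, Nat.prime_three, by norm_num, ?_⟩
        intro r hr hrd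
        exact absurd hrd (h1 r hr)
    obtain ⟨p, q, hp, hq, hpq, hPQ⟩ := hpair
    have : Fact p.Prime := ⟨hp⟩
    have : Fact q.Prime := ⟨hq⟩
    exact hF.sat hpq hPQ N hN h

end Pool.Agent.KegelFF
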