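import Pool.Agent.Lib.MP_a2b075_al.Ext

set_option autoImplicit false
open scoped Pointwise
open SemidirectProduct

namespace Pool.Agent.KegelFF

variable {F : ∀ (G : Type) [Group G], Prop}

theorem nilp_of_le_frattini {G : Type} [Group G] [Finite G] {N : Subgroup G}
    (hN : N ≤ frattini G) : Group.IsNilpotent N := by
  have h1 : Group.IsNilpotent (frattini G) := frattini_nilpotent
  have h2 : Group.IsNilpotent (N.subgroupOf (frattini G)) := inferInstance
  exact (Group.isNilpotent_congr (Subgroup.subgroupOfEquivOfLe hN)).mp h2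

theorem QC_of_nilp (r : ℕ) [Fact r.Prime] {G : Type} [Group G] [Finite G]
    (h : Group.IsNilpotent G) : QC r G := by
  let P : Sylow r G := default
  exact ⟨P, inferInstance, P.isPGroup', P.not_dvd_index⟩

theorem QC_sylow_normal {r : ℕ} [Fact r.Prime] {G : Type} [Group G] [Finite G] (h : QC r G)
    (P : Sylow r G) : (P : Subgroup G).Normal := by
  obtain ⟨N, hN, hp, hi⟩ := h
  have hle : (P : Subgroup G) ≤ N := by
    intro x hx
    refine (mem_iff_pow hp hi x).mpr ?_
    obtain ⟨k, hk⟩ := P.isPGroup' ⟨x, hx⟩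
    exact ⟨k, by simpa using congrArg Subtype.val hk⟩
  have := P.is_maximal' hp hle
  rw [← this]
  exact hN

theorem nilp_of_QC {p q : ℕ} [Fact p.Prime] [Fact q.Prime] {G : Type} [Group G] [Finite G]
    (hPQ : PQ p q G) (h1 : QC p G) (h2 : QC q G) : Group.IsNilpotent G := by
  have q4 := (Group.isNilpotent_of_finite_tfae (G := G)).out 0 3
  rw [q4]
  intro r hr P
  by_cases hrp : r = p
  · subst hrp
    exact QC_sylow_normal h1 P
  by_cases hrq : r = q
  · subst hrq
    exact QC_sylow_normal h2 P
  have hnd : ¬ r ∣ Nat.card G := by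
    intro hd
    rcases hPQ r hr.out hd with h | h
    · exact hrp h
    · exact hrq h
  have : (P : Subgroup G) = ⊥ := by
    rw [Subgroup.eq_bot_iff_card, P.card_eq_multiplicity,
      Nat.factorization_eq_zero_of_not_dvd hnd, pow_zero]
  rw [this]
  infer_instance

/-- prime divisors are visible modulo the Frattini subgroup. -/
theorem dvd_index_of_le_frattini {G : Type} [Group G] [Finite G] {N : Subgroup G} [N.Normal]
    (hN : N ≤ frattini G) {r : ℕ} (hr : r.Prime) (hd : r ∣ Nat.card G) : r ∣ N.index := by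
  have : Fact r.Prime := ⟨hr⟩
  by_contra hi
  have h1 : QC r N := QC_of_nilp r (nilp_of_le_frattini hN)
  obtain ⟨T, hT, hTp, hTi⟩ := QC.of_normal N h1 hi
  have hTN : T ≤ N := by
    intro x hx
    obtain ⟨k, hk⟩ := (mem_iff_pow hTp hTi x).mp hx
    have h2 : orderOf (QuotientGroup.mk' N x) ∣ r ^ k :=
      orderOf_dvd_of_pow_eq_one (by rw [← map_pow, hk, map_one])
    have h3 : orderOf (QuotientGroup.mk' N x) ∣ N.index := orderOf_dvd_natCard _
    have h4 : Nat.Coprime (r ^ k) N.index :=
      Nat.Coprime.pow_left _ ((Nat.Prime.coprime_iff_not_dvd hr).mpr hi)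
    have h5 : orderOf (QuotientGroup.mk' N x) = 1 := Nat.eq_one_of_dvd_coprimes h4 h2 h3
    rw [orderOf_eq_one_iff] at h5
    rwa [← MonoidHom.mem_ker, QuotientGroup.ker_mk'] at h5
  obtain ⟨n, hn⟩ := IsPGroup.iff_card.mp hTp
  have hcop : Nat.Coprime (Nat.card T) T.index := by
    rw [hn]
    exact Nat.Coprime.pow_left _ ((Nat.Prime.coprime_iff_not_dvd hr).mpr hTi)
  obtain ⟨K, hK⟩ := Subgroup.exists_right_complement'_of_coprime hcop
  have hKt : K = ⊤ := by
    apply frattini_nongenerating
    rw [eq_top_iff, ← hK.sup_eq_top, sup_comm]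
    exact sup_le_sup_left (hTN.trans hN) K
  subst hKt
  rw [Subgroup.isComplement'_top_right] at hK
  subst hK
  rw [Subgroup.index_bot] at hTi
  exact hTi hd

/-- the class of `q`-closed groups is saturated. -/
theorem QC.of_frattini {r : ℕ} [Fact r.Prime] {G : Type} [Group G] [Finite G] {N : Subgroup G}
    [N.Normal] (hN : N ≤ frattini G) (h : QC r (G ⧸ N)) : QC r G := by
  have hr : r.Prime := Fact.out
  obtain ⟨T, hT, hTp, hTi⟩ := h
  have hEn : (T.comap (QuotientGroup.mk' N)).Normal := hT.comap _
  set E := T.comap (QuotientGroup.mk' N) with hE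
  have hNE : N ≤ E := by
    intro x hx
    rw [hE, Subgroup.mem_comap]
    have : QuotientGroup.mk' N x = 1 := by
      rw [← MonoidHom.mem_ker, QuotientGroup.ker_mk']; exact hx
    rw [this]
    exact T.one_mem
  let P : Sylow r E := default
  have hPE : (P : Subgroup E) ⊔ N.subgroupOf E = ⊤ := by
    rw [← Subgroup.index_eq_one]
    have h1 : ((P : Subgroup E) ⊔ N.subgroupOf E).index ∣ (P : Subgroup E).index :=
      Subgroup.index_dvd_of_le le_sup_left
    have h2 : ((P : Subgroup E) ⊔ N.subgroupOf E).index ∣ (N.subgroupOf E).index :=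
      Subgroup.index_dvd_of_le le_sup_right
    have h3 : ¬ r ∣ (P : Subgroup E).index := P.not_dvd_index
    have h4 : ∃ n, (N.subgroupOf E).index = r ^ n := by
      have h5 : (N.subgroupOf E).index * E.index = N.index := Subgroup.relIndex_mul_index hNE
      have h6 : E.index = T.index := Subgroup.index_comap_of_surjective _ (QuotientGroup.mk'_surjective N)
      have h7 : Nat.card T * T.index = N.index := Subgroup.card_mul_index T
      have h8 : (N.subgroupOf E).index = Nat.card T := by
        have h9 : 0 < T.index := Nat.pos_of_ne_zero T.index_ne_zero_of_finite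
        rw [h6, ← h7] at h5
        exact Nat.eq_of_mul_eq_mul_right h9 h5
      rw [h8]
      exact IsPGroup.iff_card.mp hTp
    obtain ⟨n, hn⟩ := h4
    rw [hn] at h2
    have h5 : Nat.Coprime (r ^ n) (P : Subgroup E).index :=
      Nat.Coprime.pow_left _ ((Nat.Prime.coprime_iff_not_dvd hr).mpr h3)
    exact Nat.eq_one_of_dvd_coprimes h5 h2 h1
  have hfr := Sylow.normalizer_sup_eq_top P
  set P' : Subgroup G := (P : Subgroup E).map E.subtype with hP'
  have hEle : E ≤ Subgroup.normalizer (P' : Set G) ⊔ frattini G := by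
    have h1 : E = P' ⊔ N := by
      have h2 := congrArg (Subgroup.map E.subtype) hPE
      rw [Subgroup.map_sup, Subgroup.subgroupOf_map_subtype, inf_of_le_left hNE,
        ← MonoidHom.range_eq_map, Subgroup.range_subtype] at h2
      exact h2.symm
    calc E = P' ⊔ N := h1
      _ ≤ _ := sup_le_sup Subgroup.le_normalizer hN
  have htop : Subgroup.normalizer (P' : Set G) = ⊤ := by
    apply frattini_nongenerating
    rw [eq_top_iff, ← hfr]
    exact sup_le le_sup_left hEle
  have hPn : P'.Normal := Subgroup.normalizer_eq_top_iff.mp htop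
  refine ⟨P', hPn, P.isPGroup'.map _, ?_⟩
  rw [hP', Subgroup.index_map_subtype]
  intro hd
  rcases hr.dvd_mul.mp hd with h1 | h1
  · exact P.not_dvd_index h1
  · rw [hE, Subgroup.index_comap_of_surjective _ (QuotientGroup.mk'_surjective N)] at h1
    exact hTi h1

theorem solv_of_frattini {G : Type} [Group G] [Finite G] {N : Subgroup G}
    [N.Normal] (hN : N ≤ frattini G) (h : Group.IsSolvable (G ⧸ N)) : Group.IsSolvable G := by
  have h1 : Group.IsNilpotent N := nilp_of_le_frattini hN
  have h2 : Group.IsSolvable N := inferInstance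
  exact Group.isSolvable_of_ker_le_range N.subtype (QuotientGroup.mk' N) (by simp)

end Pool.Agent.KegelFF
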