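import Pool.Agent.Lib.MP_a2b075_al.EPart3

set_option autoImplicit false
open scoped Pointwise

namespace Pool.Agent.KegelFF

variable {F : ∀ (G : Type) [Group G], Prop}

/-- Hall `{p,q}`-subgroups modulo the Frattini subgroup. -/
theorem KF.hall_sat (hF : KF F) {p q : ℕ} [Fact p.Prime] [Fact q.Prime] (hpq : p ≠ q)
    {G : Type} [Group G] [Finite G] (hs : Group.IsSolvable G) (N : Subgroup G) [N.Normal]
    (hN : N ≤ frattini G) (H : Subgroup G) (hPQ : PQ p q H) (hp : ¬ p ∣ H.index)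
    (hq : ¬ q ∣ H.index) (h : F (H.map (QuotientGroup.mk' N))) : F H := by
  have hpp : p.Prime := Fact.out
  have hqp : q.Prime := Fact.out
  have hsur := QuotientGroup.mk'_surjective N
  have hsq : Group.IsSolvable (G ⧸ N) := inferInstance
  have hsH : Group.IsSolvable H := inferInstance
  set Hb := H.map (QuotientGroup.mk' N) with hHb
  have hi : Hb.index ∣ H.index := H.index_map_dvd hsur
  have hpi : ¬ p ∣ Hb.index := fun hd => hp (hd.trans hi)
  have hqi : ¬ q ∣ Hb.index := fun hd => hq (hd.trans hi)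
  have hPQb : PQ p q Hb := fun r hr hd => hPQ r hr (hd.trans (Subgroup.card_map_dvd H _))
  have key : ∀ (a b : ℕ) [Fact a.Prime] [Fact b.Prime], a ≠ b → PQ a b H → ¬ a ∣ H.index →
      ¬ b ∣ H.index → QC a Hb → QC a H := by
    intro a b _ _ hab h1 h2 h3 h4
    have h5 : E a b (G ⧸ N) := E_of_hall hab _ (G ⧸ N) le_rfl hsq Hb
      (fun hd => h2 (hd.trans hi)) (fun hd => h3 (hd.trans hi)) h4
    exact QC_of_E (E_frattini hab _ G le_rfl N hN h5) H h1
  have key2 : ∀ a : ℕ, a.Prime → ¬ a ∣ H.index → a ∣ Nat.card H → a ∣ Nat.card Hb := by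
    intro a ha h2 hd
    have h3 : a ∣ N.index := dvd_index_of_le_frattini hN ha
      (hd.trans (Subgroup.card_subgroup_dvd_card H))
    have h4 : Nat.card Hb * Hb.index = N.index := Subgroup.card_mul_index Hb
    rw [← h4] at h3
    rcases ha.dvd_mul.mp h3 with h5 | h5
    · exact h5
    · exact absurd (h5.trans hi) h2
  rcases hF.kind hpq with hk | hk | hk | hk | hk | hk | hk | hk
  · exact (hk H hPQ).mpr hsH
  · exact (hk H hPQ).mpr (key p q hpq hPQ hp hq ((hk Hb hPQb).mp h))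
  · exact (hk H hPQ).mpr (key q p hpq.symm hPQ.symm hq hp ((hk Hb hPQb).mp h))
  · have h1 := (hk Hb hPQb).mp h
    exact (hk H hPQ).mpr (nilp_of_QC hPQ (key p q hpq hPQ hp hq (QC_of_nilp p h1))
      (key q p hpq.symm hPQ.symm hq hp (QC_of_nilp q h1)))
  · refine (hk H hPQ).mpr (isPGroup_of_PQ hPQ fun hd => ?_)
    exact not_dvd_of_isPGroup hpp hqp hpq ((hk Hb hPQb).mp h) (key2 q hqp hq hd)
  · refine (hk H hPQ).mpr (isPGroup_of_PQ hPQ.symm fun hd => ?_)
    exact not_dvd_of_isPGroup hqp hpp hpq.symm ((hk Hb hPQb).mp h) (key2 p hpp hp hd)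
  · have h1 : Nat.card Hb = 1 := (hk Hb hPQb).mp h
    refine (hk H hPQ).mpr (hPQ.card_one (fun hd => ?_) (fun hd => ?_))
    · have := key2 p hpp hp hd
      rw [h1] at this
      exact hpp.one_lt.ne' (Nat.dvd_one.mp this)
    · have := key2 q hqp hq hd
      rw [h1] at this
      exact hqp.one_lt.ne' (Nat.dvd_one.mp this)
  · exact absurd h (hk Hb hPQb)

end Pool.Agent.KegelFF
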