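import Pool.Agent.Lib.MP_a2b075_al.Final

set_option autoImplicit false
open scoped Pointwise

namespace Pool.Agent.KegelFF

variable {F : ∀ (G : Type) [Group G], Prop}

section Heis

variable {X R : Type} [Group X] [CommRing R]

/-- The Heisenberg group over `R`, extended by `X`. -/
@[ext] structure Hb (θ : X →* RingAut R) where
  /-- first coordinate -/
  a : R
  /-- second coordinate -/
  b : R
  /-- central coordinate -/
  c : R
  /-- top coordinate -/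
  x : X

variable (θ : X →* RingAut R)

instance : Mul (Hb θ) :=
  ⟨fun g h => ⟨g.a + θ g.x h.a, g.b + θ g.x h.b, g.c + θ g.x h.c + g.a * θ g.x h.b, g.x * h.x⟩⟩

instance : One (Hb θ) := ⟨⟨0, 0, 0, 1⟩⟩

instance : Inv (Hb θ) :=
  ⟨fun g => ⟨-θ g.x⁻¹ g.a, -θ g.x⁻¹ g.b, θ g.x⁻¹ (g.a * g.b - g.c), g.x⁻¹⟩⟩

@[simp] theorem Hb.mul_a (g h : Hb θ) : (g * h).a = g.a + θ g.x h.a := rfl
@[simp] theorem Hb.mul_b (g h : Hb θ) : (g * h).b = g.b + θ g.x h.b := rfl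
@[simp] theorem Hb.mul_c (g h : Hb θ) :
    (g * h).c = g.c + θ g.x h.c + g.a * θ g.x h.b := rfl
@[simp] theorem Hb.mul_x (g h : Hb θ) : (g * h).x = g.x * h.x := rfl
@[simp] theorem Hb.one_a : (1 : Hb θ).a = 0 := rfl
@[simp] theorem Hb.one_b : (1 : Hb θ).b = 0 := rfl
@[simp] theorem Hb.one_c : (1 : Hb θ).c = 0 := rfl
@[simp] theorem Hb.one_x : (1 : Hb θ).x = 1 := rfl
@[simp] theorem Hb.inv_a (g : Hb θ) : (g⁻¹).a = -θ g.x⁻¹ g.a := rfl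
@[simp] theorem Hb.inv_b (g : Hb θ) : (g⁻¹).b = -θ g.x⁻¹ g.b := rfl
@[simp] theorem Hb.inv_c (g : Hb θ) : (g⁻¹).c = θ g.x⁻¹ (g.a * g.b - g.c) := rfl
@[simp] theorem Hb.inv_x (g : Hb θ) : (g⁻¹).x = g.x⁻¹ := rfl

theorem theta_mul (x y : X) (r : R) : θ (x * y) r = θ x (θ y r) := by
  rw [map_mul]; rfl

theorem theta_one (r : R) : θ 1 r = r := by
  rw [map_one]; rfl

instance : Group (Hb θ) :=
  Group.ofLeftAxioms
    (fun g h k => by
      refine Hb.ext ?_ ?_ ?_ ?_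
      · simp only [Hb.mul_a, Hb.mul_x, theta_mul, map_add]; ring
      · simp only [Hb.mul_b, Hb.mul_x, theta_mul, map_add]; ring
      · simp only [Hb.mul_c, Hb.mul_a, Hb.mul_b, Hb.mul_x, theta_mul, map_add, map_mul (θ g.x)]
        ring
      · simp only [Hb.mul_x, mul_assoc])
    (fun g => by
      refine Hb.ext ?_ ?_ ?_ ?_ <;> simp [theta_one])
    (fun g => by
      refine Hb.ext ?_ ?_ ?_ ?_
      · simp
      · simp
      · simp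
      · simp)

instance [Finite X] [Finite R] : Finite (Hb θ) :=
  Finite.of_injective (fun g : Hb θ => (g.a, g.b, g.c, g.x)) (by
    rintro ⟨a, b, c, x⟩ ⟨a', b', c', x'⟩ h
    simp only [Prod.mk.injEq] at h
    obtain ⟨rfl, rfl, rfl, rfl⟩ := h
    rfl)

/-- The subgroup with coordinates in `A`, `B`, `C`. -/
def Sb (A B C : AddSubgroup R) (hA : ∀ x, ∀ r ∈ A, θ x r ∈ A) (hB : ∀ x, ∀ r ∈ B, θ x r ∈ B)
    (hC : ∀ x, ∀ r ∈ C, θ x r ∈ C) (hAB : ∀ a ∈ A, ∀ b ∈ B, a * b ∈ C) : Subgroup (Hb θ) where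
  carrier := {g | g.a ∈ A ∧ g.b ∈ B ∧ g.c ∈ C}
  one_mem' := ⟨A.zero_mem, B.zero_mem, C.zero_mem⟩
  mul_mem' := by
    rintro g h ⟨ga, gb, gc⟩ ⟨ha, hb, hc⟩
    exact ⟨A.add_mem ga (hA _ _ ha), B.add_mem gb (hB _ _ hb),
      C.add_mem (C.add_mem gc (hC _ _ hc)) (hAB _ ga _ (hB _ _ hb))⟩
  inv_mem' := by
    rintro g ⟨ga, gb, gc⟩
    exact ⟨A.neg_mem (hA _ _ ga), B.neg_mem (hB _ _ gb), hC _ _ (C.sub_mem (hAB _ ga _ gb) gc)⟩

/-- The subgroup `W X` in the last two coordinates. -/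
def S0 (W : AddSubgroup R) (hW : ∀ x, ∀ r ∈ W, θ x r ∈ W) : Subgroup (Hb θ) where
  carrier := {g | g.a = 0 ∧ g.b = 0 ∧ g.c ∈ W}
  one_mem' := ⟨rfl, rfl, W.zero_mem⟩
  mul_mem' := by
    rintro g h ⟨ga, gb, gc⟩ ⟨ha, hb, hc⟩
    refine ⟨by simp [ga, ha], by simp [gb, hb], ?_⟩
    simp only [Hb.mul_c, ga, zero_mul, add_zero]
    exact W.add_mem gc (hW _ _ hc)
  inv_mem' := by
    rintro g ⟨ga, gb, gc⟩
    refine ⟨by simp [ga], by simp [gb], ?_⟩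
    simp only [Hb.inv_c, ga, zero_mul, zero_sub]
    exact hW _ _ (W.neg_mem gc)

/-- `W` is invariant and `W X` lies in `F`. -/
def InW (F : ∀ (G : Type) [Group G], Prop) (W : AddSubgroup R) : Prop :=
  ∃ hW : ∀ x, ∀ r ∈ W, θ x r ∈ W, F (S0 θ W hW)

/-- sums -/
theorem InW.sup (hF : KF F) [Finite X] [Finite R] {W1 W2 : AddSubgroup R} (h1 : InW θ F W1)
    (h2 : InW θ F W2) : InW θ F (W1 ⊔ W2) := by
  obtain ⟨i1, f1⟩ := h1
  obtain ⟨i2, f2⟩ := h2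
  have i3 : ∀ x, ∀ r ∈ W1 ⊔ W2, θ x r ∈ W1 ⊔ W2 := by
    intro x r hr
    obtain ⟨a, ha, b, hb, rfl⟩ := AddSubgroup.mem_sup.mp hr
    rw [map_add]
    exact AddSubgroup.add_mem_sup (i1 x a ha) (i2 x b hb)
  refine ⟨i3, ?_⟩
  let D : Subgroup (S0 θ W1 i1 × S0 θ W2 i2) :=
    { carrier := {z | z.1.1.x = z.2.1.x}
      one_mem' := rfl
      mul_mem' := by
        rintro z w hz hw
        change z.1.1.x * w.1.1.x = z.2.1.x * w.2.1.x
        rw [show z.1.1.x = z.2.1.x from hz, show w.1.1.x = w.2.1.x from hw]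
      inv_mem' := by
        rintro z hz
        change (z.1.1.x)⁻¹ = (z.2.1.x)⁻¹
        rw [show z.1.1.x = z.2.1.x from hz] }
  have hD : F D := by
    refine hF.sub2 ((MonoidHom.fst _ _).comp D.subtype) ((MonoidHom.snd _ _).comp D.subtype)
      ?_ ?_ ?_
    · refine hF.range_of_surj _ ?_ f1
      intro g
      exact ⟨⟨(g, ⟨⟨0, 0, 0, g.1.x⟩, rfl, rfl, W2.zero_mem⟩), rfl⟩, rfl⟩
    · refine hF.range_of_surj _ ?_ f2
      intro g
      exact ⟨⟨(⟨⟨0, 0, 0, g.1.x⟩, rfl, rfl, W1.zero_mem⟩, g), rfl⟩, rfl⟩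
    · rintro ⟨⟨a, b⟩, hab⟩ h1 h2
      have h1' : a = 1 := h1
      have h2' : b = 1 := h2
      subst h1' h2'
      rfl
  let f : D →* S0 θ (W1 ⊔ W2) i3 :=
    { toFun := fun z => ⟨⟨0, 0, z.1.1.1.c + z.1.2.1.c, z.1.1.1.x⟩, rfl, rfl,
        AddSubgroup.add_mem_sup z.1.1.2.2.2 z.1.2.2.2.2⟩
      map_one' := Subtype.ext (Hb.ext rfl rfl (by simp) rfl)
      map_mul' := by
        rintro ⟨⟨g, h⟩, hz⟩ ⟨⟨g', h'⟩, hz'⟩
        have hgh : g.1.x = h.1.x := hz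
        refine Subtype.ext (Hb.ext (by simp) (by simp) ?_ (by simp))
        have ga : g.1.a = 0 := g.2.1
        have ha : h.1.a = 0 := h.2.1
        simp only [Prod.mk_mul_mk, Subgroup.coe_mul, Hb.mul_c, MulMemClass.mk_mul_mk,
          MulMemClass.coe_mul, ga, ha, hgh, zero_mul, add_zero, map_add]
        ring }
  refine hF.img f ?_ hD
  rintro ⟨⟨a, b, c, x⟩, ha, hb, hc⟩
  change a = 0 at ha
  change b = 0 at hb
  subst ha hb
  obtain ⟨c1, hc1, c2, hc2, hcc⟩ := AddSubgroup.mem_sup.mp (show c ∈ W1 ⊔ W2 from hc)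
  refine ⟨⟨(⟨⟨0, 0, c1, x⟩, rfl, rfl, hc1⟩, ⟨⟨0, 0, c2, x⟩, rfl, rfl, hc2⟩), rfl⟩, ?_⟩
  exact Subtype.ext (Hb.ext rfl rfl hcc rfl)

end Heis

end Pool.Agent.KegelFF
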