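import Pool.Agent.Lib.MP_a2b075_al.Heis

set_option autoImplicit false
open scoped Pointwise

namespace Pool.Agent.KegelFF

variable {F : ∀ (G : Type) [Group G], Prop}

theorem le_frattini {G : Type} [Group G] {N : Subgroup G}
    (h : ∀ M : Subgroup G, IsCoatom M → N ≤ M) : N ≤ frattini G := by
  unfold frattini Order.radical
  exact le_iInf₂ fun M hM => h M hM

section Heis

variable {X R : Type} [Group X] [CommRing R] (θ : X →* RingAut R)

/-- the span of the products of elements of `W` -/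
def prodSpan (W : AddSubgroup R) : AddSubgroup R :=
  AddSubgroup.closure {r | ∃ a ∈ W, ∃ b ∈ W, r = a * b}

theorem mul_mem_prodSpan {W : AddSubgroup R} {a b : R} (ha : a ∈ W) (hb : b ∈ W) :
    a * b ∈ prodSpan W := AddSubgroup.subset_closure ⟨a, ha, b, hb, rfl⟩

theorem prodSpan_inv {W : AddSubgroup R} (hW : ∀ x, ∀ r ∈ W, θ x r ∈ W) :
    ∀ x, ∀ r ∈ prodSpan W, θ x r ∈ prodSpan W := by
  intro x r hr
  induction hr using AddSubgroup.closure_induction with
  | mem r hr =>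
    obtain ⟨a, ha, b, hb, rfl⟩ := hr
    rw [map_mul]
    exact mul_mem_prodSpan (hW x a ha) (hW x b hb)
  | zero => rw [map_zero]; exact AddSubgroup.zero_mem _
  | add r s _ _ h1 h2 => rw [map_add]; exact AddSubgroup.add_mem _ h1 h2
  | neg r _ h1 => rw [map_neg]; exact AddSubgroup.neg_mem _ h1

/-- products -/
theorem InW.prod (hF : KF F)
    (hsat : ∀ (G : Type) [Group G] [Finite G] (N : Subgroup G) [N.Normal],
      N ≤ frattini G → F (G ⧸ N) → F G)
    [Finite X] [Finite R] {W : AddSubgroup R} (h1 : InW θ F W) : InW θ F (prodSpan W) := by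
  obtain ⟨i1, f1⟩ := h1
  have iT := prodSpan_inv θ i1
  refine ⟨iT, ?_⟩
  let G1 : Subgroup (Hb θ) := Sb θ W W (prodSpan W) i1 i1 iT (fun a ha b hb =>
    mul_mem_prodSpan ha hb)
  let π1 : G1 →* S0 θ W i1 :=
    { toFun := fun g => ⟨⟨0, 0, g.1.a, g.1.x⟩, rfl, rfl, g.2.1⟩
      map_one' := rfl
      map_mul' := fun g h => Subtype.ext (Hb.ext (by simp) (by simp) (by simp) rfl) }
  let π2 : G1 →* S0 θ W i1 :=
    { toFun := fun g => ⟨⟨0, 0, g.1.b, g.1.x⟩, rfl, rfl, g.2.2.1⟩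
      map_one' := rfl
      map_mul' := fun g h => Subtype.ext (Hb.ext (by simp) (by simp) (by simp) rfl) }
  have hπ1 : Function.Surjective π1 := by
    rintro ⟨⟨a, b, c, x⟩, ha, hb, hc⟩
    change a = 0 at ha
    change b = 0 at hb
    subst ha hb
    exact ⟨⟨⟨c, 0, 0, x⟩, hc, W.zero_mem, AddSubgroup.zero_mem _⟩, rfl⟩
  have hπ2 : Function.Surjective π2 := by
    rintro ⟨⟨a, b, c, x⟩, ha, hb, hc⟩
    change a = 0 at ha
    change b = 0 at hb
    subst ha hb
    exact ⟨⟨⟨0, c, 0, x⟩, W.zero_mem, hc, AddSubgroup.zero_mem _⟩, rfl⟩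
  have hq1 : F (G1 ⧸ π1.ker) :=
    hF.iso _ _ (QuotientGroup.quotientKerEquivOfSurjective π1 hπ1).symm f1
  have hq2 : F (G1 ⧸ π2.ker) :=
    hF.iso _ _ (QuotientGroup.quotientKerEquivOfSurjective π2 hπ2).symm f1
  have hq := hF.res G1 π1.ker π2.ker hq1 hq2
  have hker : ∀ g : G1, g ∈ π1.ker ⊓ π2.ker → g.1.a = 0 ∧ g.1.b = 0 ∧ g.1.x = 1 := by
    rintro g ⟨h1, h2⟩
    have h1' : π1 g = 1 := h1
    have h2' : π2 g = 1 := h2
    refine ⟨?_, ?_, ?_⟩
    · exact congrArg (fun z : S0 θ W i1 => z.1.c) h1'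
    · exact congrArg (fun z : S0 θ W i1 => z.1.c) h2'
    · exact congrArg (fun z : S0 θ W i1 => z.1.x) h1'
  have hfr : π1.ker ⊓ π2.ker ≤ frattini G1 := by
    refine le_frattini fun M hM => ?_
    by_contra hle
    have htop : M ⊔ (π1.ker ⊓ π2.ker) = ⊤ := by
      refine hM.2 _ (lt_of_le_of_ne le_sup_left ?_)
      intro he
      exact hle (he ▸ le_sup_right)
    have hsup : ∀ g : G1, ∃ m ∈ M, m.1.a = g.1.a ∧ m.1.b = g.1.b ∧ m.1.x = g.1.x := by
      intro g
      have hg : g ∈ M ⊔ (π1.ker ⊓ π2.ker) := by rw [htop]; trivial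
      obtain ⟨m, hm, k, hk, hmk⟩ := Subgroup.mem_sup_of_normal_right.mp hg
      obtain ⟨k1, k2, k3⟩ := hker k hk
      refine ⟨m, hm, ?_, ?_, ?_⟩
      · rw [← hmk]; simp [k1]
      · rw [← hmk]; simp [k2]
      · rw [← hmk]; simp [k3]
    have hcent : ∀ t (ht : t ∈ prodSpan W),
        (⟨⟨0, 0, t, 1⟩, W.zero_mem, W.zero_mem, ht⟩ : G1) ∈ M := by
      intro t ht
      induction ht using AddSubgroup.closure_induction with
      | mem r hr =>
        obtain ⟨a, ha, b, hb, rfl⟩ := hr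
        obtain ⟨m1, hm1, e1, e2, e3⟩ := hsup ⟨⟨a, 0, 0, 1⟩, ha, W.zero_mem,
          AddSubgroup.zero_mem _⟩
        obtain ⟨m2, hm2, e4, e5, e6⟩ := hsup ⟨⟨0, b, 0, 1⟩, W.zero_mem, hb,
          AddSubgroup.zero_mem _⟩
        have h1 : m1 * m2 * m1⁻¹ * m2⁻¹ ∈ M :=
          M.mul_mem (M.mul_mem (M.mul_mem hm1 hm2) (M.inv_mem hm1)) (M.inv_mem hm2)
        convert h1 using 1
        refine Subtype.ext (Hb.ext ?_ ?_ ?_ ?_)
        · simp [e1, e2, e3, e4, e5, e6, theta_one]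
        · simp [e1, e2, e3, e4, e5, e6, theta_one]
        · simp only [Subgroup.coe_mul, Subgroup.coe_inv, Hb.mul_c, Hb.mul_x, Hb.mul_a, Hb.inv_x,
            Hb.inv_c, Hb.inv_b, Hb.inv_a, e1, e2, e3, e4, e5, e6, inv_one, mul_one, theta_one]
          ring
        · simp [e3, e6]
      | zero => exact M.one_mem
      | add r s hr hs h1 h2 =>
        have h3 := M.mul_mem h1 h2
        convert h3 using 1
        refine Subtype.ext (Hb.ext ?_ ?_ ?_ ?_) <;> simp [theta_one]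
      | neg r hr h1 =>
        have h3 := M.inv_mem h1
        convert h3 using 1
        refine Subtype.ext (Hb.ext ?_ ?_ ?_ ?_) <;> simp [theta_one]
    apply hle
    intro g hg
    obtain ⟨k1, k2, k3⟩ := hker g hg
    have h4 := hcent g.1.c g.2.2.2
    convert h4 using 1
    exact Subtype.ext (Hb.ext k1 k2 rfl k3)
  have hG1 : F G1 := hsat G1 _ hfr hq
  -- the central subgroup
  let D : Subgroup (G1 × G1) :=
    { carrier := {z | z.1.1.a = z.2.1.a ∧ z.1.1.b = z.2.1.b ∧ z.1.1.x = z.2.1.x}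
      one_mem' := ⟨rfl, rfl, rfl⟩
      mul_mem' := by
        rintro z w ⟨h1, h2, h3⟩ ⟨h4, h5, h6⟩
        refine ⟨?_, ?_, ?_⟩
        · simp only [Prod.fst_mul, Prod.snd_mul, Subgroup.coe_mul, Hb.mul_a, h1, h3, h4]
        · simp only [Prod.fst_mul, Prod.snd_mul, Subgroup.coe_mul, Hb.mul_b, h2, h3, h5]
        · simp only [Prod.fst_mul, Prod.snd_mul, Subgroup.coe_mul, Hb.mul_x, h3, h6]
      inv_mem' := by
        rintro z ⟨h1, h2, h3⟩
        refine ⟨?_, ?_, ?_⟩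
        · simp only [Prod.fst_inv, Prod.snd_inv, Subgroup.coe_inv, Hb.inv_a, h1, h3]
        · simp only [Prod.fst_inv, Prod.snd_inv, Subgroup.coe_inv, Hb.inv_b, h2, h3]
        · simp only [Prod.fst_inv, Prod.snd_inv, Subgroup.coe_inv, Hb.inv_x, h3] }
  have hD : F D := by
    refine hF.sub2 ((MonoidHom.fst _ _).comp D.subtype) ((MonoidHom.snd _ _).comp D.subtype)
      ?_ ?_ ?_
    · refine hF.range_of_surj _ ?_ hG1
      intro g
      exact ⟨⟨(g, g), rfl, rfl, rfl⟩, rfl⟩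
    · refine hF.range_of_surj _ ?_ hG1
      intro g
      exact ⟨⟨(g, g), rfl, rfl, rfl⟩, rfl⟩
    · rintro ⟨⟨a, b⟩, hab⟩ h1 h2
      have h1' : a = 1 := h1
      have h2' : b = 1 := h2
      subst h1' h2'
      rfl
  let f : D →* S0 θ (prodSpan W) iT :=
    { toFun := fun z => ⟨⟨0, 0, z.1.1.1.c - z.1.2.1.c, z.1.1.1.x⟩, rfl, rfl,
        AddSubgroup.sub_mem _ z.1.1.2.2.2 z.1.2.2.2.2⟩
      map_one' := Subtype.ext (Hb.ext rfl rfl (by simp) rfl)
      map_mul' := by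
        rintro ⟨⟨g, h⟩, h1, h2, h3⟩ ⟨⟨g', h'⟩, h4, h5, h6⟩
        change g.1.a = h.1.a at h1
        change g.1.b = h.1.b at h2
        change g.1.x = h.1.x at h3
        change g'.1.a = h'.1.a at h4
        change g'.1.b = h'.1.b at h5
        change g'.1.x = h'.1.x at h6
        refine Subtype.ext (Hb.ext (by simp) (by simp) ?_ (by simp))
        simp only [Prod.mk_mul_mk, Subgroup.coe_mul, Hb.mul_c, MulMemClass.mk_mul_mk,
          MulMemClass.coe_mul, h1, h3, h5, zero_mul, add_zero, map_sub]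
        ring }
  refine hF.img f ?_ hD
  rintro ⟨⟨a, b, c, x⟩, ha, hb, hc⟩
  change a = 0 at ha
  change b = 0 at hb
  subst ha hb
  refine ⟨⟨(⟨⟨0, 0, c, x⟩, W.zero_mem, W.zero_mem, hc⟩,
    ⟨⟨0, 0, 0, x⟩, W.zero_mem, W.zero_mem, AddSubgroup.zero_mem _⟩), rfl, rfl, rfl⟩, ?_⟩
  exact Subtype.ext (Hb.ext rfl rfl (sub_zero c) rfl)

end Heis

end Pool.Agent.KegelFF
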