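import Pool.Agent.Lib.MP_a2b075_al.Heis2

set_option autoImplicit false
open scoped Pointwise
open SemidirectProduct

namespace Pool.Agent.KegelFF

variable {F : ∀ (G : Type) [Group G], Prop}

/-- images of modules in `R` -/
theorem InW.of_hom (hF : KF F) {X R : Type} [Group X] [CommRing R] (θ : X →* RingAut R)
    [Finite X] [Finite R] {V : Type} [CommGroup V] [Finite V] (φ : X →* MulAut V)
    (hV : F (V ⋊[φ] X)) (Λ : V →* Multiplicative R)
    (hΛ : ∀ x v, (Λ (φ x v)).toAdd = θ x (Λ v).toAdd) :
    ∃ W : AddSubgroup R, InW θ F W ∧ ∀ v, (Λ v).toAdd ∈ W := by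
  let W : AddSubgroup R :=
    { carrier := {r | ∃ v, (Λ v).toAdd = r}
      zero_mem' := ⟨1, by rw [map_one]; rfl⟩
      add_mem' := by
        rintro _ _ ⟨v, rfl⟩ ⟨w, rfl⟩
        exact ⟨v * w, by rw [map_mul]; rfl⟩
      neg_mem' := by
        rintro _ ⟨v, rfl⟩
        exact ⟨v⁻¹, by rw [map_inv]; rfl⟩ }
  have iW : ∀ x, ∀ r ∈ W, θ x r ∈ W := by
    rintro x _ ⟨v, rfl⟩
    exact ⟨φ x v, hΛ x v⟩
  refine ⟨W, ⟨iW, ?_⟩, fun v => ⟨v, rfl⟩⟩
  let f : V ⋊[φ] X →* S0 θ W iW :=
    { toFun := fun g => ⟨⟨0, 0, (Λ g.left).toAdd, g.right⟩, rfl, rfl, ⟨g.left, rfl⟩⟩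
      map_one' := Subtype.ext (Hb.ext rfl rfl (by simp) rfl)
      map_mul' := by
        intro g h
        refine Subtype.ext (Hb.ext (by simp) (by simp) ?_ (by simp))
        simp [hΛ] }
  refine hF.img f ?_ hV
  rintro ⟨⟨a, b, c, x⟩, ha, hb, v, hv⟩
  change a = 0 at ha
  change b = 0 at hb
  change (Λ v).toAdd = c at hv
  subst ha hb hv
  exact ⟨⟨v, x⟩, rfl⟩

/-- translation on functions -/
def trAct (X K : Type) [Group X] [CommRing K] : X →* RingAut (X → K) where
  toFun x :=
    { toFun := fun f y => f (x⁻¹ * y)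
      invFun := fun f y => f (x * y)
      left_inv := fun f => by ext y; simp
      right_inv := fun f => by ext y; simp
      map_mul' := fun f g => rfl
      map_add' := fun f g => rfl }
  map_one' := by ext f y; simp
  map_mul' s t := by
    ext f y
    simp only [RingEquiv.coe_mk, Equiv.coe_fn_mk, RingAut.mul_apply, mul_inv_rev, mul_assoc]

@[simp] theorem trAct_apply (X K : Type) [Group X] [CommRing K] (x : X) (f : X → K) (y : X) :
    trAct X K x f y = f (x⁻¹ * y) := rfl

/-- the largest module is everything -/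
theorem inW_top (hF : KF F)
    (hsat : ∀ (G : Type) [Group G] [Finite G] (N : Subgroup G) [N.Normal],
      N ≤ frattini G → F (G ⧸ N) → F G)
    {p : ℕ} [Fact p.Prime] {V X : Type} [CommGroup V] [Finite V] [Group X] [Finite X]
    [Nontrivial V] (hVe : ∀ v : V, v ^ p = 1)
    (φ : X →* MulAut V) (hφ : Function.Injective φ) (hV : F (V ⋊[φ] X)) :
    InW (trAct X (ZMod p)) F (⊤ : AddSubgroup (X → ZMod p)) := by
  classical
  have hpp : p.Prime := Fact.out
  let _ : Fintype X := Fintype.ofFinite X
  have hX : F X := hF.img (SemidirectProduct.rightHom (φ := φ)) rightHom_surjective hV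
  -- constants
  have hconst : ∃ W : AddSubgroup (X → ZMod p), InW (trAct X (ZMod p)) F W ∧ (1 : X → ZMod p) ∈ W := by
    have hpV : p ∣ Nat.card (V ⋊[φ] X) := by
      rw [SemidirectProduct.card]
      obtain ⟨v, hv⟩ := exists_ne (1 : V)
      have : orderOf v = p := orderOf_eq_prime (hVe v) hv
      rw [← this]
      exact (orderOf_dvd_natCard v).mul_right _
    have hC : F (Multiplicative (ZMod p)) := hF.pgroup hV hpV (by
      refine IsPGroup.of_card (n := 1) ?_
      rw [pow_one]
      exact Nat.card_zmod p)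
    let lh : Multiplicative (ZMod p) ⋊[(1 : X →* MulAut (Multiplicative (ZMod p)))] X →*
        Multiplicative (ZMod p) :=
      { toFun := fun x => x.left
        map_one' := rfl
        map_mul' := fun a b => rfl }
    have hS : F (Multiplicative (ZMod p) ⋊[(1 : X →* MulAut (Multiplicative (ZMod p)))] X) := by
      refine hF.sub2 lh rightHom ?_ ?_ ?_
      · exact hF.range_of_surj _ (fun v => ⟨⟨v, 1⟩, rfl⟩) hC
      · exact hF.range_of_surj _ rightHom_surjective hX
      · intro x h1 h2
        exact SemidirectProduct.ext h1 h2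
    obtain ⟨W, hW, hmem⟩ := InW.of_hom hF (trAct X (ZMod p)) 1 hS
      { toFun := fun c => Multiplicative.ofAdd (fun _ => c.toAdd)
        map_one' := rfl
        map_mul' := fun _ _ => rfl } (fun x v => rfl)
    exact ⟨W, hW, hmem (Multiplicative.ofAdd 1)⟩
  -- the largest invariant subgroup
  obtain ⟨Wc, hWc, h1c⟩ := hconst
  obtain ⟨W, -, hWmax⟩ := Set.Finite.exists_le_maximal
    (Set.toFinite {W : AddSubgroup (X → ZMod p) | InW (trAct X (ZMod p)) F W}) hWc
  have hWin : InW (trAct X (ZMod p)) F W := hWmax.prop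
  have hle : ∀ W1, InW (trAct X (ZMod p)) F W1 → W1 ≤ W := by
    intro W1 h1
    have h2 := InW.sup _ hF hWin h1
    exact le_sup_right.trans (hWmax.le_of_ge h2 le_sup_left)
  have hone : (1 : X → ZMod p) ∈ W := hle _ hWc h1c
  have hmul : ∀ a ∈ W, ∀ b ∈ W, a * b ∈ W := by
    intro a ha b hb
    exact hle _ (InW.prod _ hF hsat hWin) (mul_mem_prodSpan ha hb)
  let S : Subring (X → ZMod p) :=
    { carrier := W
      mul_mem' := fun ha hb => hmul _ ha _ hb
      one_mem' := hone
      add_mem' := fun ha hb => W.add_mem ha hb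
      zero_mem' := W.zero_mem
      neg_mem' := fun ha => W.neg_mem ha }
  -- separation of points
  have hsep : ∀ x y : X, x ≠ y → ∃ f ∈ S, f x ≠ f y := by
    intro x y hxy
    have h1 : φ x⁻¹ ≠ φ y⁻¹ := fun h => hxy (inv_injective (hφ h))
    obtain ⟨v, hv⟩ : ∃ v, φ x⁻¹ v ≠ φ y⁻¹ v := by
      by_contra hcon
      push Not at hcon
      exact h1 (MulEquiv.ext hcon)
    obtain ⟨l, hl⟩ := exists_lam p (ZMod p) V hVe (φ x⁻¹ v * (φ y⁻¹ v)⁻¹)
      (fun h => hv (mul_inv_eq_one.mp h))
    let Λ : V →* Multiplicative (X → ZMod p) :=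
      { toFun := fun v => Multiplicative.ofAdd (fun z => (l (φ z⁻¹ v)).toAdd)
        map_one' := by
          apply Multiplicative.toAdd.injective
          ext z
          simp
        map_mul' := by
          intro a b
          apply Multiplicative.toAdd.injective
          ext z
          simp }
    obtain ⟨W1, hW1, hmem⟩ := InW.of_hom hF (trAct X (ZMod p)) φ hV Λ (by
      intro x v
      ext z
      change (l (φ z⁻¹ (φ x v))).toAdd = (l (φ (x⁻¹ * z)⁻¹ v)).toAdd
      rw [mul_inv_rev, inv_inv, map_mul φ]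
      rfl)
    refine ⟨(Λ v).toAdd, hle _ hW1 (hmem v), ?_⟩
    intro heq
    apply hl
    have h2 : (l (φ x⁻¹ v)).toAdd = (l (φ y⁻¹ v)).toAdd := heq
    rw [map_mul l, map_inv l, Multiplicative.toAdd.injective h2, mul_inv_cancel]
  have hdelta : ∀ x : X, (Pi.single x 1 : X → ZMod p) ∈ S := by
    intro x
    have hg : ∀ y : X, ∃ g ∈ S, g x = 1 ∧ (y ≠ x → g y = 0) := by
      intro y
      by_cases hxy : x = y
      · exact ⟨1, S.one_mem, rfl, fun h => absurd hxy.symm h⟩
      · obtain ⟨f, hf, hne⟩ := hsep x y hxy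
        have hc : (fun _ => f y : X → ZMod p) ∈ S := by
          have h1 : (fun _ => f y : X → ZMod p) = ((f y).val : ℕ) • (1 : X → ZMod p) := by
            ext z
            simp
          rw [h1]
          exact S.nsmul_mem S.one_mem _
        refine ⟨(f - fun _ => f y) ^ (p - 1), S.pow_mem (S.sub_mem hf hc) _, ?_, ?_⟩
        · simp only [Pi.pow_apply, Pi.sub_apply]
          exact ZMod.pow_card_sub_one_eq_one (sub_ne_zero.mpr hne)
        · intro _
          simp only [Pi.pow_apply, Pi.sub_apply, sub_self]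
          exact zero_pow (Nat.sub_ne_zero_of_lt hpp.one_lt)
    choose g hgS hg1 hg0 using hg
    have : (Pi.single x 1 : X → ZMod p) = ∏ y : X, g y := by
      ext z
      rw [Finset.prod_apply]
      by_cases hz : z = x
      · subst hz
        rw [Pi.single_eq_same]
        exact (Finset.prod_eq_one fun y _ => hg1 y).symm
      · rw [Pi.single_eq_of_ne hz]
        exact (Finset.prod_eq_zero (f := fun c => g c z) (Finset.mem_univ z) (hg0 z hz)).symm
    rw [this]
    exact S.prod_mem fun y _ => hgS y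
  have htop : W = ⊤ := by
    rw [eq_top_iff]
    intro f _
    have h1 : f = ∑ x : X, ((f x).val : ℕ) • (Pi.single x 1 : X → ZMod p) := by
      ext z
      rw [Finset.sum_apply, Finset.sum_eq_single z]
      · simp
      · intro b _ hb
        simp [Pi.single_eq_of_ne (Ne.symm hb)]
      · intro h
        exact absurd (Finset.mem_univ z) h
    rw [h1]
    exact S.sum_mem fun x _ => S.nsmul_mem (hdelta x) _
  rw [← htop]
  exact hWin

end Pool.Agent.KegelFF
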