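import Pool.Agent.Lib.MP_a2b075_al.Heis3

set_option autoImplicit false
open scoped Pointwise
open SemidirectProduct

namespace Pool.Agent.KegelFF

variable {F : ∀ (G : Type) [Group G], Prop}

theorem arrow_of_top (hF : KF F) {p q : ℕ} [Fact p.Prime] [Fact q.Prime] {X : Type} [Group X]
    [Finite X] (hW : InW (trAct X (ZMod p)) F (⊤ : AddSubgroup (X → ZMod p)))
    (M : Subgroup X) [M.Normal] (hM : M.index = q) : Arrow F p q := by
  classical
  obtain ⟨iW, hW⟩ := hW
  have hqp : q.Prime := Fact.out
  let _ : Fintype X := Fintype.ofFinite X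
  let f : S0 (trAct X (ZMod p)) ⊤ iW →*
      ((X ⧸ M) → Multiplicative (ZMod p)) ⋊[leftAct (X ⧸ M) (Multiplicative (ZMod p))] (X ⧸ M) :=
    { toFun := fun g => ⟨fun y => Multiplicative.ofAdd
        (∑ z : X, if (QuotientGroup.mk z : X ⧸ M) = y then g.1.c z else 0),
          QuotientGroup.mk g.1.x⟩
      map_one' := by
        refine SemidirectProduct.ext ?_ rfl
        funext y
        simp
      map_mul' := by
        intro g h
        refine SemidirectProduct.ext ?_ rfl
        funext y
        simp only [mul_left, Pi.mul_apply, leftAct_apply]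
        rw [← ofAdd_add]
        congr 1
        have ga : g.1.a = 0 := g.2.1
        have h1 : (∑ z : X, if (QuotientGroup.mk z : X ⧸ M) =
            (QuotientGroup.mk g.1.x)⁻¹ * y then h.1.c z else 0) =
            ∑ z : X, if (QuotientGroup.mk z : X ⧸ M) = y then h.1.c (g.1.x⁻¹ * z) else 0 := by
          refine (Fintype.sum_equiv (Equiv.mulLeft g.1.x⁻¹) _ _ ?_).symm
          intro z
          simp only [Equiv.coe_mulLeft]
          have h2 : ((QuotientGroup.mk (g.1.x⁻¹ * z) : X ⧸ M) = (QuotientGroup.mk g.1.x)⁻¹ * y) ↔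
              ((QuotientGroup.mk z : X ⧸ M) = y) := by
            rw [QuotientGroup.mk_mul, QuotientGroup.mk_inv]
            exact mul_right_inj _
          by_cases h3 : (QuotientGroup.mk z : X ⧸ M) = y
          · rw [if_pos h3, if_pos (h2.mpr h3)]
          · rw [if_neg h3, if_neg (fun h => h3 (h2.mp h))]
        rw [h1, ← Finset.sum_add_distrib]
        refine Finset.sum_congr rfl fun z _ => ?_
        split_ifs
        · simp [ga]
        · simp }
  have hf : Function.Surjective f := by
    rintro ⟨v, y⟩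
    obtain ⟨x, rfl⟩ := QuotientGroup.mk_surjective y
    refine ⟨⟨⟨0, 0, fun z => if z = (QuotientGroup.mk z : X ⧸ M).out then
      (v (QuotientGroup.mk z)).toAdd else 0, x⟩, rfl, rfl, trivial⟩, ?_⟩
    refine SemidirectProduct.ext ?_ rfl
    funext y
    apply Multiplicative.toAdd.injective
    change (∑ z : X, if (QuotientGroup.mk z : X ⧸ M) = y then
      (if z = (QuotientGroup.mk z : X ⧸ M).out then (v (QuotientGroup.mk z)).toAdd else 0)
        else 0) = (v y).toAdd
    rw [Finset.sum_eq_single y.out]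
    · rw [if_pos (QuotientGroup.out_eq' y), if_pos (by rw [QuotientGroup.out_eq' y]),
        QuotientGroup.out_eq' y]
    · intro z _ hz
      by_cases h1 : (QuotientGroup.mk z : X ⧸ M) = y
      · rw [if_pos h1, if_neg]
        rw [h1]
        exact hz
      · rw [if_neg h1]
    · intro h
      exact absurd (Finset.mem_univ _) h
  have hFf := hF.img f hf hW
  have hcard : Nat.card (X ⧸ M) = q := hM
  refine ⟨(X ⧸ M) → Multiplicative (ZMod p), X ⧸ M, inferInstance, inferInstance, inferInstance,
    inferInstance, leftAct (X ⧸ M) (Multiplicative (ZMod p)), ?_, hcard, ?_, hFf⟩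
  · intro v
    funext y
    apply Multiplicative.toAdd.injective
    simp
  · have hnt : Nontrivial (X ⧸ M) := by
      rw [← Finite.one_lt_card_iff_nontrivial, hcard]
      exact hqp.one_lt
    obtain ⟨y, hy⟩ := exists_ne (1 : X ⧸ M)
    refine ⟨y, fun z => if z = 1 then Multiplicative.ofAdd (1 : ZMod p) else 1, ?_⟩
    intro h
    have h1 := congrFun h 1
    simp only [leftAct_apply, mul_one, inv_eq_one, hy, if_false, if_true] at h1
    have h2 : (0 : ZMod p) = 1 := congrArg Multiplicative.toAdd h1
    exact zero_ne_one h2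

/-- the largest normal subgroup of order prime to `p` -/
theorem exists_max_prime_to {p : ℕ} (hp : p.Prime) (G : Type) [Group G] [Finite G] :
    ∃ K : Subgroup G, K.Normal ∧ ¬ p ∣ Nat.card K ∧
      ∀ K' : Subgroup G, K'.Normal → ¬ p ∣ Nat.card K' → K' ≤ K := by
  obtain ⟨K, -, hK⟩ := Set.Finite.exists_le_maximal
    (Set.toFinite {K : Subgroup G | K.Normal ∧ ¬ p ∣ Nat.card K}) (a := ⊥) (by
      refine ⟨inferInstance, ?_⟩
      rw [Subgroup.card_bot]
      exact fun h => hp.one_lt.ne' (Nat.dvd_one.mp h))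
  refine ⟨K, hK.prop.1, hK.prop.2, ?_⟩
  intro K' hK' hp'
  have hKn : K.Normal := hK.prop.1
  have h1 : (K ⊔ K').Normal := inferInstance
  have h2 : ¬ p ∣ Nat.card (K ⊔ K' : Subgroup G) := by
    intro hd
    have h3 : K.relIndex (K ⊔ K') = K.relIndex K' := Subgroup.relIndex_sup_left K' K
    have h4 : Nat.card (K.subgroupOf (K ⊔ K')) * K.relIndex (K ⊔ K') =
        Nat.card (K ⊔ K' : Subgroup G) := Subgroup.card_mul_index _
    have h5 : Nat.card (K.subgroupOf (K ⊔ K')) = Nat.card K :=
      Nat.card_congr (Subgroup.subgroupOfEquivOfLe le_sup_left).toEquiv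
    rw [← h4, h5, h3] at hd
    rcases hp.dvd_mul.mp hd with h6 | h6
    · exact hK.prop.2 h6
    · exact hp' (h6.trans (Subgroup.relIndex_dvd_card K K'))
  exact le_sup_right.trans (hK.le_of_ge ⟨h1, h2⟩ le_sup_left)

/-- normal subgroups of index prime to `q` -/
theorem E.of_normal {p q : ℕ} (hp : p.Prime) (hq : q.Prime) {G : Type} [Group G] [Finite G]
    (M : Subgroup G) [hM : M.Normal] (h : E q p M) (hi : ¬ q ∣ M.index) : E q p G := by
  obtain ⟨K, hK, h1, h2⟩ := h
  obtain ⟨O, hO, hO1, hO2⟩ := exists_max_prime_to hp M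
  have hKO : K ≤ O := hO2 K hK h1
  refine ⟨O.map M.subtype, ⟨?_⟩, ?_, ?_⟩
  · rintro _ ⟨n, hn, rfl⟩ g
    -- the automorphism of `M` given by `g`
    let a : M ≃* M := MulAut.conjNormal g
    have hOa : (O.map a.toMonoidHom) ≤ O := by
      refine hO2 _ (hO.map _ a.surjective) ?_
      have : Nat.card (O.map a.toMonoidHom) = Nat.card O :=
        (Nat.card_congr (O.equivMapOfInjective a.toMonoidHom a.injective).toEquiv).symm
      rwa [this]
    exact ⟨a n, hOa ⟨n, hn, rfl⟩, rfl⟩
  · have : Nat.card (O.map M.subtype) = Nat.card O :=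
      (Nat.card_congr (O.equivMapOfInjective M.subtype M.subtype_injective).toEquiv).symm
    rwa [this]
  · rw [Subgroup.index_map_subtype]
    intro hd
    rcases hq.dvd_mul.mp hd with h3 | h3
    · exact h2 (h3.trans (Subgroup.index_dvd_of_le hKO))
    · exact hi h3

end Pool.Agent.KegelFF
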