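import Pool.Agent.Lib.MP_a2b075_al.QI

set_option autoImplicit false
open scoped Pointwise
open SemidirectProduct

namespace Pool.Agent.KegelFF

variable {F : ∀ (G : Type) [Group G], Prop}

theorem card_lt_of_lt {G : Type} [Group G] [Finite G] {H K : Subgroup G} (h : H < K) :
    Nat.card H < Nat.card K := by
  have h3 : Nat.card H = Set.ncard (H : Set G) := rfl
  have h4 : Nat.card K = Set.ncard (K : Set G) := rfl
  rw [h3, h4]
  exact Set.ncard_lt_ncard h (Set.toFinite _)

theorem card_lt_of_ne_top {G : Type} [Group G] [Finite G] {H : Subgroup G} (h : H ≠ ⊤) :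
    Nat.card H < Nat.card G := by
  have := card_lt_of_lt (lt_top_iff_ne_top.mpr h)
  rwa [Subgroup.card_top] at this

theorem exists_normal_prime_index (G : Type) [Group G] [Finite G] [Nontrivial G]
    [Group.IsSolvable G] : ∃ M : Subgroup G, M.Normal ∧ (M.index).Prime := by
  have hA : Nontrivial (Abelianization G) := by
    have h1 : commutator G < ⊤ := Group.IsSolvable.commutator_lt_top_of_nontrivial G
    exact QuotientGroup.nontrivial_iff.mpr h1.ne
  have hfin : Finite (Abelianization G) := inferInstance
  have hnb : (⊥ : Subgroup (Abelianization G)) ≠ ⊤ := bot_ne_top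
  obtain ⟨K, hK, -⟩ := (eq_top_or_exists_le_coatom (⊥ : Subgroup (Abelianization G))).resolve_left hnb
  have hKn : K.Normal := inferInstance
  have hnt : Nontrivial (Abelianization G ⧸ K) := QuotientGroup.nontrivial_iff.mpr hK.1
  have hc1 : Nat.card (Abelianization G ⧸ K) ≠ 1 := by
    have := Finite.one_lt_card (α := Abelianization G ⧸ K)
    omega
  obtain ⟨r, hr, hrd⟩ := Nat.exists_prime_and_dvd hc1
  have : Fact r.Prime := ⟨hr⟩
  obtain ⟨x, hx⟩ := exists_prime_orderOf_dvd_card' (G := Abelianization G ⧸ K) r hrd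
  have hxb : Subgroup.zpowers x ≠ ⊥ := by
    intro h
    rw [Subgroup.zpowers_eq_bot] at h
    rw [h, orderOf_one] at hx
    exact hr.one_lt.ne hx
  have hcom : (Subgroup.zpowers x).comap (QuotientGroup.mk' K) = ⊤ := by
    refine hK.2 _ (lt_of_le_of_ne ?_ ?_)
    · intro k hk
      rw [Subgroup.mem_comap]
      have : QuotientGroup.mk' K k = 1 := by
        rw [← MonoidHom.mem_ker, QuotientGroup.ker_mk']; exact hk
      rw [this]; exact Subgroup.one_mem _
    · intro h
      apply hxb
      have := Subgroup.map_comap_eq_self_of_surjective (QuotientGroup.mk'_surjective K)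
        (Subgroup.zpowers x)
      rw [← this, ← h, QuotientGroup.map_mk'_self]
  have htop : Subgroup.zpowers x = ⊤ := by
    have := Subgroup.map_comap_eq_self_of_surjective (QuotientGroup.mk'_surjective K)
      (Subgroup.zpowers x)
    rw [← this, hcom]
    exact Subgroup.map_top_of_surjective _ (QuotientGroup.mk'_surjective K)
  have hidx : K.index = r := by
    have h1 : Nat.card (Abelianization G ⧸ K) = r := by
      rw [← hx, ← Nat.card_zpowers, htop, Subgroup.card_top]
    exact h1
  refine ⟨K.comap Abelianization.of, hKn.comap _, ?_⟩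
  have hsurj : Function.Surjective (Abelianization.of : G →* Abelianization G) :=
    QuotientGroup.mk'_surjective _
  rw [Subgroup.index_comap_of_surjective _ hsurj, hidx]
  exact hr

/-- `C_p` belongs to `F` when `p` divides the order of a member. -/
theorem KF.cyc (hF : KF F) {p : ℕ} [Fact p.Prime] : ∀ (n : ℕ) (G : Type) [Group G] [Finite G],
    Nat.card G ≤ n → F G → p ∣ Nat.card G →
    ∃ (C : Type) (_ : Group C) (_ : Finite C), Nat.card C = p ∧ F C := by
  intro n
  have hpp : p.Prime := Fact.out
  induction n with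
  | zero =>
    intro W _ _ hc
    have := Nat.card_pos (α := W)
    omega
  | succ n ih =>
    intro G _ _ hc hG hp
    have hnt : Nontrivial G := by
      by_contra h
      rw [not_nontrivial_iff_subsingleton] at h
      have : Nat.card G = 1 := Nat.card_eq_one_iff_unique.mpr ⟨h, ⟨1⟩⟩
      rw [this] at hp
      exact hpp.one_lt.ne' (Nat.dvd_one.mp hp)
    have hs : Group.IsSolvable G := hF.sol G hG
    obtain ⟨M, hM, hMi⟩ := exists_normal_prime_index G
    by_cases hrp : M.index = p
    · exact ⟨G ⧸ M, inferInstance, inferInstance, hrp, hF.quo G M hG⟩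
    · have h1 : Nat.card M * M.index = Nat.card G := Subgroup.card_mul_index M
      rw [← h1] at hp
      have h2 : p ∣ Nat.card M := by
        rcases (hpp.dvd_mul).mp hp with h | h
        · exact h
        · exact absurd ((Nat.prime_dvd_prime_iff_eq hpp hMi).mp h).symm hrp
      have h3 : M ≠ ⊤ := by
        rintro rfl
        rw [Subgroup.index_top] at hMi
        exact hMi.one_lt.ne rfl
      have := card_lt_of_ne_top h3
      exact ih M (by omega) (hF.nrm G M hM hG) h2

theorem iso_of_card_prime {p : ℕ} [Fact p.Prime] {A B : Type} [Group A] [Group B]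
    (hA : Nat.card A = p) (hB : Nat.card B = p) : Nonempty (A ≃* B) :=
  ⟨mulEquivOfPrimeCardEq hA hB⟩

/-- all finite `p`-groups belong to `F`. -/
theorem KF.pgroup (hF : KF F) {p : ℕ} [Fact p.Prime] {G : Type} [Group G] [Finite G]
    (hG : F G) (hp : p ∣ Nat.card G) {Q : Type} [Group Q] [Finite Q] (hQ : IsPGroup p Q) :
    F Q := by
  obtain ⟨C, _, _, hC, hFC⟩ := hF.cyc (p := p) _ G le_rfl hG hp
  have hU := hF.unit hG
  have h0 : ∀ (V : Type) [CommGroup V] [Finite V], (∀ v : V, v ^ 1 = 1) → F V := by
    intro V _ _ hV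
    have : Subsingleton V := ⟨fun a b => by
      have h1 := hV a
      have h2 := hV b
      rw [pow_one] at h1 h2
      rw [h1, h2]⟩
    exact hF.triv hU
  have h1 : ∀ (V : Type) [CommGroup V] [Finite V], (∀ v : V, v ^ 1 = 1) →
      ∀ (Y : Type) [Group Y] [Finite Y], Nat.card Y = p → ∀ φ : Y →* MulAut V,
      F (V ⋊[φ] Y) := by
    intro V _ _ hV Y _ _ hY φ
    have hs : Subsingleton V := ⟨fun a b => by
      have h1 := hV a
      have h2 := hV b
      rw [pow_one] at h1 h2
      rw [h1, h2]⟩
    obtain ⟨e⟩ := iso_of_card_prime (p := p) hC hY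
    refine hF.img ((inr : Y →* V ⋊[φ] Y).comp e.toMonoidHom) ?_ hFC
    intro w
    obtain ⟨c, hc⟩ := e.surjective w.right
    exact ⟨c, by ext; exact Subsingleton.elim _ _; exact hc⟩
  have := hF.qi' (q := p) 1 h0 h1 Unit (fun v => rfl) Q hQ 1
  exact hF.img (rightHom : Unit ⋊[(1 : Q →* MulAut Unit)] Q →* Q) rightHom_surjective this

end Pool.Agent.KegelFF
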