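import Pool.Agent.Lib.MP_a2b075_al.PG

set_option autoImplicit false
open scoped Pointwise
open SemidirectProduct

namespace Pool.Agent.KegelFF

variable {F : ∀ (G : Type) [Group G], Prop}

/-- `G` is `q`-closed: it has a normal `q`-subgroup of index prime to `q`
(a normal Sylow `q`-subgroup). -/
def QC (q : ℕ) (G : Type) [Group G] : Prop :=
  ∃ N : Subgroup G, N.Normal ∧ IsPGroup q N ∧ ¬ q ∣ N.index

/-- all prime divisors of the order are `p` or `q`. -/
def PQ (p q : ℕ) (G : Type) [Group G] : Prop :=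
  ∀ r : ℕ, r.Prime → r ∣ Nat.card G → r = p ∨ r = q

theorem PQ.symm {p q : ℕ} {G : Type} [Group G] (h : PQ p q G) : PQ q p G :=
  fun r hr hd => (h r hr hd).symm

theorem PQ.sub {p q : ℕ} {G : Type} [Group G] (h : PQ p q G) (H : Subgroup G) : PQ p q H :=
  fun r hr hd => h r hr (hd.trans (Subgroup.card_subgroup_dvd_card H))

theorem PQ.quo {p q : ℕ} {G : Type} [Group G] (h : PQ p q G) (N : Subgroup G)
    [N.Normal] : PQ p q (G ⧸ N) :=
  fun r hr hd => h r hr (hd.trans (Subgroup.card_quotient_dvd_card N))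

theorem QC.of_equiv {q : ℕ} {G H : Type} [Group G] [Group H] (e : G ≃* H) (h : QC q G) :
    QC q H := by
  obtain ⟨N, hN, hp, hi⟩ := h
  refine ⟨N.map e.toMonoidHom, hN.map _ e.surjective, hp.map _, ?_⟩
  have : (N.map e.toMonoidHom).index = N.index := Subgroup.index_map_equiv N e
  rwa [this]

/-- membership in the normal Sylow subgroup. -/
theorem mem_iff_pow {q : ℕ} [Fact q.Prime] {E : Type} [Group E] [Finite E] {N : Subgroup E}
    [N.Normal] (hp : IsPGroup q N) (hi : ¬ q ∣ N.index) (x : E) :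
    x ∈ N ↔ ∃ k : ℕ, x ^ (q ^ k) = 1 := by
  have hqp : q.Prime := Fact.out
  constructor
  · intro hx
    obtain ⟨k, hk⟩ := hp ⟨x, hx⟩
    exact ⟨k, by simpa using congrArg Subtype.val hk⟩
  · rintro ⟨k, hk⟩
    have h1 : (QuotientGroup.mk' N x) ^ (q ^ k) = 1 := by rw [← map_pow, hk, map_one]
    have h2 : orderOf (QuotientGroup.mk' N x) ∣ q ^ k := orderOf_dvd_of_pow_eq_one h1
    have h3 : orderOf (QuotientGroup.mk' N x) ∣ N.index := orderOf_dvd_natCard _
    have h4 : Nat.Coprime (q ^ k) N.index :=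
      Nat.Coprime.pow_left _ ((Nat.Prime.coprime_iff_not_dvd hqp).mpr hi)
    have h5 : orderOf (QuotientGroup.mk' N x) = 1 := Nat.eq_one_of_dvd_coprimes h4 h2 h3
    rw [orderOf_eq_one_iff] at h5
    rwa [← MonoidHom.mem_ker, QuotientGroup.ker_mk'] at h5

/-- a `q`-closed normal subgroup of index prime to `q`. -/
theorem QC.of_normal {q : ℕ} [Fact q.Prime] {G : Type} [Group G] [Finite G] (E : Subgroup G)
    [hE : E.Normal] (hQ : QC q E) (hi : ¬ q ∣ E.index) : QC q G := by
  have hqp : q.Prime := Fact.out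
  obtain ⟨N, hN, hp, hNi⟩ := hQ
  refine ⟨N.map E.subtype, ⟨?_⟩, hp.map _, ?_⟩
  · rintro _ ⟨n, hn, rfl⟩ g
    have h1 := (mem_iff_pow hp hNi n).mp hn
    obtain ⟨k, hk⟩ := h1
    have hgE : g * (n : G) * g⁻¹ ∈ E := hE.conj_mem _ n.2 g
    refine ⟨⟨g * (n : G) * g⁻¹, hgE⟩, ?_, rfl⟩
    refine (mem_iff_pow hp hNi _).mpr ⟨k, Subtype.ext ?_⟩
    have hk' : (n : G) ^ (q ^ k) = 1 := by simpa using congrArg Subtype.val hk
    simp [conj_pow, hk']
  · have h1 : (N.map E.subtype).index = N.index * E.index := Subgroup.index_map_subtype N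
    rw [h1]
    intro h
    rcases hqp.dvd_mul.mp h with h | h
    · exact hNi h
    · exact hi h

/-- extensions of a normal `q`-subgroup by a `q`-closed group. -/
theorem QC.of_quo {q : ℕ} {G : Type} [Group G] [Finite G] (N : Subgroup G)
    [hN : N.Normal] (hp : IsPGroup q N) (h : QC q (G ⧸ N)) : QC q G := by
  obtain ⟨T, hT, hTp, hTi⟩ := h
  refine ⟨T.comap (QuotientGroup.mk' N), hT.comap _, ?_, ?_⟩
  · refine hTp.comap_of_ker_isPGroup _ ?_
    rw [QuotientGroup.ker_mk']
    exact hp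
  · rw [Subgroup.index_comap_of_surjective _ (QuotientGroup.mk'_surjective N)]
    exact hTi

/-- quotients -/
theorem QC.img {q : ℕ} {G H : Type} [Group G] [Group H] [Finite G] (f : G →* H)
    (hf : Function.Surjective f) (h : QC q G) : QC q H := by
  obtain ⟨N, hN, hp, hi⟩ := h
  refine ⟨N.map f, hN.map _ hf, hp.map _, ?_⟩
  intro hd
  exact hi (hd.trans (N.index_map_dvd hf))

/-- subgroups -/
theorem QC.sub {q : ℕ} {G : Type} [Group G] [Finite G] (H : Subgroup G) (h : QC q G) :
    QC q H := by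
  obtain ⟨N, hN, hp, hi⟩ := h
  refine ⟨N.subgroupOf H, inferInstance, ?_, ?_⟩
  · intro x
    obtain ⟨k, hk⟩ := hp ⟨x.1.1, Subgroup.mem_subgroupOf.mp x.2⟩
    refine ⟨k, ?_⟩
    apply Subtype.ext
    apply Subtype.ext
    simpa using congrArg Subtype.val hk
  · intro hd
    exact hi (hd.trans (Subgroup.relIndex_dvd_index_of_normal N H))

/-- a nontrivial normal `p`-subgroup contains a nontrivial normal elementary abelian one. -/
theorem exists_elem {p : ℕ} [Fact p.Prime] {G : Type} [Group G] [Finite G] (M : Subgroup G)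
    [hM : M.Normal] (hMp : IsPGroup p M) (hMb : M ≠ ⊥) :
    ∃ D : Subgroup G, D.Normal ∧ D ≠ ⊥ ∧ D ≤ M ∧ (∀ x ∈ D, ∀ y ∈ D, x * y = y * x) ∧
      ∀ x ∈ D, x ^ p = 1 := by
  have hpp : p.Prime := Fact.out
  have hnt : Nontrivial M := (Subgroup.nontrivial_iff_ne_bot M).mpr hMb
  -- elements of the centre of `M` of exponent `p`
  let D : Subgroup G :=
    { carrier := {x | x ∈ M ∧ (∀ m ∈ M, m * x = x * m) ∧ x ^ p = 1}
      one_mem' := ⟨M.one_mem, fun m _ => by simp, one_pow _⟩
      mul_mem' := by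
        rintro a b ⟨ha, ha', hap⟩ ⟨hb, hb', hbp⟩
        refine ⟨M.mul_mem ha hb, fun m hm => ?_, ?_⟩
        · rw [← mul_assoc, ha' m hm, mul_assoc, hb' m hm, mul_assoc]
        · have : Commute a b := hb' a ha
          rw [this.mul_pow, hap, hbp, one_mul]
      inv_mem' := by
        rintro a ⟨ha, ha', hap⟩
        refine ⟨M.inv_mem ha, fun m hm => ?_, by rw [inv_pow, hap, inv_one]⟩
        have : Commute m a := ha' m hm
        exact this.inv_right }
  refine ⟨D, ⟨?_⟩, ?_, fun x hx => hx.1, fun x hx y hy => hy.2.1 x hx.1, fun x hx => hx.2.2⟩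
  · rintro x ⟨hx, hx', hxp⟩ g
    refine ⟨hM.conj_mem x hx g, fun m hm => ?_, by rw [conj_pow, hxp]; simp⟩
    have h1 := hx' (g⁻¹ * m * g) (by simpa using hM.conj_mem m hm g⁻¹)
    calc m * (g * x * g⁻¹) = g * ((g⁻¹ * m * g) * x) * g⁻¹ := by group
      _ = g * (x * (g⁻¹ * m * g)) * g⁻¹ := by rw [h1]
      _ = g * x * g⁻¹ * m := by group
  · have hc : Nontrivial (Subgroup.center M) := hMp.center_nontrivial
    obtain ⟨n, hn⟩ := IsPGroup.iff_card.mp (hMp.to_subgroup (Subgroup.center M))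
    have hn0 : n ≠ 0 := by
      rintro rfl
      have := Finite.one_lt_card (α := Subgroup.center M)
      rw [hn, pow_zero] at this
      omega
    have hd : p ∣ Nat.card (Subgroup.center M) := by
      rw [hn]; exact dvd_pow_self _ hn0
    obtain ⟨z, hz⟩ := exists_prime_orderOf_dvd_card' p hd
    intro hD
    have hmem : ((z : M) : G) ∈ D := by
      refine ⟨z.1.2, fun m hm => ?_, ?_⟩
      · have := Subgroup.mem_center_iff.mp z.2 ⟨m, hm⟩
        exact congrArg Subtype.val this
      · have := pow_orderOf_eq_one z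
        rw [hz] at this
        simpa using congrArg Subtype.val (congrArg Subtype.val this)
    rw [hD, Subgroup.mem_bot] at hmem
    have : z = 1 := Subtype.ext (Subtype.ext hmem)
    rw [this, orderOf_one] at hz
    exact hpp.one_lt.ne hz

end Pool.Agent.KegelFF
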