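import Pool.Agent.Lib.MP_a2b075_al.SD

set_option autoImplicit false
open scoped Pointwise
open SemidirectProduct

namespace Pool.Agent.KegelFF

variable {F : ∀ (G : Type) [Group G], Prop}

section wreath

variable (q : ℕ) (A : Type) [CommGroup A]

/-- cyclic shift action -/
def shiftAct : Multiplicative (ZMod q) →* MulAut (ZMod q → A) where
  toFun s :=
    { toFun := fun f x => f (x + s.toAdd)
      invFun := fun f x => f (x - s.toAdd)
      left_inv := fun f => by ext x; simp
      right_inv := fun f => by ext x; simp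
      map_mul' := fun f g => rfl }
  map_one' := by ext f x; simp
  map_mul' s t := by
    ext f x
    simp only [MulEquiv.coe_mk, Equiv.coe_fn_mk, MulAut.mul_apply, toAdd_mul]
    rw [add_assoc]

@[simp] theorem shiftAct_apply (s : Multiplicative (ZMod q)) (f : ZMod q → A) (x : ZMod q) :
    shiftAct q A s f x = f (x + s.toAdd) := rfl

theorem sd_pow (w : (ZMod q → A) ⋊[shiftAct q A] Multiplicative (ZMod q)) (n : ℕ) (x : ZMod q) :
    (w ^ n).left x = ∏ i ∈ Finset.range n, w.left (x + i * w.right.toAdd) := by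
  induction n generalizing x with
  | zero => simp
  | succ n ih =>
    rw [pow_succ', mul_left, Pi.mul_apply, shiftAct_apply, ih, Finset.prod_range_succ']
    rw [mul_comm]
    congr 1
    · refine Finset.prod_congr rfl fun i _ => ?_
      push_cast
      ring_nf
    · simp

theorem sd_pow_right (w : (ZMod q → A) ⋊[shiftAct q A] Multiplicative (ZMod q)) (n : ℕ) :
    (w ^ n).right = w.right ^ n := by
  have := map_pow (rightHom : (ZMod q → A) ⋊[shiftAct q A] Multiplicative (ZMod q) →* _) w n
  simpa using this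

/-- product of all coordinates -/
def totHom [NeZero q] : (ZMod q → A) ⋊[shiftAct q A] Multiplicative (ZMod q) →* A where
  toFun w := ∏ x, w.left x
  map_one' := by simp
  map_mul' w w' := by
    simp only [mul_left, Pi.mul_apply, Finset.prod_mul_distrib, shiftAct_apply]
    congr 1
    exact Fintype.prod_equiv (Equiv.addRight w.right.toAdd) _ _ (fun x => rfl)

variable [Fact q.Prime]

theorem mul_one_pow (w : (ZMod q → A) ⋊[shiftAct q A] Multiplicative (ZMod q)) : (w ^ q).right = 1 := by
  rw [sd_pow_right]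
  apply Multiplicative.toAdd.injective
  rw [toAdd_pow]
  simp

theorem sd_pow_q (w : (ZMod q → A) ⋊[shiftAct q A] Multiplicative (ZMod q)) (hs : w.right ≠ 1)
    (x : ZMod q) : (w ^ q).left x = ∏ y, w.left y := by
  rw [sd_pow]
  have hs' : w.right.toAdd ≠ 0 := fun h => hs (by simpa using h)
  have hb : Function.Bijective (fun i : ZMod q => x + i * w.right.toAdd) := by
    refine ⟨fun i j hij => ?_, fun y => ⟨(y - x) * (w.right.toAdd)⁻¹, ?_⟩⟩
    · simpa [hs'] using hij
    · have := hs'
      field_simp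
      ring
  rw [← hb.prod_comp (fun y => w.left y)]
  have hq : 0 < q := (Fact.out : q.Prime).pos
  refine Finset.prod_bij' (fun i _ => (i : ZMod q)) (fun y _ => y.val) ?_ ?_ ?_ ?_ ?_
  · intro i _; simp
  · intro y _; simp [ZMod.val_lt]
  · intro i hi; simp only [Finset.mem_range] at hi; exact ZMod.val_cast_of_lt hi
  · intro y _; simp
  · intro i _; rfl

theorem left_pow_of_right (w : (ZMod q → A) ⋊[shiftAct q A] Multiplicative (ZMod q))
    (hs : w.right = 1) (n : ℕ) (x : ZMod q) : (w ^ n).left x = (w.left x) ^ n := by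
  rw [sd_pow, hs]
  simp

end wreath

theorem exists_A (q : ℕ) [Fact q.Prime] (j : ℕ) :
    ∃ (A : Type) (_ : CommGroup A) (_ : Finite A) (a : A), (∀ x : A, x ^ (q ^ (j + 1)) = 1) ∧
      a ^ (q ^ j) ≠ 1 := by
  have hqp : q.Prime := Fact.out
  have : NeZero (q ^ (j + 1)) := ⟨pow_ne_zero _ hqp.ne_zero⟩
  refine ⟨Multiplicative (ZMod (q ^ (j + 1))), inferInstance,
    inferInstanceAs (Finite (ZMod (q ^ (j + 1)))), Multiplicative.ofAdd 1, ?_, ?_⟩
  · intro a
    apply Multiplicative.toAdd.injective
    rw [toAdd_pow]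
    simp only [nsmul_eq_mul, toAdd_one]
    rw [ZMod.natCast_self, zero_mul]
  · intro h
    have h1 := congrArg Multiplicative.toAdd h
    rw [toAdd_pow] at h1
    simp only [toAdd_ofAdd, toAdd_one, nsmul_eq_mul, mul_one] at h1
    rw [ZMod.natCast_eq_zero_iff] at h1
    exact absurd (Nat.le_of_dvd (pow_pos hqp.pos _) h1)
      (not_le.mpr (Nat.pow_lt_pow_right hqp.one_lt (Nat.lt_succ_self j)))

/-- auxiliary `q`-groups. -/
theorem exists_W (q : ℕ) [Fact q.Prime] (k : ℕ) (hk : 1 ≤ k) :
    ∃ (W : Type) (_ : Group W) (_ : Finite W) (B S : Subgroup W) (w : W), IsPGroup q W ∧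
      B.Normal ∧ S.Normal ∧ B ⊔ S = ⊤ ∧ (∀ b ∈ B, b ^ (q ^ k) = 1) ∧ (∀ b ∈ S, b ^ (q ^ k) = 1) ∧
      orderOf w = q ^ (k + 1) := by
  have hqp : q.Prime := Fact.out
  have : Finite (Multiplicative (ZMod q)) := inferInstanceAs (Finite (ZMod q))
  obtain ⟨j, rfl⟩ : ∃ j, k = j + 1 := ⟨k - 1, by omega⟩
  obtain ⟨A, _, _, a, hA, ha⟩ := exists_A q j
  have hsplit : ∀ w : (ZMod q → A) ⋊[shiftAct q A] Multiplicative (ZMod q), ∀ x,
      (w ^ q ^ (j + 1)).left x = ((w ^ q).left x) ^ (q ^ j) := by
    intro w x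
    rw [pow_succ', pow_mul, left_pow_of_right _ _ _ (mul_one_pow q A w)]
  have hR : ∀ w : (ZMod q → A) ⋊[shiftAct q A] Multiplicative (ZMod q),
      (w ^ q ^ (j + 1)).right = 1 := by
    intro w
    rw [pow_succ', pow_mul, sd_pow_right, mul_one_pow, one_pow]
  refine ⟨(ZMod q → A) ⋊[shiftAct q A] Multiplicative (ZMod q), inferInstance, inferInstance,
    (rightHom : (ZMod q → A) ⋊[shiftAct q A] Multiplicative (ZMod q) →* _).ker, (totHom q A).ker,
    ⟨Pi.mulSingle 0 a, Multiplicative.ofAdd 1⟩, ?_, inferInstance, inferInstance, ?_, ?_, ?_, ?_⟩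
  · intro w
    refine ⟨j + 1 + 1, ?_⟩
    have : q ^ (j + 1 + 1) = q * q ^ (j + 1) := pow_succ' _ _
    rw [this, pow_mul]
    ext x
    · rw [left_pow_of_right _ _ _ (mul_one_pow q A w), hA]
      rfl
    · rw [sd_pow_right, mul_one_pow, one_pow]
      rfl
  · rw [eq_top_iff]
    intro w _
    rw [← inl_left_mul_inr_right w]
    refine Subgroup.mul_mem_sup (by simp) ?_
    rw [MonoidHom.mem_ker]
    simp [totHom]
  · intro b hb
    rw [MonoidHom.mem_ker, rightHom_eq_right] at hb
    ext x
    · rw [left_pow_of_right _ _ _ hb, hA]; rfl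
    · rw [sd_pow_right, hb, one_pow]; rfl
  · intro b hb
    rw [MonoidHom.mem_ker] at hb
    have hb' : ∏ x, b.left x = 1 := hb
    by_cases hs : b.right = 1
    · ext x
      · rw [left_pow_of_right _ _ _ hs, hA]; rfl
      · rw [sd_pow_right, hs, one_pow]; rfl
    · ext x
      · rw [hsplit, sd_pow_q _ _ _ hs, hb', one_pow]; rfl
      · rw [hR]; rfl
  · refine orderOf_eq_prime_pow ?_ ?_
    · intro h
      have h1 := congrFun (congrArg SemidirectProduct.left h) 0
      rw [hsplit, sd_pow_q] at h1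
      · simp only [one_left, Pi.one_apply] at h1
        rw [Finset.prod_eq_single (0 : ZMod q)] at h1
        · rw [Pi.mulSingle_eq_same] at h1
          exact ha h1
        · intro b _ hb
          rw [Pi.mulSingle_eq_of_ne hb]
        · intro h; exact absurd (Finset.mem_univ _) h
      · intro h
        have h2 := congrArg Multiplicative.toAdd h
        simp at h2
    · have : q ^ (j + 1 + 1) = q * q ^ (j + 1) := pow_succ' _ _
      rw [this, pow_mul]
      ext x
      · rw [left_pow_of_right _ _ _ (mul_one_pow q A _), hA]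
        rfl
      · rw [sd_pow_right, mul_one_pow, one_pow]
        rfl

/-- right translation action on functions. -/
def transAct (W V : Type) [Group W] [CommGroup V] : W →* MulAut (W → V) where
  toFun w :=
    { toFun := fun f x => f (x * w)
      invFun := fun f x => f (x * w⁻¹)
      left_inv := fun f => by ext x; simp
      right_inv := fun f => by ext x; simp
      map_mul' := fun f g => rfl }
  map_one' := by ext f x; simp
  map_mul' s t := by
    ext f x
    simp only [MulEquiv.coe_mk, Equiv.coe_fn_mk, MulAut.mul_apply]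
    rw [mul_assoc]

@[simp] theorem transAct_apply (W V : Type) [Group W] [CommGroup V] (w : W) (f : W → V) (x : W) :
    transAct W V w f x = f (x * w) := rfl

/-- the coinduced map. -/
def thetaHom {W V Y : Type} [Group W] [CommGroup V] [Group Y] [Fintype Y] (ι : Y →* W)
    (φ : Y →* MulAut V) : (W → V) →* V where
  toFun f := ∏ y : Y, φ y (f (ι y)⁻¹)
  map_one' := by simp
  map_mul' f g := by simp [Finset.prod_mul_distrib]

theorem thetaHom_equiv {W V Y : Type} [Group W] [CommGroup V] [Group Y] [Fintype Y] (ι : Y →* W)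
    (φ : Y →* MulAut V) (y0 : Y) (f : W → V) :
    thetaHom ι φ (transAct W V (ι y0) f) = φ y0 (thetaHom ι φ f) := by
  simp only [thetaHom, MonoidHom.coe_mk, OneHom.coe_mk, map_prod, transAct_apply]
  rw [← Fintype.prod_equiv (Equiv.mulLeft y0) (fun y => φ (y0 * y) (f ((ι (y0 * y))⁻¹ * ι y0))) _
    (fun y => rfl)]
  refine Finset.prod_congr rfl fun y _ => ?_
  rw [map_mul φ, MulAut.mul_apply, map_mul ι, mul_inv_rev, mul_assoc, inv_mul_cancel, mul_one]

theorem thetaHom_surj {W V Y : Type} [Group W] [CommGroup V] [Group Y] [Fintype Y] (ι : Y →* W)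
    (hι : Function.Injective ι) (φ : Y →* MulAut V) : Function.Surjective (thetaHom ι φ) := by
  classical
  intro v
  refine ⟨Pi.mulSingle 1 v, ?_⟩
  simp only [thetaHom, MonoidHom.coe_mk, OneHom.coe_mk]
  rw [Finset.prod_eq_single (1 : Y)]
  · simp
  · intro b _ hb
    rw [Pi.mulSingle_eq_of_ne, map_one]
    intro h
    rw [inv_eq_one] at h
    exact hb (hι (by rw [h, map_one]))
  · intro h; exact absurd (Finset.mem_univ _) h

/-- The key induction: all extensions `V ⋊ Q` with a `q`-group `Q` on top. -/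
theorem KF.qi (hF : KF F) {q : ℕ} [Fact q.Prime] (m : ℕ)
    (h0 : ∀ (V : Type) [CommGroup V] [Finite V], (∀ v : V, v ^ m = 1) → F V)
    (h1 : ∀ (V : Type) [CommGroup V] [Finite V], (∀ v : V, v ^ m = 1) →
      ∀ (Y : Type) [Group Y] [Finite Y], Nat.card Y = q → ∀ φ : Y →* MulAut V, F (V ⋊[φ] Y)) :
    ∀ (k : ℕ) (V : Type) [CommGroup V] [Finite V], (∀ v : V, v ^ m = 1) →
      ∀ (Q : Type) [Group Q] [Finite Q], IsPGroup q Q → (∀ y : Q, y ^ (q ^ k) = 1) →
      ∀ φ : Q →* MulAut V, F (V ⋊[φ] Q) := by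
  have hqp : q.Prime := Fact.out
  have htriv : ∀ (V : Type) [CommGroup V] [Finite V], (∀ v : V, v ^ m = 1) →
      ∀ (Q : Type) [Group Q] [Finite Q], Subsingleton Q →
      ∀ φ : Q →* MulAut V, F (V ⋊[φ] Q) := by
    intro V _ _ hV Q _ _ hQ φ
    refine hF.img (inl : V →* V ⋊[φ] Q) ?_ (h0 V hV)
    intro w
    exact ⟨w.left, by ext; rfl; exact Subsingleton.elim _ _⟩
  intro k
  induction k with
  | zero =>
    intro V _ _ hV Q _ _ hQ he φ
    refine htriv V hV Q ⟨fun a b => ?_⟩ φ
    have ha := he a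
    have hb := he b
    simp only [pow_zero, pow_one] at ha hb
    rw [ha, hb]
  | succ k ih =>
    intro V _ _ hV Q _ _ hQ he φ
    refine hF.from_cyclic (q := q) (q ^ (k + 1)) ?_ _ Q le_rfl hQ he φ
    intro Y _ _ hY hYc hYe φ
    obtain ⟨y, hy⟩ := hYc.exists_generator
    have hcard : Nat.card Y = orderOf y := by
      rw [← Nat.card_zpowers]
      have : Subgroup.zpowers y = ⊤ := by rw [eq_top_iff]; intro x _; exact hy x
      rw [this, Subgroup.card_top]
    have hdvd : orderOf y ∣ q ^ (k + 1) := orderOf_dvd_of_pow_eq_one (hYe y)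
    obtain ⟨j, hj, hjo⟩ := (Nat.dvd_prime_pow hqp).mp hdvd
    rcases Nat.lt_or_ge j (k + 1) with hlt | hge
    · -- smaller exponent
      refine ih V hV Y hY ?_ φ
      intro z
      have : orderOf z ∣ q ^ k := by
        refine (orderOf_dvd_natCard z).trans ?_
        rw [hcard, hjo]
        exact pow_dvd_pow _ (by omega)
      exact orderOf_dvd_iff_pow_eq_one.mp this
    · have hj' : j = k + 1 := by omega
      subst hj'
      rcases Nat.eq_zero_or_pos k with hk0 | hkpos
      · subst hk0
        refine h1 V hV Y ?_ φ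
        rw [hcard, hjo]; simp
      · obtain ⟨W, _, _, B, S, w, hW, hBn, hSn, hBS, hBe, hSe, hw⟩ := exists_W q k hkpos
        let _ : Fintype Y := Fintype.ofFinite Y
        have hV'' : ∀ v : W → V, v ^ m = 1 := fun v => by ext x; exact hV _
        -- F ((W → V) ⋊ W)
        have hFW : F ((W → V) ⋊[transAct W V] W) := by
          refine hF.sd_prd _ B S hBS ?_ ?_
          · exact ih (W → V) hV'' B (hW.to_subgroup B)
              (fun b => Subtype.ext (by simpa using hBe b.1 b.2)) _
          · exact ih (W → V) hV'' S (hW.to_subgroup S)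
              (fun b => Subtype.ext (by simpa using hSe b.1 b.2)) _
        -- embedding of Y
        have hgen : ∀ x : Subgroup.zpowers w, x ∈ Subgroup.zpowers
            (⟨w, Subgroup.mem_zpowers w⟩ : Subgroup.zpowers w) := by
          rintro ⟨x, n, rfl⟩
          exact ⟨n, by ext; simp⟩
        have hord : orderOf y = orderOf (⟨w, Subgroup.mem_zpowers w⟩ : Subgroup.zpowers w) := by
          rw [hjo, ← hw, Subgroup.orderOf_mk]
        let ι : Y →* W := (Subgroup.zpowers w).subtype.comp
          (mulEquivOfOrderOfEq hy hgen hord).toMonoidHom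
        have hι : Function.Injective ι := by
          intro a b hab
          exact (mulEquivOfOrderOfEq hy hgen hord).injective (Subtype.ext hab)
        have hFY := hF.sd_sub' hW (transAct W V) ι hι hFW
        refine hF.img (SemidirectProduct.map (φ₁ := (transAct W V).comp ι) (φ₂ := φ)
          (thetaHom ι φ) (MonoidHom.id Y) (fun g => ?_)) ?_ hFY
        · ext f
          exact thetaHom_equiv ι φ g f
        · rintro ⟨v, z⟩
          obtain ⟨f, hf⟩ := thetaHom_surj ι hι φ v
          exact ⟨⟨f, z⟩, by ext; exact hf; rfl⟩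

/-- The form without exponent. -/
theorem KF.qi' (hF : KF F) {q : ℕ} [Fact q.Prime] (m : ℕ)
    (h0 : ∀ (V : Type) [CommGroup V] [Finite V], (∀ v : V, v ^ m = 1) → F V)
    (h1 : ∀ (V : Type) [CommGroup V] [Finite V], (∀ v : V, v ^ m = 1) →
      ∀ (Y : Type) [Group Y] [Finite Y], Nat.card Y = q → ∀ φ : Y →* MulAut V, F (V ⋊[φ] Y))
    (V : Type) [CommGroup V] [Finite V] (hV : ∀ v : V, v ^ m = 1)
    (Q : Type) [Group Q] [Finite Q] (hQ : IsPGroup q Q) (φ : Q →* MulAut V) : F (V ⋊[φ] Q) := by
  obtain ⟨n, hn⟩ := IsPGroup.iff_card.mp hQ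
  refine hF.qi m h0 h1 n V hV Q hQ ?_ φ
  intro y
  rw [← hn]
  exact pow_card_eq_one'

end Pool.Agent.KegelFF
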