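import Pool.Agent.Lib.MP_a2b075_al.Basic

set_option autoImplicit false
open scoped Pointwise
open SemidirectProduct

namespace Pool.Agent.KegelFF

variable {F : ∀ (G : Type) [Group G], Prop}

instance sdFinite {V Q : Type} [Group V] [Group Q] [Finite V] [Finite Q] (φ : Q →* MulAut V) :
    Finite (V ⋊[φ] Q) := Finite.of_equiv _ SemidirectProduct.equivProd.symm

/-- the preimage of a subgroup of the complement is a semidirect product. -/
def comapEquiv {V Q : Type} [Group V] [Group Q] (φ : Q →* MulAut V) (M : Subgroup Q) :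
    V ⋊[φ.comp M.subtype] M ≃* (M.comap (rightHom : V ⋊[φ] Q →* Q)) where
  toFun x := ⟨⟨x.left, x.right.1⟩, x.right.2⟩
  invFun x := ⟨x.1.left, ⟨x.1.right, x.2⟩⟩
  left_inv x := by ext <;> rfl
  right_inv x := by rfl
  map_mul' x y := by rfl

theorem KF.comap_iff (hF : KF F) {V Q : Type} [Group V] [Group Q] [Finite V] [Finite Q]
    (φ : Q →* MulAut V) (M : Subgroup Q) :
    F (V ⋊[φ.comp M.subtype] M) ↔ F (M.comap (rightHom : V ⋊[φ] Q →* Q)) :=
  ⟨hF.iso _ _ (comapEquiv φ M), hF.iso _ _ (comapEquiv φ M).symm⟩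

/-- normal subgroups of the complement. -/
theorem KF.sd_nrm (hF : KF F) {V Q : Type} [Group V] [Group Q] [Finite V] [Finite Q]
    (φ : Q →* MulAut V) (M : Subgroup Q) [hM : M.Normal] (h : F (V ⋊[φ] Q)) :
    F (V ⋊[φ.comp M.subtype] M) :=
  (hF.comap_iff φ M).mpr (hF.nrm _ _ (hM.comap _) h)

/-- products of normal subgroups of the complement. -/
theorem KF.sd_prd (hF : KF F) {V Q : Type} [Group V] [Group Q] [Finite V] [Finite Q]
    (φ : Q →* MulAut V) (M N : Subgroup Q) [hM : M.Normal] [hN : N.Normal] (hMN : M ⊔ N = ⊤)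
    (h1 : F (V ⋊[φ.comp M.subtype] M)) (h2 : F (V ⋊[φ.comp N.subtype] N)) : F (V ⋊[φ] Q) := by
  refine hF.prd _ _ _ (hM.comap rightHom) (hN.comap rightHom) ?_ ((hF.comap_iff φ M).mp h1)
    ((hF.comap_iff φ N).mp h2)
  rw [Subgroup.comap_sup_eq _ _ _ rightHom_surjective, hMN, Subgroup.comap_top]

/-- change of the complement along an isomorphism. -/
theorem KF.sd_congr (hF : KF F) {V Q Y : Type} [Group V] [Group Q] [Group Y] [Finite V] [Finite Q]
    [Finite Y] (φ : Q →* MulAut V) (e : Y ≃* Q) (h : F (V ⋊[φ] Q)) :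
    F (V ⋊[φ.comp e.toMonoidHom] Y) := by
  refine hF.iso _ _ ?_ h
  exact (SemidirectProduct.congr (φ₁ := φ.comp e.toMonoidHom) (φ₂ := φ) (MulEquiv.refl V) e
    (fun g => by ext; rfl)).symm

theorem normal_of_coatom {q : ℕ} [Fact q.Prime] {Q : Type} [Group Q] [Finite Q]
    (hQ : IsPGroup q Q) {M : Subgroup Q} (hM : IsCoatom M) : M.Normal := by
  have : Group.IsNilpotent Q := hQ.isNilpotent
  exact Subgroup.NormalizerCondition.normal_of_coatom M normalizerCondition_of_isNilpotent hM

/-- subnormality of subgroups of finite `q`-groups. -/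
theorem KF.sd_sub (hF : KF F) {q : ℕ} [Fact q.Prime] {V : Type} [Group V] [Finite V]
    {Y : Type} [Group Y] [Finite Y] : ∀ (n : ℕ) (W : Type) [Group W] [Finite W],
    Nat.card W ≤ n → IsPGroup q W → ∀ (ψ : W →* MulAut V) (ι : Y →* W),
    Function.Injective ι → F (V ⋊[ψ] W) → F (V ⋊[ψ.comp ι] Y) := by
  intro n
  induction n with
  | zero =>
    intro W _ _ hc
    have := Nat.card_pos (α := W)
    omega
  | succ n ih =>
    intro W _ _ hc hW ψ ι hι h
    by_cases hs : Function.Surjective ι
    · exact hF.sd_congr ψ (MulEquiv.ofBijective ι ⟨hι, hs⟩) h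
    · have hr : ι.range ≠ ⊤ := fun h0 => hs (MonoidHom.range_eq_top.mp h0)
      obtain ⟨M, hM, hrM⟩ := (eq_top_or_exists_le_coatom ι.range).resolve_left hr
      have hMn : M.Normal := normal_of_coatom hW hM
      have h1 := hF.sd_nrm ψ M h
      have hlt : Nat.card M < Nat.card W := by
        have h2 : M < ⊤ := hM.lt_top
        have h3 : Nat.card M = Set.ncard (M : Set W) := rfl
        have h4 : Nat.card W = Set.ncard (Set.univ : Set W) := (Set.ncard_univ W).symm
        rw [h3, h4]
        exact Set.ncard_lt_ncard (by rw [← Subgroup.coe_top]; exact h2) (Set.toFinite _)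
      have hι' : ∀ y, ι y ∈ M := fun y => hrM ⟨y, rfl⟩
      have := ih M (by omega) (hW.to_subgroup M) (ψ.comp M.subtype) (ι.codRestrict M hι')
        (fun a b hab => hι (congrArg Subtype.val hab)) h1
      exact this

theorem KF.sd_sub' (hF : KF F) {q : ℕ} [Fact q.Prime] {V : Type} [Group V] [Finite V]
    {Y W : Type} [Group Y] [Finite Y] [Group W] [Finite W] (hW : IsPGroup q W)
    (ψ : W →* MulAut V) (ι : Y →* W) (hι : Function.Injective ι) (h : F (V ⋊[ψ] W)) :
    F (V ⋊[ψ.comp ι] Y) :=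
  hF.sd_sub (q := q) _ W le_rfl hW ψ ι hι h

/-- reduction to cyclic groups. -/
theorem KF.from_cyclic (hF : KF F) {q : ℕ} [Fact q.Prime] {V : Type} [Group V] [Finite V] (e : ℕ)
    (hcyc : ∀ (Y : Type) [Group Y] [Finite Y], IsPGroup q Y → IsCyclic Y → (∀ y : Y, y ^ e = 1) →
      ∀ φ : Y →* MulAut V, F (V ⋊[φ] Y)) :
    ∀ (n : ℕ) (Q : Type) [Group Q] [Finite Q], Nat.card Q ≤ n → IsPGroup q Q →
      (∀ y : Q, y ^ e = 1) → ∀ φ : Q →* MulAut V, F (V ⋊[φ] Q) := by
  intro n
  induction n with
  | zero =>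
    intro W _ _ hc
    have := Nat.card_pos (α := W)
    omega
  | succ n ih =>
    intro Q _ _ hc hQ he φ
    by_cases hQc : IsCyclic Q
    · exact hcyc Q hQ hQc he φ
    · have hnt : Nontrivial Q := by
        by_contra h
        rw [not_nontrivial_iff_subsingleton] at h
        exact hQc inferInstance
      have hnb : (⊥ : Subgroup Q) ≠ ⊤ := bot_ne_top
      obtain ⟨M, hM, -⟩ := (eq_top_or_exists_le_coatom (⊥ : Subgroup Q)).resolve_left hnb
      obtain ⟨x, hx⟩ : ∃ x, x ∉ M := by
        by_contra h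
        push Not at h
        exact hM.1 (eq_top_iff.mpr (fun x _ => h x))
      have hxt : Subgroup.zpowers x ≠ ⊤ := by
        intro h
        exact hQc ⟨x, fun y => by
          have : y ∈ Subgroup.zpowers x := by rw [h]; trivial
          exact this⟩
      obtain ⟨N, hN, hxN⟩ := (eq_top_or_exists_le_coatom _).resolve_left hxt
      have hxN' : x ∈ N := hxN (Subgroup.mem_zpowers x)
      have hne : M ≠ N := fun h => hx (h ▸ hxN')
      have hsup : M ⊔ N = ⊤ := hM.sup_eq_top_of_ne hN hne
      have hcard : ∀ K : Subgroup Q, IsCoatom K → Nat.card K ≤ n := by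
        intro K hK
        have h2 : K < ⊤ := hK.lt_top
        have h3 : Nat.card K = Set.ncard (K : Set Q) := rfl
        have h4 : Nat.card Q = Set.ncard (Set.univ : Set Q) := (Set.ncard_univ Q).symm
        have : Nat.card K < Nat.card Q := by
          rw [h3, h4]
          exact Set.ncard_lt_ncard (by rw [← Subgroup.coe_top]; exact h2) (Set.toFinite _)
        omega
      have hMn := normal_of_coatom hQ hM
      have hNn := normal_of_coatom hQ hN
      refine hF.sd_prd φ M N hsup ?_ ?_
      · exact ih M (hcard M hM) (hQ.to_subgroup M) (fun y => Subtype.ext (by simpa using he y.1)) _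
      · exact ih N (hcard N hN) (hQ.to_subgroup N) (fun y => Subtype.ext (by simpa using he y.1)) _

end Pool.Agent.KegelFF
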