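import Pool.Agent.Lib.MP_a2b075_al.QC
import Pool.Agent.Lib.MP_a2b075_al.Base2

set_option autoImplicit false
open scoped Pointwise
open SemidirectProduct

namespace Pool.Agent.KegelFF

variable {F : ∀ (G : Type) [Group G], Prop}

/-- a commutative group type, with an opaque instance. -/
theorem exists_comm (M : Type) [Group M] (h : ∀ a b : M, a * b = b * a) :
    ∃ (V : Type) (_ : CommGroup V), Nonempty (M ≃* V) :=
  ⟨M, { (inferInstance : Group M) with mul_comm := h }, ⟨MulEquiv.refl M⟩⟩

theorem isPGroup_of_PQ {p q : ℕ} {G : Type} [Group G] [Finite G]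
    (h : PQ p q G) (hq : ¬ q ∣ Nat.card G) : IsPGroup p G := by
  refine IsPGroup.of_card (n := (Nat.card G).primeFactorsList.length) ?_
  refine Nat.eq_prime_pow_of_unique_prime_dvd (Nat.card_pos).ne' ?_
  intro d hd hdG
  rcases h d hd hdG with h1 | h1
  · exact h1
  · exact absurd (h1 ▸ hdG) hq

/-- a non nilpotent split extension of an elementary abelian `p`-group by `C_q` in `F`. -/
def Arrow (F : ∀ (G : Type) [Group G], Prop) (p q : ℕ) : Prop :=
  ∃ (V Y : Type) (_ : CommGroup V) (_ : Finite V) (_ : Group Y) (_ : Finite Y)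
      (φ : Y →* MulAut V), (∀ v : V, v ^ p = 1) ∧ Nat.card Y = q ∧ (∃ y v, φ y v ≠ v) ∧
      F (V ⋊[φ] Y)

theorem triv_QC {q : ℕ} {V Y : Type} [CommGroup V] [Group Y] [Finite V] [Finite Y]
    (φ : Y →* MulAut V) (hY : Nat.card Y = q) (htr : ∀ y v, φ y v = v)
    (hV : ¬ q ∣ Nat.card V) : QC q (V ⋊[φ] Y) := by
  let lh : V ⋊[φ] Y →* V :=
    { toFun := fun x => x.left
      map_one' := rfl
      map_mul' := fun a b => by
        rw [mul_left]
        congr 1
        exact htr a.right b.left }
  refine ⟨lh.ker, inferInstance, ?_, ?_⟩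
  · intro x
    refine ⟨1, ?_⟩
    apply Subtype.ext
    have hx : (x.1).left = 1 := x.2
    have hx' : x.1 = inr (x.1).right := SemidirectProduct.ext hx rfl
    have h1 : (x.1).right ^ q = 1 := by
      rw [← hY]
      exact pow_card_eq_one'
    change (x.1) ^ (q ^ 1) = 1
    rw [hx', pow_one, ← map_pow, h1, map_one]
  · have h1 : lh.ker.index = Nat.card V := by
      rw [Subgroup.index_ker]
      have : lh.range = ⊤ := MonoidHom.range_eq_top.mpr (fun v => ⟨⟨v, 1⟩, rfl⟩)
      rw [this, Subgroup.card_top]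
    rw [h1]
    exact hV

/-- A minimal member of `F` which is not `q`-closed. -/
theorem KF.stepB (hF : KF F) {p q : ℕ} [Fact p.Prime] [Fact q.Prime] (hpq : p ≠ q) :
    ∀ (n : ℕ) (G : Type) [Group G] [Finite G], Nat.card G ≤ n → F G → PQ p q G → ¬ QC q G →
    Arrow F p q := by
  have hqp : q.Prime := Fact.out
  have hpp : p.Prime := Fact.out
  intro n
  induction n with
  | zero =>
    intro W _ _ hc
    have := Nat.card_pos (α := W)
    omega
  | succ n ih =>
    intro G _ _ hc hG hPQ hn
    by_contra hcon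
    -- proper normal subgroups are q-closed
    have hsub : ∀ M : Subgroup G, M.Normal → M ≠ ⊤ → QC q M := by
      intro M hM hMt
      by_contra h
      have := card_lt_of_ne_top hMt
      exact hcon (ih M (by omega) (hF.nrm G M hM hG) (hPQ.sub M) h)
    have hquo : ∀ M : Subgroup G, ∀ _ : M.Normal, M ≠ ⊥ → QC q (G ⧸ M) := by
      intro M hM hMb
      by_contra h
      have h1 : 1 < Nat.card M := (Subgroup.one_lt_card_iff_ne_bot M).mpr hMb
      have h2 : Nat.card (G ⧸ M) * Nat.card M = Nat.card G :=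
        (Subgroup.card_eq_card_quotient_mul_card_subgroup M).symm
      have h3 : 0 < Nat.card (G ⧸ M) := Nat.card_pos
      have h4 : Nat.card (G ⧸ M) < Nat.card G := by nlinarith
      exact hcon (ih (G ⧸ M) (by omega) (hF.quo G M hG) (hPQ.quo M) h)
    have hnt : Nontrivial G := by
      by_contra h
      rw [not_nontrivial_iff_subsingleton] at h
      refine hn ⟨⊥, inferInstance, IsPGroup.of_bot, ?_⟩
      rw [Subgroup.index_bot]
      have : Nat.card G = 1 := Nat.card_eq_one_iff_unique.mpr ⟨h, ⟨1⟩⟩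
      rw [this]
      exact fun h => hqp.one_lt.ne' (Nat.dvd_one.mp h)
    have hs : Group.IsSolvable G := hF.sol G hG
    obtain ⟨M, hM, hMi⟩ := exists_normal_prime_index G
    have hMt : M ≠ ⊤ := by
      rintro rfl
      rw [Subgroup.index_top] at hMi
      exact hMi.one_lt.ne rfl
    have hMq := hsub M hM hMt
    have hr : M.index = q := by
      by_contra hne
      refine hn (QC.of_normal M hMq ?_)
      intro hd
      exact hne ((Nat.prime_dvd_prime_iff_eq hqp hMi).mp hd).symm
    obtain ⟨O, hO, hOp, hOi⟩ := hMq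
    -- O is normal in G
    have hO' : (O.map M.subtype).Normal := by
      refine ⟨?_⟩
      rintro _ ⟨n, hn, rfl⟩ g
      obtain ⟨k, hk⟩ := (mem_iff_pow hOp hOi n).mp hn
      have hgE : g * (n : G) * g⁻¹ ∈ M := hM.conj_mem _ n.2 g
      refine ⟨⟨g * (n : G) * g⁻¹, hgE⟩, ?_, rfl⟩
      refine (mem_iff_pow hOp hOi _).mpr ⟨k, Subtype.ext ?_⟩
      have hk' : (n : G) ^ (q ^ k) = 1 := by simpa using congrArg Subtype.val hk
      simp [conj_pow, hk']
    have hOb : O.map M.subtype = ⊥ := by
      by_contra hne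
      exact hn (QC.of_quo _ (hOp.map _) (hquo _ hO' hne))
    have hOb' : O = ⊥ := by
      rw [Subgroup.map_eq_bot_iff_of_injective _ (Subgroup.subtype_injective M)] at hOb
      exact hOb
    have hMnq : ¬ q ∣ Nat.card M := by
      rw [hOb', Subgroup.index_bot] at hOi
      exact hOi
    have hMp : IsPGroup p M := isPGroup_of_PQ (hPQ.sub M) hMnq
    have hMb : M ≠ ⊥ := by
      rintro rfl
      rw [Subgroup.index_bot] at hr
      refine hn ⟨⊤, inferInstance, ?_, ?_⟩
      · exact (IsPGroup.of_card (n := 1) (by rw [hr, pow_one])).to_subgroup ⊤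
      · rw [Subgroup.index_top]
        exact fun h => hqp.one_lt.ne' (Nat.dvd_one.mp h)
    obtain ⟨D, hD, hDb, hDM, hDc, hDe⟩ := exists_elem M hMp hMb
    obtain ⟨T, hT, hTp, hTi⟩ := hquo D hD hDb
    have hE : (T.comap (QuotientGroup.mk' D)).Normal := hT.comap _
    have hEt : T.comap (QuotientGroup.mk' D) = ⊤ := by
      by_contra hne
      refine hn (QC.of_normal _ (hsub _ hE hne) ?_)
      rw [Subgroup.index_comap_of_surjective _ (QuotientGroup.mk'_surjective D)]
      exact hTi
    have hTt : T = ⊤ := by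
      have := Subgroup.map_comap_eq_self_of_surjective (QuotientGroup.mk'_surjective D) T
      rw [← this, hEt]
      exact Subgroup.map_top_of_surjective _ (QuotientGroup.mk'_surjective D)
    subst hTt
    -- M = D
    have hMD : M ≤ D := by
      intro m hm
      obtain ⟨k, hk⟩ := hMp ⟨m, hm⟩
      have hk' : m ^ (p ^ k) = 1 := by simpa using congrArg Subtype.val hk
      obtain ⟨j, hj⟩ := hTp ⟨QuotientGroup.mk' D m, trivial⟩
      have hj' : (QuotientGroup.mk' D m) ^ (q ^ j) = 1 := by simpa using congrArg Subtype.val hj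
      have h1 : orderOf (QuotientGroup.mk' D m) ∣ p ^ k :=
        orderOf_dvd_of_pow_eq_one (by rw [← map_pow, hk', map_one])
      have h2 : orderOf (QuotientGroup.mk' D m) ∣ q ^ j := orderOf_dvd_of_pow_eq_one hj'
      have h4 : Nat.Coprime (p ^ k) (q ^ j) :=
        Nat.Coprime.pow _ _ ((Nat.coprime_primes hpp hqp).mpr hpq)
      have h5 : orderOf (QuotientGroup.mk' D m) = 1 := Nat.eq_one_of_dvd_coprimes h4 h1 h2
      rw [orderOf_eq_one_iff] at h5
      rwa [← MonoidHom.mem_ker, QuotientGroup.ker_mk'] at h5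
    have hMD' : M = D := le_antisymm hMD hDM
    subst hMD'
    -- complement
    have hcard : Nat.card M * M.index = Nat.card G := Subgroup.card_mul_index M
    have hqd : q ∣ Nat.card G := by rw [← hcard, hr]; exact dvd_mul_left _ _
    obtain ⟨z, hz⟩ := exists_prime_orderOf_dvd_card' q hqd
    have hcz : Nat.card (Subgroup.zpowers z) = q := by rw [Nat.card_zpowers, hz]
    have hcop : Nat.Coprime (Nat.card M) q :=
      ((Nat.Prime.coprime_iff_not_dvd hqp).mpr hMnq).symm
    have hcomp : M.IsComplement' (Subgroup.zpowers z) := by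
      refine Subgroup.isComplement'_of_coprime ?_ ?_
      · rw [hcz, ← hcard, hr]
      · rw [hcz]; exact hcop
    have e1 := SemidirectProduct.mulEquivSubgroup hcomp
    obtain ⟨V, _, ⟨e2⟩⟩ := exists_comm M (fun a b => Subtype.ext (hDc a a.2 b b.2))
    have hVf : Finite V := Finite.of_equiv _ e2.toEquiv
    have hVe : ∀ v : V, v ^ p = 1 := by
      intro v
      obtain ⟨m, rfl⟩ := e2.surjective v
      rw [← map_pow]
      have : m ^ p = 1 := Subtype.ext (by simpa using hDe m m.2)
      rw [this, map_one]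
    have e3 := SemidirectProduct.congr' (φ₁ := (M.normalizerMonoidHom).comp
      (Subgroup.inclusion (M.normalizer_eq_top ▸ le_top))) e2
      (MulEquiv.refl (Subgroup.zpowers z))
    have e4 := e1.symm.trans e3
    refine hcon ⟨V, Subgroup.zpowers z, inferInstance, hVf, inferInstance, inferInstance,
      _, hVe, hcz, ?_, hF.iso _ _ e4 hG⟩
    by_contra htr
    push Not at htr
    exact hn (QC.of_equiv e4.symm (triv_QC _ hcz htr (by
      rw [← Nat.card_congr e2.toEquiv]; exact hMnq)))

end Pool.Agent.KegelFF
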